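import Mathlib

/-!
Rank one operators acting on alternating forms.
-/

set_option linter.unusedSimpArgs false

namespace Pool.Agent.Lib.MP_55eb77_al

open Function Finset

variable {F : Type*} [Field F] {V : Type*} [AddCommGroup V] [Module F V] {l : ℕ}

/-- The rank one operator `v ↦ f v • x`. -/
def rk1 (x : V) (f : Module.Dual F V) : Module.End F V := f.smulRight x

@[simp] theorem rk1_apply (x : V) (f : Module.Dual F V) (v : V) : rk1 x f v = f v • x := rfl

/-- `η ∘ (1 + rk1 x f) - η`. -/
def D (x : V) (f : Module.Dual F V) (η : V [⋀^Fin l]→ₗ[F] F) : V [⋀^Fin l]→ₗ[F] F :=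
  η.compLinearMap (1 + rk1 x f) - η

theorem D_aux1 (η : V [⋀^Fin l]→ₗ[F] F) (x : V) (c : Fin l → F) (v : Fin l → V)
    (s : Finset (Fin l)) (i : Fin l) (hi : i ∉ s) :
    η (update (fun j => if j ∈ s then v j + c j • x else v j) i x) = η (update v i x) := by
  induction s using Finset.induction_on with
  | empty => simp
  | insert j s hj ih =>
    have hij : i ≠ j := fun h => hi (by simp [h])
    have his : i ∉ s := fun h => hi (by simp [h])
    have h1 : (fun k => if k ∈ insert j s then v k + c k • x else v k) =
        update (fun k => if k ∈ s then v k + c k • x else v k) j (v j + c j • x) := by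
      funext k
      by_cases hk : k = j
      · subst hk; simp
      · simp [hk]
    rw [h1, update_comm hij.symm, η.map_update_add, η.map_update_smul]
    have h2 : η (update (update (fun k => if k ∈ s then v k + c k • x else v k) i x) j x) = 0 := by
      apply η.map_eq_zero_of_eq _ _ hij
      simp [update_of_ne hij]
    have h3 : update (update (fun k => if k ∈ s then v k + c k • x else v k) i x) j (v j) =
        update (fun k => if k ∈ s then v k + c k • x else v k) i x := by
      have : v j = update (fun k => if k ∈ s then v k + c k • x else v k) i x j := by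
        rw [update_of_ne hij.symm]
        simp [hj]
      rw [this, update_eq_self]
    rw [h2, h3, ih his]
    simp

theorem D_aux2 (η : V [⋀^Fin l]→ₗ[F] F) (x : V) (c : Fin l → F) (v : Fin l → V)
    (s : Finset (Fin l)) :
    η (fun j => if j ∈ s then v j + c j • x else v j) =
      η v + ∑ i ∈ s, c i * η (update v i x) := by
  induction s using Finset.induction_on with
  | empty => simp
  | insert j s hj ih =>
    have h1 : (fun k => if k ∈ insert j s then v k + c k • x else v k) =
        update (fun k => if k ∈ s then v k + c k • x else v k) j (v j + c j • x) := by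
      funext k
      by_cases hk : k = j
      · subst hk; simp
      · simp [hk]
    have h3 : update (fun k => if k ∈ s then v k + c k • x else v k) j (v j) =
        (fun k => if k ∈ s then v k + c k • x else v k) := by
      have : v j = (fun k => if k ∈ s then v k + c k • x else v k) j := by simp [hj]
      rw [this, update_eq_self]
    rw [h1, η.map_update_add, η.map_update_smul, D_aux1 η x c v s j hj, h3, ih,
      sum_insert hj]
    simp only [smul_eq_mul]
    ring

theorem D_apply (x : V) (f : Module.Dual F V) (η : V [⋀^Fin l]→ₗ[F] F) (v : Fin l → V) :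
    D x f η v = ∑ i, f (v i) * η (update v i x) := by
  have h := D_aux2 η x (fun i => f (v i)) v univ
  simp only [mem_univ, if_true] at h
  have h2 : (D x f η) v = η (fun j => v j + f (v j) • x) - η v := rfl
  rw [h2, h]
  ring

theorem D_add_left (x y : V) (f : Module.Dual F V) (η : V [⋀^Fin l]→ₗ[F] F) :
    D (x + y) f η = D x f η + D y f η := by
  ext v
  rw [AlternatingMap.add_apply, D_apply, D_apply, D_apply, ← sum_add_distrib]
  refine sum_congr rfl fun i _ => ?_
  rw [η.map_update_add, mul_add]

theorem D_smul_left (c : F) (x : V) (f : Module.Dual F V) (η : V [⋀^Fin l]→ₗ[F] F) :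
    D (c • x) f η = c • D x f η := by
  ext v
  rw [AlternatingMap.smul_apply, D_apply, D_apply, smul_sum]
  refine sum_congr rfl fun i _ => ?_
  rw [η.map_update_smul]
  simp only [smul_eq_mul]
  ring

theorem D_add_right (x : V) (f g : Module.Dual F V) (η : V [⋀^Fin l]→ₗ[F] F) :
    D x (f + g) η = D x f η + D x g η := by
  ext v
  rw [AlternatingMap.add_apply, D_apply, D_apply, D_apply, ← sum_add_distrib]
  refine sum_congr rfl fun i _ => ?_
  rw [LinearMap.add_apply, add_mul]

theorem D_smul_right (c : F) (x : V) (f : Module.Dual F V) (η : V [⋀^Fin l]→ₗ[F] F) :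
    D x (c • f) η = c • D x f η := by
  ext v
  rw [AlternatingMap.smul_apply, D_apply, D_apply, smul_sum]
  refine sum_congr rfl fun i _ => ?_
  rw [LinearMap.smul_apply]
  simp only [smul_eq_mul]
  ring

theorem comp_one_add (x : V) (f : Module.Dual F V) (η : V [⋀^Fin l]→ₗ[F] F) :
    η.compLinearMap (1 + rk1 x f) = η + D x f η := by
  unfold D
  abel

/-- The commutator identity. -/
theorem D_comm (x y : V) (f h : Module.Dual F V) (η : V [⋀^Fin l]→ₗ[F] F) :
    D x f (D y h η) - D y h (D x f η) = h x • D y f η - f y • D x h η := by
  ext v
  rw [AlternatingMap.sub_apply, AlternatingMap.sub_apply, AlternatingMap.smul_apply,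
    AlternatingMap.smul_apply]
  simp only [D_apply, smul_eq_mul, mul_sum]
  rw [← sum_sub_distrib]
  -- split the diagonal terms
  have e1 : ∀ i, ∑ j, f (v i) * (h (update v i x j) * η (update (update v i x) j y)) =
      h x * (f (v i) * η (update v i y)) +
        ∑ j ∈ univ.erase i, f (v i) * (h (v j) * η (update (update v i x) j y)) := by
    intro i
    rw [← add_sum_erase univ _ (mem_univ i)]
    congr 1
    · rw [update_self, update_idem]; ring
    · refine sum_congr rfl fun j hj => ?_
      rw [update_of_ne (ne_of_mem_erase hj)]
  have e2 : ∀ i, ∑ j, h (v i) * (f (update v i y j) * η (update (update v i y) j x)) =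
      f y * (h (v i) * η (update v i x)) +
        ∑ j ∈ univ.erase i, h (v i) * (f (v j) * η (update (update v i y) j x)) := by
    intro i
    rw [← add_sum_erase univ _ (mem_univ i)]
    congr 1
    · rw [update_self, update_idem]; ring
    · refine sum_congr rfl fun j hj => ?_
      rw [update_of_ne (ne_of_mem_erase hj)]
  simp only [e1, e2]
  rw [sum_sub_distrib, sum_add_distrib, sum_add_distrib]
  have e3 : ∑ i, ∑ j ∈ univ.erase i, f (v i) * (h (v j) * η (update (update v i x) j y)) =
      ∑ i, ∑ j ∈ univ.erase i, h (v i) * (f (v j) * η (update (update v i y) j x)) := by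
    have g1 : ∀ (t : Fin l → Fin l → F), ∑ i, ∑ j ∈ univ.erase i, t i j =
        ∑ i, ∑ j, if i = j then 0 else t i j := by
      intro t
      refine sum_congr rfl fun i _ => ?_
      rw [← add_sum_erase univ _ (mem_univ i)]
      simp only [if_true, zero_add]
      refine sum_congr rfl fun j hj => ?_
      rw [if_neg (ne_of_mem_erase hj).symm]
    rw [g1, g1, sum_comm]
    refine sum_congr rfl fun i _ => sum_congr rfl fun j _ => ?_
    by_cases hij : j = i
    · simp [hij]
    · rw [if_neg hij, if_neg (Ne.symm hij), update_comm hij]
      ring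
  rw [e3]
  ring

/-- `N` is stable under the operator `D x f`. -/
def Good (N : Submodule F (V [⋀^Fin l]→ₗ[F] F)) (x : V) (f : Module.Dual F V) : Prop :=
  ∀ η ∈ N, D x f η ∈ N

theorem Good.path {N : Submodule F (V [⋀^Fin l]→ₗ[F] F)} {x y : V} {f h : Module.Dual F V}
    (h1 : Good N x f) (h2 : Good N y h) (h3 : Good N y f) (hy : f y ≠ 0) : Good N x h := by
  intro η hη
  have e := D_comm x y f h η
  have e2 : f y • D x h η = h x • D y f η - (D x f (D y h η) - D y h (D x f η)) := by
    rw [e]; abel
  have e3 : D x h η = (f y)⁻¹ • (f y • D x h η) := by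
    rw [smul_smul, inv_mul_cancel₀ hy, one_smul]
  rw [e3, e2]
  apply N.smul_mem
  apply N.sub_mem
  · exact N.smul_mem _ (h3 η hη)
  · exact N.sub_mem (h1 _ (h2 _ hη)) (h2 _ (h1 _ hη))

theorem Good.add_left {N : Submodule F (V [⋀^Fin l]→ₗ[F] F)} {x y : V} {f : Module.Dual F V}
    (h1 : Good N x f) (h2 : Good N y f) : Good N (x + y) f := by
  intro η hη
  rw [D_add_left]
  exact N.add_mem (h1 η hη) (h2 η hη)

theorem Good.smul_left {N : Submodule F (V [⋀^Fin l]→ₗ[F] F)} {x : V} {f : Module.Dual F V}
    (c : F) (h1 : Good N x f) : Good N (c • x) f := by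
  intro η hη
  rw [D_smul_left]
  exact N.smul_mem _ (h1 η hη)

theorem Good.add_right {N : Submodule F (V [⋀^Fin l]→ₗ[F] F)} {x : V} {f g : Module.Dual F V}
    (h1 : Good N x f) (h2 : Good N x g) : Good N x (f + g) := by
  intro η hη
  rw [D_add_right]
  exact N.add_mem (h1 η hη) (h2 η hη)

theorem Good.smul_right {N : Submodule F (V [⋀^Fin l]→ₗ[F] F)} {x : V} {f : Module.Dual F V}
    (c : F) (h1 : Good N x f) : Good N x (c • f) := by
  intro η hη
  rw [D_smul_right]
  exact N.smul_mem _ (h1 η hη)

theorem Good.zero_left {N : Submodule F (V [⋀^Fin l]→ₗ[F] F)} {f : Module.Dual F V} :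
    Good N 0 f := by
  intro η hη
  have := D_smul_left 0 (0 : V) f η
  simp only [zero_smul] at this
  rw [this]
  exact N.zero_mem

theorem Good.zero_right {N : Submodule F (V [⋀^Fin l]→ₗ[F] F)} {x : V} :
    Good N x 0 := by
  intro η hη
  have := D_smul_right 0 x (0 : Module.Dual F V) η
  simp only [zero_smul] at this
  rw [this]
  exact N.zero_mem

/-- If `N` is stable under all `D x f`, it is stable under all linear maps. -/
theorem all_invariant [FiniteDimensional F V] (N : Submodule F (V [⋀^Fin l]→ₗ[F] F))
    (hN : ∀ x f, Good N x f) (M : Module.End F V) : ∀ η ∈ N, η.compLinearMap M ∈ N := by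
  classical
  let b := Module.finBasis F V
  have h1 : ∀ x f, ∀ η ∈ N, η.compLinearMap (1 + rk1 x f) ∈ N := by
    intro x f η hη
    rw [comp_one_add]
    exact N.add_mem hη (hN x f η hη)
  have hrk : ∀ (i j : Fin (Module.finrank F V)) (c : F),
      Matrix.toLin b b (1 + Matrix.single i j c) = 1 + rk1 (c • b i) (b.coord j) := by
    intro i j c
    rw [map_add, Matrix.toLin_one]
    congr 1
    apply b.ext
    intro k
    rw [Matrix.toLin_self]
    simp only [rk1_apply, Module.Basis.coord_apply, Module.Basis.repr_self]
    rw [sum_eq_single i]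
    · by_cases hjk : j = k
      · subst hjk; simp
      · simp [Matrix.single_apply, hjk, Finsupp.single_apply, Ne.symm hjk]
    · intro m _ hm
      simp [Matrix.single_apply, Ne.symm hm]
    · simp
  have key : ∀ A : Matrix (Fin (Module.finrank F V)) (Fin (Module.finrank F V)) F,
      ∀ η ∈ N, η.compLinearMap (Matrix.toLin b b A) ∈ N := by
    intro A
    have hmul : ∀ A B : Matrix (Fin (Module.finrank F V)) (Fin (Module.finrank F V)) F,
        (∀ η ∈ N, η.compLinearMap (Matrix.toLin b b A) ∈ N) →
        (∀ η ∈ N, η.compLinearMap (Matrix.toLin b b B) ∈ N) →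
        (∀ η ∈ N, η.compLinearMap (Matrix.toLin b b (A * B)) ∈ N) := by
      intro A B hA hB η hη
      rw [Matrix.toLin_mul b b b, ← AlternatingMap.compLinearMap_assoc]
      exact hB _ (hA _ hη)
    apply Matrix.diagonal_transvection_induction
      (fun A => ∀ η ∈ N, η.compLinearMap (Matrix.toLin b b A) ∈ N) A
    · intro d _
      have hs : ∀ s : Finset (Fin (Module.finrank F V)), ∀ η ∈ N,
          η.compLinearMap (Matrix.toLin b b (Matrix.diagonal fun i => if i ∈ s then d i else 1))
            ∈ N := by
        intro s
        induction s using Finset.induction_on with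
        | empty =>
          intro η hη
          simp only [notMem_empty, if_false]
          rw [show (Matrix.diagonal fun _ => (1 : F)) =
            (1 : Matrix (Fin (Module.finrank F V)) (Fin (Module.finrank F V)) F) from
              Matrix.diagonal_one, Matrix.toLin_one]
          exact hη
        | insert j s hj ih =>
          have e : (Matrix.diagonal fun i => if i ∈ insert j s then d i else 1) =
              (Matrix.diagonal fun i => if i ∈ s then d i else 1) *
                (1 + Matrix.single j j (d j - 1)) := by
            ext a c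
            rw [Matrix.diagonal_mul]
            by_cases hac : a = c
            · subst hac
              by_cases haj : a = j
              · subst haj; simp [hj]
              · simp [haj, Matrix.single_apply, Ne.symm haj]
            · by_cases haj : a = j
              · subst haj
                simp [hac, Matrix.single_apply, Matrix.one_apply]
              · simp [hac, Matrix.single_apply, Matrix.one_apply, Ne.symm haj]
          rw [e]
          apply hmul _ _ ih
          intro η hη
          rw [hrk]
          exact h1 _ _ η hη
      have := hs univ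
      simpa using this
    · intro t η hη
      rw [Matrix.TransvectionStruct.toMatrix, Matrix.transvection, hrk]
      exact h1 _ _ η hη
    · exact hmul
  intro η hη
  have := key (LinearMap.toMatrix b b M) η hη
  rwa [Matrix.toLin_toMatrix] at this

end Pool.Agent.Lib.MP_55eb77_al
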