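import Pool.Agent.Lib.MP_55eb77_al.Exist

/-!
Rank one and corank one.
-/

set_option linter.unusedSimpArgs false
set_option linter.unusedSectionVars false

namespace Pool.Agent.Lib.MP_55eb77_al

open Function Finset Module

variable {F : Type*} [Field F] [Finite F] {V : Type*} [AddCommGroup V] [Module F V]
  [FiniteDimensional F V]

/-- Every element of rank `k` is regular in the monoid it generates with `Γ`. -/
def R1k (Γ : Set (End F V)) (k : ℕ) : Prop :=
  ∀ a : End F V, finrank F (LinearMap.range a) = k →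
    ∃ Y ∈ Submonoid.closure (Γ ∪ {a}), a * Y * a = a

/-- Every element of rank `k` generates with `Γ` a regular monoid. -/
def R2k (Γ : Set (End F V)) (k : ℕ) : Prop :=
  ∀ a : End F V, finrank F (LinearMap.range a) = k →
    ∀ b ∈ Submonoid.closure (Γ ∪ {a}), ∃ Y ∈ Submonoid.closure (Γ ∪ {a}), b * Y * b = b

theorem R1k_of_R2k {Γ : Set (End F V)} {k : ℕ} (h : R2k Γ k) : R1k Γ k :=
  fun a ha => h a ha a (Submonoid.subset_closure (Or.inr rfl))

theorem irred_of_R1_one {Γ : Set (End F V)} (h : R1k Γ 1) : Irred Γ := by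
  intro W hW
  by_contra hcon
  push Not at hcon
  obtain ⟨hbot, htop⟩ := hcon
  obtain ⟨w, hw, hw0⟩ := Submodule.exists_mem_ne_zero_of_ne_bot hbot
  obtain ⟨f, hf0, hf⟩ := W.exists_le_ker_of_lt_top (lt_top_iff_ne_top.2 htop)
  have hr : finrank F (LinearMap.range (rk1 w f)) = 1 := by
    have : LinearMap.range (rk1 w f) = Submodule.span F {w} := by
      ext v
      rw [Submodule.mem_span_singleton]
      constructor
      · rintro ⟨u, rfl⟩; exact ⟨f u, rfl⟩
      · rintro ⟨c, rfl⟩
        have : ∃ u, f u ≠ 0 := by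
          by_contra hc
          push Not at hc
          exact hf0 (LinearMap.ext hc)
        obtain ⟨u, hu⟩ := this
        refine ⟨(c * (f u)⁻¹) • u, ?_⟩
        rw [rk1_apply, map_smul, smul_eq_mul, mul_assoc, inv_mul_cancel₀ hu, mul_one]
    rw [this, finrank_span_singleton hw0]
  obtain ⟨Y, hY, hY2⟩ := h _ hr
  have hYW : ∀ v ∈ W, Y v ∈ W := by
    clear hY2
    induction hY using Submonoid.closure_induction with
    | mem y hy =>
      rcases hy with hy | hy
      · exact hW y hy
      · rw [Set.mem_singleton_iff] at hy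
        subst hy
        intro v _
        rw [rk1_apply]
        exact W.smul_mem _ hw
    | one => intro v hv; exact hv
    | mul x y _ _ hx hy => intro v hv; exact hx _ (hy v hv)
  have : ∃ u, f u ≠ 0 := by
    by_contra hc
    push Not at hc
    exact hf0 (LinearMap.ext hc)
  obtain ⟨u, hu⟩ := this
  have h1 := LinearMap.congr_fun hY2 u
  have h2 : rk1 w f (Y (rk1 w f u)) = rk1 w f u := h1
  rw [rk1_apply, rk1_apply, map_smul, map_smul, show f (Y w) = 0 from hf (hYW w hw), smul_zero,
    zero_smul] at h2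
  rcases smul_eq_zero.1 h2.symm with h3 | h3
  · exact hu h3
  · exact hw0 h3

theorem corank1_data {Γ : Set (End F V)} (hΓ : Grp Γ) (hirr : Irred Γ) {a : End F V}
    (ha : finrank F (LinearMap.range a) + 1 = finrank F V) : ∃ p φ, Corank1 Γ a p φ := by
  have h1 := LinearMap.finrank_range_add_finrank_ker a
  have hk : finrank F (LinearMap.ker a) = 1 := by omega
  obtain ⟨⟨p, hpk⟩, hp0, hp⟩ := finrank_eq_one_iff'.1 hk
  have hp0' : p ≠ 0 := by
    intro h0
    exact hp0 (Subtype.ext h0)
  have hlt : LinearMap.range a < ⊤ := by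
    rw [lt_top_iff_ne_top]
    intro h
    rw [h, finrank_top] at ha
    omega
  obtain ⟨φ, hφ0, hφ⟩ := (LinearMap.range a).exists_le_ker_of_lt_top hlt
  have hkφ : finrank F (LinearMap.ker φ) + 1 = finrank F V := by
    have h2 := LinearMap.finrank_range_add_finrank_ker φ
    have h3 : LinearMap.range φ = ⊤ := by
      rw [LinearMap.range_eq_top]
      exact LinearMap.surjective hφ0
    rw [h3, finrank_top, finrank_self] at h2
    omega
  have heq : LinearMap.range a = LinearMap.ker φ :=
    Submodule.eq_of_le_of_finrank_le hφ (by omega)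
  refine ⟨p, φ, hΓ, hirr, hp0', hφ0, ?_, ?_⟩
  · intro v
    constructor
    · intro hv
      obtain ⟨c, hc⟩ := hp ⟨v, hv⟩
      exact ⟨c, (congrArg Subtype.val hc).symm⟩
    · rintro ⟨c, rfl⟩
      rw [map_smul, show a p = 0 from hpk, smul_zero]
  · intro w
    have : φ w = 0 ↔ w ∈ LinearMap.ker φ := Iff.rfl
    rw [this, ← heq]
    rfl

theorem R1_corank_of_irred {Γ : Set (End F V)} (hΓ : Grp Γ) (hirr : Irred Γ) {a : End F V}
    (ha : finrank F (LinearMap.range a) + 1 = finrank F V) :
    ∃ Y ∈ Submonoid.closure (Γ ∪ {a}), a * Y * a = a := by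
  obtain ⟨p, φ, D⟩ := corank1_data hΓ hirr ha
  have hex : ∃ g ∈ Γ, φ (g p) ≠ 0 := by
    by_contra hcon
    push Not at hcon
    exact D.p0 (eq_zero_of_dual hΓ hirr D.φ0 hcon)
  obtain ⟨g, hg, hgp⟩ := hex
  obtain ⟨g', hg', e1, e2⟩ := hΓ.inv g hg
  have haS : a ∈ Submonoid.closure (Γ ∪ {a}) := Submonoid.subset_closure (Or.inr rfl)
  apply regular_of_rank _ a g' haS (Submonoid.subset_closure (Or.inl hg'))
  have hker : LinearMap.ker (a * g' * a) ≤ LinearMap.ker a := by
    intro v hv
    have h1 : a (g' (a v)) = 0 := hv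
    obtain ⟨c, hc⟩ := (D.ker _).1 h1
    have h2 : a v = c • g p := by
      have h3 : g (g' (a v)) = a v := by
        have := LinearMap.congr_fun e1 (a v); simpa using this
      rw [← h3, hc, map_smul]
    have h4 : φ (a v) = 0 := (D.range _).2 ⟨v, rfl⟩
    rw [h2, map_smul, smul_eq_mul] at h4
    have h5 : c = 0 := (mul_eq_zero.1 h4).resolve_right hgp
    show a v = 0
    rw [h2, h5, zero_smul]
  have h1 := LinearMap.finrank_range_add_finrank_ker a
  have h2 := LinearMap.finrank_range_add_finrank_ker (a * g' * a)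
  have h3 := Submodule.finrank_mono hker
  omega

theorem irred_of_R1_corank {Γ : Set (End F V)}
    (h : ∀ a : End F V, finrank F (LinearMap.range a) + 1 = finrank F V →
      ∃ Y ∈ Submonoid.closure (Γ ∪ {a}), a * Y * a = a) (hΓ : Grp Γ) : Irred Γ := by
  intro W hW
  by_contra hcon
  push Not at hcon
  obtain ⟨hbot, htop⟩ := hcon
  obtain ⟨p, hp, hp0⟩ := Submodule.exists_mem_ne_zero_of_ne_bot hbot
  obtain ⟨φ0, hφ0, hφW0⟩ := W.exists_le_ker_of_lt_top (lt_top_iff_ne_top.2 htop)
  have : ∃ q0, φ0 q0 ≠ 0 := by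
    by_contra hc
    push Not at hc
    exact hφ0 (LinearMap.ext hc)
  obtain ⟨q, hq0⟩ := this
  obtain ⟨φ, hφW, hq⟩ : ∃ φ : Dual F V, (∀ w ∈ W, φ w = 0) ∧ φ q = 1 := by
    refine ⟨(φ0 q)⁻¹ • φ0, fun w hw => ?_, ?_⟩
    · rw [LinearMap.smul_apply, show φ0 w = 0 from hφW0 hw, smul_zero]
    · rw [LinearMap.smul_apply, smul_eq_mul, inv_mul_cancel₀ hq0]
  have hφp : φ p = 0 := hφW p hp
  -- a functional with `ps p = 1`, `ps q = 0`
  obtain ⟨ps, hpsp, hpsq⟩ : ∃ ps : Dual F V, ps p = 1 ∧ ps q = 0 := by
    have hnot : p ∉ Submodule.span F {q} := by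
      intro hmem
      obtain ⟨c, hc⟩ := Submodule.mem_span_singleton.1 hmem
      have h1 := congrArg φ hc
      rw [map_smul, hq, hφp, smul_eq_mul, mul_one] at h1
      rw [h1, zero_smul] at hc
      exact hp0 hc.symm
    obtain ⟨f, hf1, hf2⟩ := Submodule.exists_le_ker_of_notMem hnot
    refine ⟨(f p)⁻¹ • f, ?_, ?_⟩
    · rw [LinearMap.smul_apply, smul_eq_mul, inv_mul_cancel₀ hf1]
    · rw [LinearMap.smul_apply, show f q = 0 from hf2 (Submodule.mem_span_singleton_self q),
        smul_zero]
  let a : End F V := 1 - rk1 p ps - rk1 q φ + rk1 p φ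
  have ha : ∀ v, a v = v - ps v • p - φ v • q + φ v • p := fun v => rfl
  have hap : a p = 0 := by
    rw [ha, hpsp, hφp]; simp
  have hkera : ∀ v, a v = 0 → ∃ c : F, c • p = v := by
    intro v hv
    rw [ha] at hv
    have h1 := congrArg ps hv
    rw [map_add, map_sub, map_sub, map_smul, map_smul, map_smul, hpsp, hpsq, map_zero] at h1
    simp only [smul_eq_mul, mul_one, mul_zero, sub_self, sub_zero, zero_add] at h1
    rw [h1, zero_smul, zero_smul, sub_zero, add_zero, sub_eq_zero] at hv
    exact ⟨ps v, hv.symm⟩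
  have hrangea : ∀ w, φ w = 0 → ∃ v, a v = w := by
    intro w hw
    refine ⟨w + ps w • q, ?_⟩
    rw [ha, map_add, map_add, map_smul, map_smul, hq, hpsq, hw]
    simp
    abel
  have hker : LinearMap.ker a = Submodule.span F {p} := by
    ext v
    rw [Submodule.mem_span_singleton]
    constructor
    · exact hkera v
    · rintro ⟨c, rfl⟩
      show a (c • p) = 0
      rw [map_smul, hap, smul_zero]
  have hfr : finrank F (LinearMap.range a) + 1 = finrank F V := by
    rw [← LinearMap.finrank_range_add_finrank_ker a, hker, finrank_span_singleton hp0]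
  obtain ⟨Y, hY, hY2⟩ := h a hfr
  have key : ∀ Y ∈ Submonoid.closure (Γ ∪ {a}), LinearMap.ker (Y * a) = LinearMap.ker a →
      ∀ w ∈ W, ∃ v, Y (a v) = w := by
    intro Y hY
    induction hY using Submonoid.closure_induction_left with
    | one =>
      intro _ w hw
      exact hrangea w (hφW w hw)
    | mul_left y hy Y _ ih =>
      intro hk w hw
      have hk1 := ker_mul_eq hk
      have ih' := ih hk1
      rcases hy with hy | hy
      · obtain ⟨y', hy', e1, _⟩ := hΓ.inv y hy
        obtain ⟨v, hv⟩ := ih' (y' w) (hW y' hy' w hw)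
        refine ⟨v, ?_⟩
        show y (Y (a v)) = w
        rw [hv]
        have := LinearMap.congr_fun e1 w; simpa using this
      · exfalso
        rw [Set.mem_singleton_iff] at hy
        subst hy
        obtain ⟨v, hv⟩ := ih' p hp
        have h1 : v ∈ LinearMap.ker (a * Y * a) := by
          show a (Y (a v)) = 0
          rw [hv, hap]
        rw [hk, ← hk1] at h1
        have h2 : Y (a v) = 0 := h1
        rw [hv] at h2
        exact hp0 h2
  obtain ⟨v, hv⟩ := key Y hY (ker_eq_of_reg hY2) p hp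
  have h1 := LinearMap.congr_fun hY2 v
  have h2 : a (Y (a v)) = a v := h1
  rw [hv, hap] at h2
  rw [← h2, map_zero] at hv
  exact hp0 hv.symm

theorem R2_one_of_irred {Γ : Set (End F V)} (hΓ : Grp Γ) (hirr : Irred Γ) : R2k Γ 1 := by
  intro a ha b hb
  have hdich : b ∈ Γ ∨ finrank F (LinearMap.range b) ≤ 1 := by
    induction hb using Submonoid.closure_induction with
    | mem y hy =>
      rcases hy with hy | hy
      · exact Or.inl hy
      · rw [Set.mem_singleton_iff] at hy
        subst hy
        exact Or.inr ha.le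
    | one => exact Or.inl hΓ.one
    | mul x y _ _ hx hy =>
      rcases hx with hx | hx
      · rcases hy with hy | hy
        · exact Or.inl (hΓ.mul x hx y hy)
        · right
          have : LinearMap.range (x * y) = (LinearMap.range y).map x := LinearMap.range_comp y x
          rw [this]
          exact (Submodule.finrank_map_le x _).trans hy
      · right
        have : LinearMap.range (x * y) ≤ LinearMap.range x := LinearMap.range_comp_le_range y x
        exact (Submodule.finrank_mono this).trans hx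
  rcases hdich with hbΓ | hb1
  · obtain ⟨b', hb', e1, _⟩ := hΓ.inv b hbΓ
    exact ⟨b', Submonoid.subset_closure (Or.inl hb'), by rw [e1, one_mul]⟩
  · by_cases hb0 : b = 0
    · exact ⟨1, Submonoid.one_mem _, by rw [hb0]; simp⟩
    · have hex : ∃ v, b v ≠ 0 := by
        by_contra hc
        push Not at hc
        exact hb0 (LinearMap.ext hc)
      obtain ⟨v, hv⟩ := hex
      have hg : ∃ g ∈ Γ, b (g (b v)) ≠ 0 := by
        by_contra hcon
        push Not at hcon
        have h1 : Submodule.span F {x | ∃ g ∈ Γ, x = g (b v)} ≤ LinearMap.ker b := by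
          apply Submodule.span_le.2
          rintro _ ⟨g, hg, rfl⟩
          exact hcon g hg
        rw [span_orbit hΓ hirr hv, top_le_iff, LinearMap.ker_eq_top] at h1
        exact hb0 h1
      obtain ⟨g, hg, hne⟩ := hg
      apply regular_of_rank _ b g hb (Submonoid.subset_closure (Or.inl hg))
      refine hb1.trans ?_
      rw [Nat.one_le_iff_ne_zero]
      intro h0
      rw [Submodule.finrank_eq_zero] at h0
      apply hne
      have : b (g (b v)) ∈ LinearMap.range (b * g * b) := ⟨v, rfl⟩
      rw [h0] at this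
      exact (Submodule.mem_bot F).1 this

/-- The abstract form of the main theorem. -/
theorem main_abstract {Γ : Set (End F V)} (hΓ : Grp Γ) (hn : 2 ≤ finrank F V) :
    (R1k Γ 1 ↔ Irred Γ) ∧ (R2k Γ 1 ↔ Irred Γ) ∧ (R1k Γ (finrank F V - 1) ↔ Irred Γ) ∧
      (R2k Γ (finrank F V - 1) ↔ Irred Γ ∧ SysOK Γ) := by
  have hcor : ∀ a : End F V, finrank F (LinearMap.range a) = finrank F V - 1 ↔
      finrank F (LinearMap.range a) + 1 = finrank F V := by
    intro a; omega
  refine ⟨⟨irred_of_R1_one, fun h => R1k_of_R2k (R2_one_of_irred hΓ h)⟩,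
    ⟨fun h => irred_of_R1_one (R1k_of_R2k h), fun h => R2_one_of_irred hΓ h⟩,
    ⟨fun h => irred_of_R1_corank (fun a ha => h a ((hcor a).2 ha)) hΓ,
      fun h a ha => R1_corank_of_irred hΓ h ((hcor a).1 ha)⟩, ?_, ?_⟩
  · intro h
    have hirr : Irred Γ := irred_of_R1_corank (fun a ha => R1k_of_R2k h a ((hcor a).2 ha)) hΓ
    exact ⟨hirr, sysOK_of_R2c hΓ hirr (fun a ha => h a ((hcor a).2 ha))⟩
  · rintro ⟨hirr, hsys⟩ a ha b hb
    obtain ⟨p, φ, D⟩ := corank1_data hΓ hirr ((hcor a).1 ha)
    exact D.regular hsys b hb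

end Pool.Agent.Lib.MP_55eb77_al
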