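import Pool.Agent.Lib.MP_55eb77_al.Defs
import Pool.Agent.Lib.MP_55eb77_al.Small

/-!
From linear maps to matrices.
-/

set_option linter.unusedSimpArgs false
set_option linter.unusedSectionVars false

namespace Pool.Agent.Lib.MP_55eb77_al

open Matrix Module

variable {F : Type*} [Field F] {n : ℕ}

/-- The linear maps of the elements of `G`. -/
def Gam (G : Subgroup (GL (Fin n) F)) : Set (End F (Fin n → F)) :=
  {x | ∃ g ∈ G, toLin' (g : Matrix (Fin n) (Fin n) F) = x}

theorem toLin'_one' : toLin' (1 : Matrix (Fin n) (Fin n) F) = (1 : End F (Fin n → F)) :=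
  toLin'_one

theorem toLin'_mul' (x y : Matrix (Fin n) (Fin n) F) :
    toLin' (x * y) = (toLin' x : End F (Fin n → F)) * toLin' y := toLin'_mul x y

theorem grp_Gam (G : Subgroup (GL (Fin n) F)) : Grp (Gam G) where
  one := ⟨1, G.one_mem, by simpa using toLin'_one'⟩
  mul := by
    rintro _ ⟨g, hg, rfl⟩ _ ⟨h, hh, rfl⟩
    exact ⟨g * h, G.mul_mem hg hh, by rw [Units.val_mul, toLin'_mul']⟩
  inv := by
    rintro _ ⟨g, hg, rfl⟩
    refine ⟨_, ⟨g⁻¹, G.inv_mem hg, rfl⟩, ?_, ?_⟩
    · rw [← toLin'_mul', ← Units.val_mul, mul_inv_cancel, Units.val_one, toLin'_one']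
    · rw [← toLin'_mul', ← Units.val_mul, inv_mul_cancel, Units.val_one, toLin'_one']

theorem mem_gen (G : Subgroup (GL (Fin n) F)) (a x : Matrix (Fin n) (Fin n) F) :
    x ∈ gen G a ↔ (toLin' x : End F (Fin n → F)) ∈ Submonoid.closure (Gam G ∪ {toLin' a}) := by
  constructor
  · intro hx
    induction hx using Subsemigroup.closure_induction with
    | mem x hx =>
      rcases hx with ⟨g, hg, rfl⟩ | hx
      · exact Submonoid.subset_closure (Or.inl ⟨g, hg, rfl⟩)
      · rw [Set.mem_singleton_iff] at hx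
        subst hx
        exact Submonoid.subset_closure (Or.inr rfl)
    | mul x y _ _ hx hy =>
      rw [toLin'_mul']
      exact Submonoid.mul_mem _ hx hy
  · intro hx
    have key : ∀ y ∈ Submonoid.closure (Gam G ∪ {toLin' a}),
        LinearMap.toMatrix' y ∈ gen G a := by
      intro y hy
      induction hy using Submonoid.closure_induction with
      | mem y hy =>
        rcases hy with ⟨g, hg, rfl⟩ | hy
        · rw [LinearMap.toMatrix'_toLin']
          exact Subsemigroup.subset_closure (Or.inl ⟨g, hg, rfl⟩)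
        · rw [Set.mem_singleton_iff] at hy
          subst hy
          rw [LinearMap.toMatrix'_toLin']
          exact Subsemigroup.subset_closure (Or.inr rfl)
      | one =>
        rw [← toLin'_one', LinearMap.toMatrix'_toLin']
        exact Subsemigroup.subset_closure (Or.inl ⟨1, G.one_mem, rfl⟩)
      | mul x y _ _ hx hy =>
        rw [LinearMap.toMatrix'_mul]
        exact (gen G a).mul_mem hx hy
    have := key _ hx
    rwa [LinearMap.toMatrix'_toLin'] at this

theorem rank_eq (a : Matrix (Fin n) (Fin n) F) :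
    a.rank = finrank F (LinearMap.range (toLin' a : End F (Fin n → F))) := rfl

theorem reg_iff (G : Subgroup (GL (Fin n) F)) (a x : Matrix (Fin n) (Fin n) F) :
    (∃ y ∈ gen G a, x * y * x = x) ↔
      ∃ Y ∈ Submonoid.closure (Gam G ∪ {toLin' a}),
        (toLin' x : End F (Fin n → F)) * Y * toLin' x = toLin' x := by
  constructor
  · rintro ⟨y, hy, h⟩
    refine ⟨toLin' y, (mem_gen G a y).1 hy, ?_⟩
    rw [← toLin'_mul', ← toLin'_mul', h]
  · rintro ⟨Y, hY, h⟩
    refine ⟨LinearMap.toMatrix' Y, ?_, ?_⟩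
    · rw [mem_gen, Matrix.toLin'_toMatrix']
      exact hY
    · apply toLin'.injective
      rw [toLin'_mul', toLin'_mul', Matrix.toLin'_toMatrix']
      exact h

theorem R1_iff (G : Subgroup (GL (Fin n) F)) (k : ℕ) : R1 G k ↔ R1k (Gam G) k := by
  constructor
  · intro h a ha
    have h1 := h (LinearMap.toMatrix' a) (by rw [rank_eq, Matrix.toLin'_toMatrix']; exact ha)
    rw [reg_iff, Matrix.toLin'_toMatrix'] at h1
    exact h1
  · intro h a ha
    rw [reg_iff]
    exact h _ (by rw [← rank_eq]; exact ha)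

theorem R2_iff (G : Subgroup (GL (Fin n) F)) (k : ℕ) : R2 G k ↔ R2k (Gam G) k := by
  constructor
  · intro h a ha b hb
    have h1 := h (LinearMap.toMatrix' a) (by rw [rank_eq, Matrix.toLin'_toMatrix']; exact ha)
      (LinearMap.toMatrix' b) (by rw [mem_gen, Matrix.toLin'_toMatrix',
        Matrix.toLin'_toMatrix']; exact hb)
    rw [reg_iff, Matrix.toLin'_toMatrix', Matrix.toLin'_toMatrix'] at h1
    exact h1
  · intro h a ha x hx
    rw [reg_iff]
    exact h _ (by rw [← rank_eq]; exact ha) _ ((mem_gen G a x).1 hx)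

theorem irred_iff (G : Subgroup (GL (Fin n) F)) : IsIrred G ↔ Irred (Gam G) := by
  constructor
  · intro h W hW
    apply h W
    intro g hg w hw
    exact hW _ ⟨g, hg, rfl⟩ w hw
  · intro h W hW
    apply h W
    rintro _ ⟨g, hg, rfl⟩ w hw
    exact hW g hg w hw

theorem sysOK_iff (G : Subgroup (GL (Fin n) F)) :
    (∀ (r : ℕ) (W : Fin r → Submodule F (Fin n → F)), IsSystem G W →
      (∀ i, finrank F (W i) = 1) ∧ IsTwoHomogeneous G W) ↔ SysOK (Gam G) := by
  constructor
  · intro h r W hr hW hind hsup hperm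
    obtain ⟨h1, h2⟩ := h r W ⟨hr, hW, hind, hsup, fun g hg i => hperm _ ⟨g, hg, rfl⟩ i⟩
    refine ⟨h1, fun i j i' j' hij hij' => ?_⟩
    obtain ⟨g, hg, h3⟩ := h2 i j i' j' hij hij'
    exact ⟨_, ⟨g, hg, rfl⟩, h3⟩
  · rintro h r W ⟨hr, hW, hind, hsup, hperm⟩
    obtain ⟨h1, h2⟩ := h r W hr hW hind hsup (by
      rintro _ ⟨g, hg, rfl⟩ i
      exact hperm g hg i)
    refine ⟨h1, fun i j i' j' hij hij' => ?_⟩
    obtain ⟨_, ⟨g, hg, rfl⟩, h3⟩ := h2 i j i' j' hij hij'
    exact ⟨g, hg, h3⟩

end Pool.Agent.Lib.MP_55eb77_al
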