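import Pool.Agent.Lib.MP_55eb77_al.Reg

/-!
Centres and axes: the graph of pairs (centre, axis), and the decomposition it defines.
-/

set_option linter.unusedSimpArgs false
set_option linter.unusedSectionVars false

namespace Pool.Agent.Lib.MP_55eb77_al

open Function Finset Module

variable {F : Type*} [Field F] [Finite F] {V : Type*} [AddCommGroup V] [Module F V]
  [FiniteDimensional F V]

/-- `Γ` is a group of invertible linear maps. -/
structure Grp (Γ : Set (End F V)) : Prop where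
  one : (1 : End F V) ∈ Γ
  mul : ∀ g ∈ Γ, ∀ h ∈ Γ, g * h ∈ Γ
  inv : ∀ g ∈ Γ, ∃ h ∈ Γ, g * h = 1 ∧ h * g = 1

/-- No proper nonzero invariant subspace. -/
def Irred (Γ : Set (End F V)) : Prop :=
  ∀ W : Submodule F V, (∀ g ∈ Γ, ∀ w ∈ W, g w ∈ W) → W = ⊥ ∨ W = ⊤

theorem span_orbit {Γ : Set (End F V)} (hΓ : Grp Γ) (hirr : Irred Γ) {p : V} (hp : p ≠ 0) :
    Submodule.span F {x | ∃ g ∈ Γ, x = g p} = ⊤ := by
  rcases hirr (Submodule.span F {x | ∃ g ∈ Γ, x = g p}) (by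
    intro g hg w hw
    induction hw using Submodule.span_induction with
    | mem x hx =>
      obtain ⟨h, hh, rfl⟩ := hx
      exact Submodule.subset_span ⟨g * h, hΓ.mul g hg h hh, rfl⟩
    | zero => simp
    | add x y _ _ hx hy => rw [map_add]; exact Submodule.add_mem _ hx hy
    | smul c x _ hx => rw [map_smul]; exact Submodule.smul_mem _ c hx) with h | h
  · exfalso
    have : p ∈ Submodule.span F {x | ∃ g ∈ Γ, x = g p} :=
      Submodule.subset_span ⟨1, hΓ.one, rfl⟩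
    rw [h] at this
    exact hp ((Submodule.mem_bot F).1 this)
  · exact h

theorem eq_zero_of_dual {Γ : Set (End F V)} (hΓ : Grp Γ) (hirr : Irred Γ) {φ : Dual F V}
    (hφ : φ ≠ 0) {v : V} (hv : ∀ g ∈ Γ, φ (g v) = 0) : v = 0 := by
  let W : Submodule F V :=
    { carrier := {w | ∀ g ∈ Γ, φ (g w) = 0}
      add_mem' := by
        intro a b ha hb g hg
        rw [map_add, map_add, ha g hg, hb g hg, add_zero]
      zero_mem' := by
        intro g _
        simp
      smul_mem' := by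
        intro c a ha g hg
        rw [map_smul, map_smul, ha g hg, smul_zero] }
  rcases hirr W (by
    intro g hg w hw h hh
    exact hw (h * g) (hΓ.mul h hh g hg)) with h | h
  · have : v ∈ W := hv
    rw [h] at this
    exact (Submodule.mem_bot F).1 this
  · exfalso
    apply hφ
    ext w
    have : w ∈ W := by rw [h]; trivial
    simpa using this 1 hΓ.one

theorem span_dual {Γ : Set (End F V)} (hΓ : Grp Γ) (hirr : Irred Γ) {φ : Dual F V}
    (hφ : φ ≠ 0) : Submodule.span F {f : Dual F V | ∃ g ∈ Γ, f = φ.comp g} = ⊤ := by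
  have h1 : (Submodule.span F {f : Dual F V | ∃ g ∈ Γ, f = φ.comp g}).dualCoannihilator = ⊥ := by
    rw [eq_bot_iff]
    intro v hv
    rw [Submodule.mem_dualCoannihilator] at hv
    rw [Submodule.mem_bot]
    apply eq_zero_of_dual hΓ hirr hφ
    intro g hg
    exact hv _ (Submodule.subset_span ⟨g, hg, rfl⟩)
  have h2 := Subspace.dualCoannihilator_dualAnnihilator_eq
    (W := Submodule.span F {f : Dual F V | ∃ g ∈ Γ, f = φ.comp g})
  rw [← h2, h1]
  simp

/-- The data of an element of corank one. -/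
structure Corank1 (Γ : Set (End F V)) (a : End F V) (p : V) (φ : Dual F V) : Prop where
  grp : Grp Γ
  irr : Irred Γ
  p0 : p ≠ 0
  φ0 : φ ≠ 0
  ker : ∀ v, a v = 0 ↔ ∃ c : F, v = c • p
  range : ∀ w, φ w = 0 ↔ ∃ v, a v = w

/-- An element with kernel `⟨x⟩` and range `ker f`, where `f x ≠ 0`, has a positive power equal to
the projection to `ker f` along `x`. -/
theorem pow_eq_proj (s : End F V) (x : V) (f : Dual F V) (hx : s x = 0)
    (hr1 : ∀ v, f (s v) = 0) (hr2 : ∀ w, f w = 0 → ∃ v, s v = w) (hfx : f x ≠ 0) :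
    ∃ t : ℕ, s ^ (t + 1) = 1 + rk1 (-(f x)⁻¹ • x) f := by
  obtain ⟨t, ht⟩ := exists_pow_eq s (LinearMap.ker f) (by
    intro u _
    exact hr1 u) (by
    intro u hu
    obtain ⟨v, hv⟩ := hr2 u hu
    refine ⟨v - (f v * (f x)⁻¹) • x, ?_, ?_⟩
    · show f _ = 0
      rw [map_sub, map_smul, smul_eq_mul]
      field_simp
      ring
    · rw [map_sub, map_smul, hx, smul_zero, sub_zero, hv])
  refine ⟨t, ?_⟩
  ext v
  have e : v = (v - (f v * (f x)⁻¹) • x) + (f v * (f x)⁻¹) • x := by abel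
  have h1 : v - (f v * (f x)⁻¹) • x ∈ LinearMap.ker f := by
    show f _ = 0
    rw [map_sub, map_smul, smul_eq_mul]
    field_simp
    ring
  have h2 : (s ^ (t + 1)) x = 0 := by
    rw [pow_succ]
    show (s ^ t) (s x) = 0
    rw [hx, map_zero]
  have h3 : (s ^ (t + 1)) v = v - (f v * (f x)⁻¹) • x := by
    conv_lhs => rw [e]
    rw [map_add, ht _ h1, map_smul, h2, smul_zero, add_zero]
  rw [h3]
  show _ = v + f v • (-(f x)⁻¹ • x)
  rw [smul_smul, mul_neg, neg_smul, sub_eq_add_neg]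

variable {Γ : Set (End F V)} {a : End F V} {p : V} {φ : Dual F V}

/-- The element `g₂⁻¹ a g₁⁻¹` with kernel `⟨g₁ p⟩` and range `ker (φ ∘ g₂)`. -/
theorem Corank1.elem (h : Corank1 Γ a p φ) {g₁ g₂ : End F V} (hg₁ : g₁ ∈ Γ) (hg₂ : g₂ ∈ Γ) :
    ∃ h₁ ∈ Γ, ∃ h₂ ∈ Γ, a = g₂ * (h₂ * a * h₁) * g₁ ∧
      (∀ v, (h₂ * a * h₁) v = 0 ↔ ∃ c : F, v = c • g₁ p) ∧
      (∀ w, φ (g₂ w) = 0 ↔ ∃ v, (h₂ * a * h₁) v = w) := by
  obtain ⟨h₁, hh₁, e1, e1'⟩ := h.grp.inv g₁ hg₁
  obtain ⟨h₂, hh₂, e2, e2'⟩ := h.grp.inv g₂ hg₂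
  have c1 : ∀ v, g₁ (h₁ v) = v := fun v => by
    have := LinearMap.congr_fun e1 v; simpa using this
  have c1' : ∀ v, h₁ (g₁ v) = v := fun v => by
    have := LinearMap.congr_fun e1' v; simpa using this
  have c2 : ∀ v, g₂ (h₂ v) = v := fun v => by
    have := LinearMap.congr_fun e2 v; simpa using this
  have c2' : ∀ v, h₂ (g₂ v) = v := fun v => by
    have := LinearMap.congr_fun e2' v; simpa using this
  refine ⟨h₁, hh₁, h₂, hh₂, ?_, ?_, ?_⟩
  · have : g₂ * (h₂ * a * h₁) * g₁ = (g₂ * h₂) * a * (h₁ * g₁) := by simp only [mul_assoc]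
    rw [this, e2, e1', one_mul, mul_one]
  · intro v
    constructor
    · intro hv
      have hv' : h₂ (a (h₁ v)) = 0 := hv
      have h3 : a (h₁ v) = 0 := by
        have := congrArg g₂ hv'
        rwa [c2, map_zero] at this
      obtain ⟨c, hc⟩ := (h.ker _).1 h3
      refine ⟨c, ?_⟩
      rw [← c1 v, hc, map_smul]
    · rintro ⟨c, rfl⟩
      show h₂ (a (h₁ (c • g₁ p))) = 0
      rw [map_smul, c1', (h.ker _).2 ⟨c, rfl⟩, map_zero]
  · intro w
    constructor
    · intro hw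
      obtain ⟨v, hv⟩ := (h.range _).1 hw
      refine ⟨g₁ v, ?_⟩
      show h₂ (a (h₁ (g₁ v))) = w
      rw [c1', hv, c2']
    · rintro ⟨v, rfl⟩
      show φ (g₂ (h₂ (a (h₁ v)))) = 0
      rw [c2]
      exact (h.range _).2 ⟨_, rfl⟩

theorem Corank1.proj_mem (h : Corank1 Γ a p φ) {S : Submonoid (End F V)} (hS : Γ ⊆ S)
    (ha : a ∈ S) {g₁ g₂ : End F V} (hg₁ : g₁ ∈ Γ) (hg₂ : g₂ ∈ Γ) (hne : φ (g₂ (g₁ p)) ≠ 0) :
    1 + rk1 (-(φ (g₂ (g₁ p)))⁻¹ • g₁ p) (φ.comp g₂) ∈ S := by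
  obtain ⟨h₁, hh₁, h₂, hh₂, _, hk, hr⟩ := h.elem hg₁ hg₂
  obtain ⟨t, ht⟩ := pow_eq_proj (h₂ * a * h₁) (g₁ p) (φ.comp g₂) ((hk _).2 ⟨1, by simp⟩)
    (fun v => (hr _).2 ⟨v, rfl⟩) (fun w hw => (hr w).1 hw) hne
  have : (1 + rk1 (-(φ (g₂ (g₁ p)))⁻¹ • g₁ p) (φ.comp g₂)) = (h₂ * a * h₁) ^ (t + 1) := ht.symm
  rw [this]
  exact S.pow_mem (S.mul_mem (S.mul_mem (hS hh₂) ha) (hS hh₁)) _

theorem good_of_proj {l : ℕ} {S : Submonoid (End F V)} {N : Submodule F (V [⋀^Fin l]→ₗ[F] F)}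
    (hN : ∀ s ∈ S, ∀ η ∈ N, η.compLinearMap s ∈ N) {x : V} {f : Dual F V} {c : F} (hc : c ≠ 0)
    (hmem : 1 + rk1 (c • x) f ∈ S) : Good N x f := by
  intro η hη
  have h1 := hN _ hmem η hη
  rw [comp_one_add, D_smul_left] at h1
  have h2 : c • D x f η ∈ N := by
    have := N.sub_mem h1 hη
    simpa using this
  have h3 := N.smul_mem c⁻¹ h2
  rwa [smul_smul, inv_mul_cancel₀ hc, one_smul] at h3

/-- The orbit of the centre. -/
def PP (Γ : Set (End F V)) (p : V) : Set V := {x | ∃ g ∈ Γ, x = g p}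

/-- The orbit of the axis. -/
def FF (Γ : Set (End F V)) (φ : Dual F V) : Set (Dual F V) := {f | ∃ g ∈ Γ, f = φ.comp g}

/-- One step in the graph. -/
def Step (Γ : Set (End F V)) (p : V) (φ : Dual F V) (x y : V) : Prop :=
  x ∈ PP Γ p ∧ y ∈ PP Γ p ∧ ∃ f ∈ FF Γ φ, f x ≠ 0 ∧ f y ≠ 0

/-- Connectedness in the graph. -/
def Conn (Γ : Set (End F V)) (p : V) (φ : Dual F V) : V → V → Prop :=
  Relation.ReflTransGen (Step Γ p φ)

theorem Conn.symm' {x y : V} (h : Conn Γ p φ x y) : Conn Γ p φ y x := by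
  have hs : ∀ x y, Step Γ p φ x y → Step Γ p φ y x := by
    rintro x y ⟨h1, h2, f, hf, h3, h4⟩
    exact ⟨h2, h1, f, hf, h4, h3⟩
  induction h with
  | refl => exact Relation.ReflTransGen.refl
  | tail _ hstep ih => exact Relation.ReflTransGen.head (hs _ _ hstep) ih

theorem Corank1.edge (h : Corank1 Γ a p φ) {l : ℕ} {S : Submonoid (End F V)} (hS : Γ ⊆ S)
    (ha : a ∈ S) {N : Submodule F (V [⋀^Fin l]→ₗ[F] F)}
    (hN : ∀ s ∈ S, ∀ η ∈ N, η.compLinearMap s ∈ N) {x : V} {f : Dual F V} (hx : x ∈ PP Γ p)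
    (hf : f ∈ FF Γ φ) (hne : f x ≠ 0) : Good N x f := by
  obtain ⟨g₁, hg₁, rfl⟩ := hx
  obtain ⟨g₂, hg₂, rfl⟩ := hf
  have hne' : φ (g₂ (g₁ p)) ≠ 0 := hne
  exact good_of_proj hN (neg_ne_zero.2 (inv_ne_zero hne')) (h.proj_mem hS ha hg₁ hg₂ hne')

theorem Corank1.good_of_conn (h : Corank1 Γ a p φ) {l : ℕ} {S : Submonoid (End F V)} (hS : Γ ⊆ S)
    (ha : a ∈ S) {N : Submodule F (V [⋀^Fin l]→ₗ[F] F)}
    (hN : ∀ s ∈ S, ∀ η ∈ N, η.compLinearMap s ∈ N) {x y : V} {f : Dual F V} (hx : x ∈ PP Γ p)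
    (hf : f ∈ FF Γ φ) (hc : Conn Γ p φ x y) (hy : y ∈ PP Γ p) (hne : f y ≠ 0) :
    Good N x f := by
  induction hc using Relation.ReflTransGen.head_induction_on with
  | refl => exact h.edge hS ha hN hy hf hne
  | head hstep _ ih =>
    obtain ⟨h1, h2, f', hf', h3, h4⟩ := hstep
    exact Good.path (h.edge hS ha hN h1 hf' h3) (ih h2) (h.edge hS ha hN h2 hf' h4) h4

omit [Finite F] in
theorem exists_map {l : ℕ} (u v : Fin l → V) (hu : LinearIndependent F u) :
    ∃ M : End F V, ∀ i, M (u i) = v i := by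
  classical
  have hker : LinearMap.ker (Fintype.linearCombination F u) = ⊥ := by
    rw [LinearMap.ker_eq_bot]
    exact hu.fintypeLinearCombination_injective
  obtain ⟨ψ, hψ⟩ := LinearMap.exists_leftInverse_of_injective _ hker
  refine ⟨(Fintype.linearCombination F v).comp ψ, fun i => ?_⟩
  have h2 : ψ (u i) = Pi.single i 1 := by
    have := LinearMap.congr_fun hψ (Pi.single i 1)
    simpa [Fintype.linearCombination_apply_single] using this
  rw [LinearMap.comp_apply, h2]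
  simp [Fintype.linearCombination_apply_single]

/-- If the graph is connected, every element of `S` is regular. -/
theorem Corank1.regular_of_connected (h : Corank1 Γ a p φ) {S : Submonoid (End F V)}
    (hS : Γ ⊆ S) (ha : a ∈ S) (hconn : ∀ x ∈ PP Γ p, ∀ y ∈ PP Γ p, Conn Γ p φ x y)
    (b : End F V) (hb : b ∈ S) : ∃ Y ∈ S, b * Y * b = b := by
  by_contra hnon
  push Not at hnon
  obtain ⟨l, u, v, hu, hv, hκ⟩ := of_nonregular S b hb hnon
  have hN : ∀ s ∈ S, ∀ η ∈ NN (l := l) S u, η.compLinearMap s ∈ NN S u :=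
    fun s hs η hη => comp_mem_NN hη hs
  have hP : ∀ f : Dual F V, f ≠ 0 → ∃ y ∈ PP Γ p, f y ≠ 0 := by
    intro f hf
    by_contra hcon
    push Not at hcon
    apply hf
    have : Submodule.span F {x | ∃ g ∈ Γ, x = g p} ≤ LinearMap.ker f :=
      Submodule.span_le.2 fun x hx => hcon x hx
    rw [span_orbit h.grp h.irr h.p0, top_le_iff] at this
    exact LinearMap.ker_eq_top.1 this
  have hF0 : ∀ f ∈ FF Γ φ, f ≠ 0 := by
    rintro _ ⟨g, hg, rfl⟩ h0
    apply h.φ0
    obtain ⟨g', _, e, _⟩ := h.grp.inv g hg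
    ext w
    have h1 := LinearMap.congr_fun h0 (g' w)
    have h2 := LinearMap.congr_fun e w
    simp only [LinearMap.comp_apply, LinearMap.zero_apply] at h1
    have h2' : g (g' w) = w := by simpa using h2
    rw [h2'] at h1
    simpa using h1
  have hgood1 : ∀ x ∈ PP Γ p, ∀ f ∈ FF Γ φ, Good (NN (l := l) S u) x f := by
    intro x hx f hf
    obtain ⟨y, hy, hfy⟩ := hP f (hF0 f hf)
    exact h.good_of_conn hS ha hN hx hf (hconn x hx y hy) hy hfy
  have hgood2 : ∀ x : V, ∀ f ∈ FF Γ φ, Good (NN (l := l) S u) x f := by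
    intro x f hf
    have hx : x ∈ Submodule.span F {x | ∃ g ∈ Γ, x = g p} := by
      rw [span_orbit h.grp h.irr h.p0]; trivial
    induction hx using Submodule.span_induction with
    | mem x hx => exact hgood1 x hx f hf
    | zero => exact Good.zero_left
    | add x y _ _ hx hy => exact hx.add_left hy
    | smul c x _ hx => exact hx.smul_left c
  have hgood3 : ∀ (x : V) (f : Dual F V), Good (NN (l := l) S u) x f := by
    intro x f
    have hf : f ∈ Submodule.span F {f : Dual F V | ∃ g ∈ Γ, f = φ.comp g} := by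
      rw [span_dual h.grp h.irr h.φ0]; trivial
    induction hf using Submodule.span_induction with
    | mem f hf => exact hgood2 x f hf
    | zero => exact Good.zero_right
    | add f g _ _ hf hg => exact hf.add_right hg
    | smul c f _ hf => exact hf.smul_right c
  obtain ⟨ω, hω⟩ := exists_form u hu
  obtain ⟨M, hM⟩ := exists_map u v hu
  have h1 := all_invariant (NN S u) hgood3 M _ (hκ ω)
  have h2 := h1 1 S.one_mem
  simp only [AlternatingMap.compLinearMap_apply, Module.End.one_apply, hM, hv] at h2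
  rw [hω] at h2
  exact one_ne_zero h2

end Pool.Agent.Lib.MP_55eb77_al
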