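import Pool.Agent.Lib.MP_55eb77_al.Comp

/-!
Coordinate forms.
-/

set_option linter.unusedSimpArgs false
set_option linter.unusedSectionVars false

namespace Pool.Agent.Lib.MP_55eb77_al

open Function Finset Module

variable {F : Type*} [Field F] {V : Type*} [AddCommGroup V] [Module F V]
  {ι : Type*} [Fintype ι] [DecidableEq ι] {l : ℕ}

/-- The range of a tuple of indices. -/
def rg (β : Fin l → ι) : Finset ι := univ.image β

theorem mem_rg {β : Fin l → ι} {i : ι} : i ∈ rg β ↔ ∃ j, β j = i := by simp [rg]

theorem card_rg {β : Fin l → ι} (h : Injective β) : (rg β).card = l := by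
  rw [rg, card_image_of_injective _ h, card_univ, Fintype.card_fin]

theorem exists_perm {α β : Fin l → ι} (hβ : Injective β) (h : rg α = rg β) :
    ∃ σ : Equiv.Perm (Fin l), β = α ∘ σ := by
  have h1 : ∀ i, ∃ j, α j = β i := by
    intro i
    have : β i ∈ rg α := by rw [h]; exact mem_rg.2 ⟨i, rfl⟩
    exact mem_rg.1 this
  choose σ hσ using h1
  have hinj : Injective σ := by
    intro i j hij
    apply hβ
    rw [← hσ i, ← hσ j, hij]
  refine ⟨Equiv.ofBijective σ (Finite.injective_iff_bijective.1 hinj), ?_⟩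
  funext i
  exact (hσ i).symm

theorem exists_enum (A : Finset ι) (hA : A.card = l) :
    ∃ α : Fin l → ι, Injective α ∧ rg α = A := by
  refine ⟨fun i => ((Finset.equivFinOfCardEq hA).symm i : ι), ?_, ?_⟩
  · intro i j hij
    have := Subtype.ext hij
    simpa using this
  · ext x
    rw [mem_rg]
    constructor
    · rintro ⟨j, rfl⟩
      exact ((Finset.equivFinOfCardEq hA).symm j).2
    · intro hx
      exact ⟨(Finset.equivFinOfCardEq hA) ⟨x, hx⟩, by simp⟩

/-- The coordinate form of a tuple of indices. -/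
noncomputable def EE (e : Basis ι F V) (β : Fin l → ι) : V [⋀^Fin l]→ₗ[F] F :=
  Matrix.detRowAlternating.compLinearMap (LinearMap.pi fun j => e.coord (β j))

theorem EE_apply (e : Basis ι F V) (β : Fin l → ι) (v : Fin l → V) :
    EE e β v = Matrix.det (fun i j => e.coord (β j) (v i)) := rfl

theorem EE_self (e : Basis ι F V) {β : Fin l → ι} (hβ : Injective β) :
    EE e β (fun i => e (β i)) = 1 := by
  rw [EE_apply]
  have : (fun i j => e.coord (β j) (e (β i))) = (1 : Matrix (Fin l) (Fin l) F) := by
    funext i j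
    simp only [Basis.coord_apply, Basis.repr_self, Finsupp.single_apply, Matrix.one_apply]
    by_cases h : i = j
    · simp [h]
    · rw [if_neg h, if_neg (fun h' => h (hβ h'))]
  rw [this, Matrix.det_one]

theorem EE_zero (e : Basis ι F V) (β : Fin l → ι) (w : Fin l → V) (i : Fin l) (m : ι)
    (hw : w i = e m) (hm : m ∉ rg β) : EE e β w = 0 := by
  rw [EE_apply]
  apply Matrix.det_eq_zero_of_row_eq_zero i
  intro j
  rw [hw]
  simp only [Basis.coord_apply, Basis.repr_self, Finsupp.single_apply]
  rw [if_neg]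
  intro h
  exact hm (mem_rg.2 ⟨j, h.symm⟩)

theorem EE_update (e : Basis ι F V) {β : Fin l → ι} (hβ : Injective β) (i : Fin l) (x : V) :
    EE e β (update (fun j => e (β j)) i x) = e.coord (β i) x := by
  have key : (EE e β).toMultilinearMap.toLinearMap (fun j => e (β j)) i = e.coord (β i) := by
    apply e.ext
    intro m
    have h1 : (EE e β).toMultilinearMap.toLinearMap (fun j => e (β j)) i (e m) =
        EE e β (update (fun j => e (β j)) i (e m)) := rfl
    rw [h1]
    by_cases hm : m ∈ rg β
    · obtain ⟨j, rfl⟩ := mem_rg.1 hm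
      by_cases hij : j = i
      · subst hij
        have h2 : update (fun j => e (β j)) j (e (β j)) = fun j => e (β j) :=
          update_eq_self j (fun j => e (β j))
        rw [h2, EE_self e hβ]
        simp
      · have h3 : EE e β (update (fun j => e (β j)) i (e (β j))) = 0 := by
          apply AlternatingMap.map_eq_zero_of_eq _ _ _ hij
          simp [update_of_ne hij]
        rw [h3]
        simp only [Basis.coord_apply, Basis.repr_self, Finsupp.single_apply]
        rw [if_neg]
        intro h
        exact hij (hβ h)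
    · rw [EE_zero e β _ i m (by simp) hm]
      simp only [Basis.coord_apply, Basis.repr_self, Finsupp.single_apply]
      rw [if_neg]
      intro h
      exact hm (mem_rg.2 ⟨i, h.symm⟩)
  exact LinearMap.congr_fun key x

theorem exists_coord (e : Basis ι F V) (η : V [⋀^Fin l]→ₗ[F] F) (w : Fin l → V) (h : η w ≠ 0) :
    ∃ γ : Fin l → ι, (∀ i, e.coord (γ i) (w i) ≠ 0) ∧ η (fun i => e (γ i)) ≠ 0 := by
  have h1 : w = fun i => ∑ j, e.coord j (w i) • e j := by
    funext i
    exact (e.sum_repr (w i)).symm
  have h2 : η w = ∑ r : Fin l → ι, (∏ i, e.coord (r i) (w i)) * η (fun i => e (r i)) := by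
    conv_lhs => rw [h1]
    have h3 := η.toMultilinearMap.map_sum (fun i j => e.coord j (w i) • e j)
    have h4 : η (fun i => ∑ j, e.coord j (w i) • e j) =
      ∑ r : Fin l → ι, η (fun i => e.coord (r i) (w i) • e (r i)) := h3
    rw [h4]
    refine sum_congr rfl fun r _ => ?_
    have h5 := η.toMultilinearMap.map_smul_univ (fun i => e.coord (r i) (w i)) (fun i => e (r i))
    exact h5
  rw [h2] at h
  obtain ⟨r, _, hr⟩ := exists_ne_zero_of_sum_ne_zero h
  refine ⟨r, fun i hi => hr ?_, fun h0 => hr ?_⟩
  · rw [prod_eq_zero (mem_univ i) hi, zero_mul]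
  · rw [h0, mul_zero]

theorem inj_of_ne (e : Basis ι F V) {η : V [⋀^Fin l]→ₗ[F] F} {γ : Fin l → ι}
    (h : η (fun i => e (γ i)) ≠ 0) : Injective γ := by
  intro i j hij
  by_contra hne
  exact h (η.map_eq_zero_of_eq _ (by simp [hij]) hne)

theorem perm_ne (e : Basis ι F V) (η : V [⋀^Fin l]→ₗ[F] F) (α : Fin l → ι)
    (σ : Equiv.Perm (Fin l)) :
    η (fun i => e ((α ∘ σ) i)) = (Equiv.Perm.sign σ : ℤ) • η (fun i => e (α i)) := by
  have := η.map_perm (fun i => e (α i)) σ
  exact this

theorem alt_sum_apply {κ : Type*} (s : Finset κ) (f : κ → V [⋀^Fin l]→ₗ[F] F) (v : Fin l → V) :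
    (∑ a ∈ s, f a) v = ∑ a ∈ s, f a v := by
  classical
  induction s using Finset.induction_on with
  | empty => rfl
  | insert a s ha ih => rw [sum_insert ha, sum_insert ha, AlternatingMap.add_apply, ih]

/-- Expansion of a form in coordinate forms. -/
theorem expand (e : Basis ι F V) (αf : Finset ι → Fin l → ι)
    (hαf : ∀ A : Finset ι, A.card = l → Injective (αf A) ∧ rg (αf A) = A)
    (η : V [⋀^Fin l]→ₗ[F] F) :
    η = ∑ A ∈ powersetCard l univ, η (fun i => e (αf A i)) • EE e (αf A) := by
  apply e.ext_alternating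
  intro β hβ
  have happ : (∑ A ∈ powersetCard l univ, η (fun i => e (αf A i)) • EE e (αf A))
      (fun i => e (β i)) = ∑ A ∈ powersetCard l univ, η (fun i => e (αf A i)) *
        EE e (αf A) (fun i => e (β i)) := by
    rw [alt_sum_apply]
    rfl
  rw [happ, sum_eq_single (rg β)]
  · have hc := card_rg hβ
    obtain ⟨σ, hσ⟩ := exists_perm hβ (hαf _ hc).2
    have h1 : η (fun i => e (β i)) =
        (Equiv.Perm.sign σ : ℤ) • η (fun i => e (αf (rg β) i)) := by
      conv_lhs => rw [hσ]
      exact perm_ne e η _ σ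
    have h2 : EE e (αf (rg β)) (fun i => e (β i)) =
        (Equiv.Perm.sign σ : ℤ) • (1 : F) := by
      rw [← EE_self e (hαf _ hc).1]
      have : (fun i => e (β i)) = fun i => e ((αf (rg β) ∘ σ) i) := by rw [← hσ]
      rw [this]
      exact perm_ne e _ _ σ
    rw [h1, h2]
    simp only [zsmul_eq_mul, mul_one]
    ring
  · intro A hA hne
    rw [mem_powersetCard] at hA
    have hA' := hαf A hA.2
    have : ∃ i, β i ∉ rg (αf A) := by
      by_contra hcon
      push Not at hcon
      apply hne
      symm
      apply eq_of_subset_of_card_le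
      · intro x hx
        obtain ⟨j, rfl⟩ := mem_rg.1 hx
        rw [← hA'.2]
        exact hcon j
      · rw [hA.2, card_rg hβ]
    obtain ⟨i, hi⟩ := this
    rw [EE_zero e _ _ i (β i) rfl hi, mul_zero]
  · intro h
    exfalso
    apply h
    rw [mem_powersetCard]
    exact ⟨subset_univ _, card_rg hβ⟩

theorem exists_EE_ne (e : Basis ι F V) (u : Fin l → V) (ω : V [⋀^Fin l]→ₗ[F] F) (h : ω u ≠ 0) :
    ∃ β : Fin l → ι, Injective β ∧ EE e β u ≠ 0 := by
  obtain ⟨γ, _, hγ⟩ := exists_coord e ω u h
  have : ∀ A : Finset ι, ∃ α : Fin l → ι, A.card = l → Injective α ∧ rg α = A := by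
    intro A
    by_cases hA : A.card = l
    · obtain ⟨α, h1, h2⟩ := exists_enum A hA
      exact ⟨α, fun _ => ⟨h1, h2⟩⟩
    · exact ⟨γ, fun h => absurd h hA⟩
  choose αf hαf using this
  by_contra hcon
  push Not at hcon
  apply h
  rw [expand e αf hαf ω, alt_sum_apply]
  apply sum_eq_zero
  intro A hA
  rw [mem_powersetCard] at hA
  rw [AlternatingMap.smul_apply, hcon _ (hαf A hA.2).1, smul_zero]

theorem D_basis (e : Basis ι F V) (η : V [⋀^Fin l]→ₗ[F] F) (c : ι) {β : Fin l → ι}
    (hβ : Injective β) :
    D (e c) (e.coord c) η (fun i => e (β i)) = if c ∈ rg β then η (fun i => e (β i)) else 0 := by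
  rw [D_apply]
  by_cases hc : c ∈ rg β
  · obtain ⟨j, hj⟩ := mem_rg.1 hc
    rw [if_pos hc, sum_eq_single j]
    · have h2 : update (fun i => e (β i)) j (e c) = fun i => e (β i) := by
        rw [← hj]
        exact update_eq_self j (fun j => e (β j))
      rw [h2, hj]
      simp
    · intro i _ hij
      simp only [Basis.coord_apply, Basis.repr_self, Finsupp.single_apply]
      rw [if_neg, zero_mul]
      intro h
      exact hij (hβ (h.trans hj.symm))
    · simp
  · rw [if_neg hc]
    apply sum_eq_zero
    intro i _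
    simp only [Basis.coord_apply, Basis.repr_self, Finsupp.single_apply]
    rw [if_neg, zero_mul]
    intro h
    exact hc (mem_rg.2 ⟨i, h⟩)

end Pool.Agent.Lib.MP_55eb77_al
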