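import Mathlib

/-!
# Linear groups making all singular matrices of rank `k` regular: definitions
-/

namespace Pool.Agent.Lib.MP_55eb77_al

open Matrix Module

variable {F : Type*} [Field F] {n : ℕ}

/-- The subsemigroup `⟨G, a⟩` of the monoid of all `n × n` matrices generated by `G ∪ {a}`. -/
def gen (G : Subgroup (GL (Fin n) F)) (a : Matrix (Fin n) (Fin n) F) :
    Subsemigroup (Matrix (Fin n) (Fin n) F) :=
  Subsemigroup.closure ({x | ∃ g ∈ G, (g : Matrix (Fin n) (Fin n) F) = x} ∪ {a})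

/-- Property (R1): every matrix of rank `k` is regular in `⟨G, a⟩`. -/
def R1 (G : Subgroup (GL (Fin n) F)) (k : ℕ) : Prop :=
  ∀ a : Matrix (Fin n) (Fin n) F, a.rank = k → ∃ y ∈ gen G a, a * y * a = a

/-- Property (R2): for every matrix `a` of rank `k` the semigroup `⟨G, a⟩` is regular. -/
def R2 (G : Subgroup (GL (Fin n) F)) (k : ℕ) : Prop :=
  ∀ a : Matrix (Fin n) (Fin n) F, a.rank = k → ∀ x ∈ gen G a, ∃ y ∈ gen G a, x * y * x = x

/-- `G` is irreducible on the space `F ^ n` of column vectors. -/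
def IsIrred (G : Subgroup (GL (Fin n) F)) : Prop :=
  ∀ W : Submodule F (Fin n → F),
    (∀ g ∈ G, ∀ w ∈ W, (g : Matrix (Fin n) (Fin n) F) *ᵥ w ∈ W) → W = ⊥ ∨ W = ⊤

/-- The image of a subspace of `F ^ n` under an invertible matrix. -/
def img (g : GL (Fin n) F) (W : Submodule F (Fin n → F)) : Submodule F (Fin n → F) :=
  W.map (toLin' (g : Matrix (Fin n) (Fin n) F))

/-- `F ^ n` is the direct sum of the `r ≥ 2` nonzero subspaces `W i`, which `G` permutes. -/
def IsSystem (G : Subgroup (GL (Fin n) F)) {r : ℕ} (W : Fin r → Submodule F (Fin n → F)) : Prop :=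
  2 ≤ r ∧ (∀ i, W i ≠ ⊥) ∧ iSupIndep W ∧ (⨆ i, W i) = ⊤ ∧ ∀ g ∈ G, ∀ i, ∃ j, img g (W i) = W j

/-- `G` is transitive on the unordered pairs of distinct members of the family `W`. -/
def IsTwoHomogeneous (G : Subgroup (GL (Fin n) F)) {r : ℕ}
    (W : Fin r → Submodule F (Fin n → F)) : Prop :=
  ∀ i j i' j', i ≠ j → i' ≠ j' → ∃ g ∈ G,
    (img g (W i) = W i' ∧ img g (W j) = W j') ∨ (img g (W i) = W j' ∧ img g (W j) = W i')

end Pool.Agent.Lib.MP_55eb77_al
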