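import Pool.Agent.Lib.MP_55eb77_al.Nec

/-!
Necessity of the criterion in corank one.
-/

set_option linter.unusedSimpArgs false
set_option linter.unusedSectionVars false

namespace Pool.Agent.Lib.MP_55eb77_al

open Function Finset Module

variable {F : Type*} [Field F] [Finite F] {V : Type*} [AddCommGroup V] [Module F V]
  [FiniteDimensional F V]

section System

variable {Γ : Set (End F V)} {r : ℕ} {W : Fin r → Submodule F V}

theorem W_inj (hW : ∀ i, W i ≠ ⊥) (hind : iSupIndep W) : ∀ i j, W i = W j → i = j := by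
  intro i j hij
  by_contra hne
  have h1 := hind.pairwiseDisjoint hne
  have h2 : Disjoint (W i) (W j) := h1
  rw [hij, disjoint_self] at h2
  exact hW j h2

theorem mem_unique (hind : iSupIndep W) {v : V} (hv : v ≠ 0) {i j : Fin r} (hi : v ∈ W i)
    (hj : v ∈ W j) : i = j := by
  by_contra hne
  have h2 : Disjoint (W i) (W j) := hind.pairwiseDisjoint hne
  exact hv (Submodule.disjoint_def.1 h2 v hi hj)

theorem map_comp_eq {g h : End F V} {i j k : Fin r} (h1 : (W i).map h = W j)
    (h2 : (W j).map g = W k) : (W i).map (g * h) = W k := by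
  rw [← h2, ← h1, ← Submodule.map_comp]
  rfl

theorem map_inv {g g' : End F V} (hg : g' * g = 1) {i j : Fin r} (h1 : (W i).map g = W j) :
    (W j).map g' = W i := by
  rw [← h1, ← Submodule.map_comp]
  have : g'.comp g = LinearMap.id := hg
  rw [this, Submodule.map_id]

/-- Transitivity on the blocks. -/
theorem blocks_trans (hΓ : Grp Γ) (hirr : Irred Γ) (hW : ∀ i, W i ≠ ⊥) (hind : iSupIndep W)
    (hperm : ∀ g ∈ Γ, ∀ i, ∃ j, (W i).map g = W j) (i j : Fin r) :
    ∃ g ∈ Γ, (W i).map g = W j := by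
  obtain ⟨p, hp, hp0⟩ := Submodule.exists_mem_ne_zero_of_ne_bot (hW i)
  by_contra hcon
  push Not at hcon
  -- the span of the orbit of `p` avoids `W j`
  obtain ⟨q, hq, hq0⟩ := Submodule.exists_mem_ne_zero_of_ne_bot (hW j)
  have h1 : q ∈ Submodule.span F {x | ∃ g ∈ Γ, x = g p} := by
    rw [span_orbit hΓ hirr hp0]; trivial
  have h2 : Submodule.span F {x | ∃ g ∈ Γ, x = g p} ≤ ⨆ m, ⨆ (_ : m ≠ j), W m := by
    apply Submodule.span_le.2
    rintro _ ⟨g, hg, rfl⟩
    obtain ⟨m, hm⟩ := hperm g hg i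
    have hmj : m ≠ j := by
      rintro rfl
      exact hcon g hg hm
    have h3 : g p ∈ W m := by rw [← hm]; exact Submodule.mem_map_of_mem hp
    exact (le_iSup₂ (f := fun (m : Fin r) (_ : m ≠ j) => W m) m hmj) h3
  exact hq0 (Submodule.disjoint_def.1 (hind j) q hq (h2 h1))

/-- A functional vanishing on the other blocks and on `x`, and equal to one at `p`. -/
theorem exists_functional (hind : iSupIndep W) {i : Fin r} {p x : V} (hp : p ∈ W i)
    (hx : x ∈ W i) (hpx : ∀ c : F, p ≠ c • x) :
    ∃ f : Dual F V, f p = 1 ∧ f x = 0 ∧ ∀ m, m ≠ i → ∀ v ∈ W m, f v = 0 := by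
  have hnot : p ∉ Submodule.span F {x} ⊔ ⨆ m, ⨆ (_ : m ≠ i), W m := by
    intro hmem
    rw [Submodule.mem_sup] at hmem
    obtain ⟨y, hy, w, hw, hyw⟩ := hmem
    obtain ⟨c, rfl⟩ := Submodule.mem_span_singleton.1 hy
    have h1 : w ∈ W i := by
      have : w = p - c • x := by rw [← hyw]; abel
      rw [this]
      exact (W i).sub_mem hp ((W i).smul_mem c hx)
    have h2 : w = 0 := Submodule.disjoint_def.1 (hind i) w h1 hw
    rw [h2, add_zero] at hyw
    exact hpx c hyw.symm
  obtain ⟨f, hf1, hf2⟩ := Submodule.exists_le_ker_of_notMem hnot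
  refine ⟨(f p)⁻¹ • f, ?_, ?_, ?_⟩
  · rw [LinearMap.smul_apply, smul_eq_mul, inv_mul_cancel₀ hf1]
  · have h3 : x ∈ LinearMap.ker f :=
      hf2 (Submodule.mem_sup_left (Submodule.mem_span_singleton_self x))
    rw [LinearMap.smul_apply, show f x = 0 from h3, smul_zero]
  · intro m hm v hv
    have h3 : v ∈ LinearMap.ker f := by
      apply hf2
      apply Submodule.mem_sup_right
      exact (le_iSup₂ (f := fun (m : Fin r) (_ : m ≠ i) => W m) m hm) hv
    rw [LinearMap.smul_apply, show f v = 0 from h3, smul_zero]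

end System

/-- Every matrix of corank one generates with `Γ` a regular semigroup. -/
def R2c (Γ : Set (End F V)) : Prop :=
  ∀ a : End F V, finrank F (LinearMap.range a) + 1 = finrank F V →
    ∀ b ∈ Submonoid.closure (Γ ∪ {a}), ∃ Y ∈ Submonoid.closure (Γ ∪ {a}), b * Y * b = b

theorem not_R2c_of_data {Γ : Set (End F V)} {r : ℕ} {W : Fin r → Submodule F V}
    {O : Fin r → Fin r → Prop} {i1 j k : Fin r} {p x z : V} {ps xs : Dual F V} {g g' : End F V}
    (D : NecData Γ r W O i1 j k p x z ps xs g g') : ¬ R2c Γ := by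
  intro h
  obtain ⟨b, hb, hnon⟩ := D.main
  have hp0 : p ≠ 0 := by
    rintro rfl
    have := D.psp
    rw [map_zero] at this
    exact zero_ne_one this
  have hker : LinearMap.ker (NecData.am p z ps xs) = Submodule.span F {p} := by
    ext v
    rw [LinearMap.mem_ker, D.am_ker, Submodule.mem_span_singleton]
    constructor
    · rintro ⟨c, hc⟩; exact ⟨c, hc.symm⟩
    · rintro ⟨c, hc⟩; exact ⟨c, hc.symm⟩
  have hfr : finrank F (LinearMap.range (NecData.am p z ps xs)) + 1 = finrank F V := by
    rw [← LinearMap.finrank_range_add_finrank_ker (NecData.am p z ps xs), hker,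
      finrank_span_singleton hp0]
  obtain ⟨Y, hY, hY2⟩ := h _ hfr b hb
  exact hnon Y hY hY2

theorem sysOK_of_R2c {Γ : Set (End F V)} (hΓ : Grp Γ) (hirr : Irred Γ) (h : R2c Γ) :
    SysOK Γ := by
  intro r W hr hW hind hsup hperm
  have hinj := W_inj hW hind
  have htr := blocks_trans hΓ hirr hW hind hperm
  have hdim : ∀ i, finrank F (W i) = 1 := by
    intro i1
    by_contra hne
    obtain ⟨p, hp, hp0⟩ := Submodule.exists_mem_ne_zero_of_ne_bot (hW i1)
    -- an element of the orbit in the block, independent of `p`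
    have hex : ∃ g' ∈ Γ, g' p ∈ W i1 ∧ ∀ c : F, g' p ≠ c • p := by
      by_contra hcon
      push Not at hcon
      apply hne
      rw [finrank_eq_one_iff_of_nonzero' (⟨p, hp⟩ : W i1) (by
        intro h0
        exact hp0 (congrArg Subtype.val h0))]
      rintro ⟨w, hw⟩
      have h1 : Submodule.span F {x | ∃ g ∈ Γ, x = g p} ≤
          Submodule.span F {p} ⊔ ⨆ m, ⨆ (_ : m ≠ i1), W m := by
        apply Submodule.span_le.2
        rintro _ ⟨g, hg, rfl⟩
        obtain ⟨m, hm⟩ := hperm g hg i1
        have h3 : g p ∈ W m := by rw [← hm]; exact Submodule.mem_map_of_mem hp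
        by_cases hmi : m = i1
        · subst hmi
          obtain ⟨c, hc⟩ := hcon g hg h3
          apply Submodule.mem_sup_left
          rw [hc]
          exact Submodule.smul_mem _ _ (Submodule.mem_span_singleton_self p)
        · apply Submodule.mem_sup_right
          exact (le_iSup₂ (f := fun (m : Fin r) (_ : m ≠ i1) => W m) m hmi) h3
      rw [span_orbit hΓ hirr hp0, top_le_iff] at h1
      have h2 : w ∈ Submodule.span F {p} ⊔ ⨆ m, ⨆ (_ : m ≠ i1), W m := by rw [h1]; trivial
      rw [Submodule.mem_sup] at h2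
      obtain ⟨y, hy, w', hw', hyw⟩ := h2
      obtain ⟨c, rfl⟩ := Submodule.mem_span_singleton.1 hy
      have h3 : w' ∈ W i1 := by
        have : w' = w - c • p := by rw [← hyw]; abel
        rw [this]
        exact (W i1).sub_mem hw ((W i1).smul_mem c hp)
      have h4 : w' = 0 := Submodule.disjoint_def.1 (hind i1) w' h3 hw'
      rw [h4, add_zero] at hyw
      exact ⟨c, Subtype.ext hyw⟩
    obtain ⟨g', hg', hxW, hxp⟩ := hex
    have hx0 : g' p ≠ 0 := fun h0 => hxp 0 (by rw [h0, zero_smul])
    have hpx : ∀ c : F, p ≠ c • g' p := by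
      intro c hc
      have hc0 : c ≠ 0 := by
        rintro rfl
        rw [zero_smul] at hc
        exact hp0 hc
      apply hxp c⁻¹
      conv_rhs => rw [hc]
      rw [smul_smul, inv_mul_cancel₀ hc0, one_smul]
    obtain ⟨k, hk⟩ : ∃ k : Fin r, k ≠ i1 := by
      have : Nontrivial (Fin r) := Fin.nontrivial_iff_two_le.2 hr
      exact exists_ne i1
    obtain ⟨g, hg, hgW⟩ := htr i1 k
    obtain ⟨ps, hps1, hps2, hps3⟩ := exists_functional hind hp hxW hpx
    obtain ⟨xs, hxs1, hxs2, hxs3⟩ := exists_functional hind hxW hp hxp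
    have hzW : g p ∈ W k := by rw [← hgW]; exact Submodule.mem_map_of_mem hp
    have hg'W : (W i1).map g' = W i1 := by
      obtain ⟨m, hm⟩ := hperm g' hg' i1
      have h3 : g' p ∈ W m := by rw [← hm]; exact Submodule.mem_map_of_mem hp
      rw [hm, mem_unique hind hx0 h3 hxW]
    refine not_R2c_of_data (W := W) (O := fun i i' => i = i') (i1 := i1) (j := i1) (k := k) (p := p)
      (x := g' p) (z := g p) (ps := ps) (xs := xs) (g := g) (g' := g') ?_ h
    exact
      { grp := hΓ
        sup := hsup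
        perm := hperm
        winj := hinj
        osymm := fun a b hab => hab.symm
        oinv := by
          intro g _ a b a' b' h1 h2 hab
          subst hab
          exact hinj _ _ (h1.symm.trans h2)
        oj := rfl
        ok := hk.symm
        hk := hk
        pW := hp
        xW := hxW
        zW := hzW
        gΓ := hg
        g'Γ := hg'
        gW := hgW
        g'W := hg'W
        hx := rfl
        hz := rfl
        ps0 := hps3
        psp := hps1
        psx := hps2
        xsx := hxs1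
        xsp := hxs2
        xsz := hxs3 k hk _ hzW }
  refine ⟨hdim, ?_⟩
  intro i j i' j' hij hi'j'
  by_contra hcon
  push Not at hcon
  -- move `i'` to `i`
  obtain ⟨h₀, hh₀, hh₀W⟩ := htr i' i
  obtain ⟨h₀', hh₀', f1, f2⟩ := hΓ.inv h₀ hh₀
  obtain ⟨k, hkW⟩ := hperm h₀ hh₀ j'
  have hki : k ≠ i := by
    rintro rfl
    apply hi'j'
    apply hinj
    rw [← map_inv f2 hh₀W, ← map_inv f2 hkW]
  have hcon2 : ∀ g ∈ Γ, ¬ (((W i).map g = W i ∧ (W j).map g = W k) ∨
      ((W i).map g = W k ∧ (W j).map g = W i)) := by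
    intro g hg hor
    have hb1 := map_inv f2 hh₀W
    have hb2 := map_inv f2 hkW
    have hc := hcon (h₀' * g) (hΓ.mul _ hh₀' _ hg)
    rcases hor with ⟨h1, h2⟩ | ⟨h1, h2⟩
    · exact hc.1 (map_comp_eq h1 hb1) (map_comp_eq h2 hb2)
    · exact hc.2 (map_comp_eq h1 hb2) (map_comp_eq h2 hb1)
  obtain ⟨p, hp, hp0⟩ := Submodule.exists_mem_ne_zero_of_ne_bot (hW i)
  obtain ⟨g', hg', hg'W⟩ := htr i j
  obtain ⟨g, hg, hgW⟩ := htr i k
  have hxW : g' p ∈ W j := by rw [← hg'W]; exact Submodule.mem_map_of_mem hp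
  have hzW : g p ∈ W k := by rw [← hgW]; exact Submodule.mem_map_of_mem hp
  have hx0 : g' p ≠ 0 := by
    obtain ⟨g'', _, _, e2⟩ := hΓ.inv g' hg'
    intro h0
    apply hp0
    have : g'' (g' p) = p := by
      have := LinearMap.congr_fun e2 p; simpa using this
    rw [← this, h0, map_zero]
  let O : Fin r → Fin r → Prop := fun a b => ∃ g ∈ Γ,
    ((W i).map g = W a ∧ (W j).map g = W b) ∨ ((W i).map g = W b ∧ (W j).map g = W a)
  have hok : ¬ O i k := by
    rintro ⟨g, hg, hor⟩
    exact hcon2 g hg hor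
  have hoj : O i j := ⟨1, hΓ.one, Or.inl ⟨Submodule.map_id _, Submodule.map_id _⟩⟩
  have hkj : k ≠ j := by
    rintro rfl
    exact hok hoj
  obtain ⟨ps, hps1, _, hps3⟩ := exists_functional (x := 0) hind hp (W i).zero_mem
    (by intro c; rw [smul_zero]; exact hp0)
  obtain ⟨xs, hxs1, _, hxs3⟩ := exists_functional (x := 0) hind hxW (W j).zero_mem
    (by intro c; rw [smul_zero]; exact hx0)
  refine not_R2c_of_data (W := W) (O := O) (i1 := i) (j := j) (k := k) (p := p)
    (x := g' p) (z := g p) (ps := ps) (xs := xs) (g := g) (g' := g') ?_ h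
  exact
    { grp := hΓ
      sup := hsup
      perm := hperm
      winj := hinj
      osymm := by
        rintro a b ⟨g, hg, hor⟩
        exact ⟨g, hg, hor.symm⟩
      oinv := by
        rintro g hg a b a' b' h1 h2 ⟨g1, hg1, hor⟩
        refine ⟨g * g1, hΓ.mul _ hg _ hg1, ?_⟩
        rcases hor with ⟨h3, h4⟩ | ⟨h3, h4⟩
        · exact Or.inl ⟨map_comp_eq h3 h1, map_comp_eq h4 h2⟩
        · exact Or.inr ⟨map_comp_eq h3 h2, map_comp_eq h4 h1⟩
      oj := hoj
      ok := hok
      hk := hki
      pW := hp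
      xW := hxW
      zW := hzW
      gΓ := hg
      g'Γ := hg'
      gW := hgW
      g'W := hg'W
      hx := rfl
      hz := rfl
      ps0 := hps3
      psp := hps1
      psx := hps3 j hij.symm _ hxW
      xsx := hxs1
      xsp := hxs3 i hij _ hp
      xsz := hxs3 k hkj _ hzW }

end Pool.Agent.Lib.MP_55eb77_al
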