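import Mathlib

/-!
Families of finite sets invariant under a 2-homogeneous permutation group.
-/

set_option linter.unusedSimpArgs false
set_option linter.unusedSectionVars false

namespace Pool.Agent.Lib.MP_55eb77_al

open Function Finset

variable {ι : Type*} [Fintype ι] [DecidableEq ι] (𝒟 : Set (Finset ι)) (o : ι)

open scoped Classical in
/-- number of members of the family avoiding `i` and containing `j` -/
noncomputable def cnt (i j : ι) : ℕ := (univ.filter fun A => A ∈ 𝒟 ∧ i ∉ A ∧ j ∈ A).card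

open scoped Classical in
noncomputable def deg (j : ι) : ℕ := (univ.filter fun A => A ∈ 𝒟 ∧ j ∈ A).card

open scoped Classical in
noncomputable def both (i j : ι) : ℕ := (univ.filter fun A => A ∈ 𝒟 ∧ i ∈ A ∧ j ∈ A).card

theorem cnt_add_both (i j : ι) : cnt 𝒟 i j + both 𝒟 i j = deg 𝒟 j := by
  classical
  unfold cnt both deg
  rw [← card_union_of_disjoint]
  · congr 1
    ext A
    simp only [mem_union, mem_filter, mem_univ, true_and]
    tauto
  · rw [disjoint_left]
    intro A h1 h2
    simp only [mem_filter, mem_univ, true_and] at h1 h2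
    exact h1.2.1 h2.2.1

theorem both_comm (i j : ι) : both 𝒟 i j = both 𝒟 j i := by
  unfold both
  congr 1
  ext A
  simp only [mem_filter, mem_univ, true_and]
  tauto

theorem cnt_le (σ : Equiv.Perm ι) (hσ : ∀ A ∈ 𝒟, A.image σ ∈ 𝒟) (i j : ι) :
    cnt 𝒟 i j ≤ cnt 𝒟 (σ i) (σ j) := by
  classical
  unfold cnt
  apply card_le_card_of_injOn (fun A => A.image σ)
  · intro A hA
    simp only [coe_filter, Set.mem_ofPred_eq, mem_univ, true_and] at hA ⊢
    refine ⟨hσ A hA.1, ?_, mem_image_of_mem _ hA.2.2⟩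
    intro h
    obtain ⟨x, hx, hx2⟩ := mem_image.1 h
    rw [σ.injective hx2] at hx
    exact hA.2.1 hx
  · intro A _ B _ h
    exact image_injective σ.injective h

theorem deg_le (σ : Equiv.Perm ι) (hσ : ∀ A ∈ 𝒟, A.image σ ∈ 𝒟) (j : ι) :
    deg 𝒟 j ≤ deg 𝒟 (σ j) := by
  classical
  unfold deg
  apply card_le_card_of_injOn (fun A => A.image σ)
  · intro A hA
    simp only [coe_filter, Set.mem_ofPred_eq, mem_univ, true_and] at hA ⊢
    exact ⟨hσ A hA.1, mem_image_of_mem _ hA.2⟩
  · intro A _ B _ h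
    exact image_injective σ.injective h

/-- Exchanging `k` for `j`. -/
def Psi (j k : ι) : Prop :=
  ∀ A ∈ 𝒟, o ∉ A → k ∈ A → j ∉ A → insert j (A.erase k) ∈ 𝒟

variable {𝒟 o}

theorem Psi.trans {j k m : ι} (hj : j ≠ o) (hk : k ≠ o) (h1 : Psi 𝒟 o j k)
    (h2 : Psi 𝒟 o k m) : Psi 𝒟 o j m := by
  intro A hA ho hm hjA
  by_cases hkA : k ∈ A
  · by_cases hkm : k = m
    · subst hkm
      exact h1 A hA ho hm hjA
    · have hjk : j ≠ k := fun h => hjA (h ▸ hkA)
      have hjm : j ≠ m := fun h => hjA (h ▸ hm)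
      have hA1 := h1 A hA ho hkA hjA
      have e : insert j (A.erase m) =
          insert k ((insert j (A.erase k)).erase m) := by
        ext x
        simp only [mem_insert, mem_erase]
        constructor
        · rintro (rfl | ⟨h3, h4⟩)
          · exact Or.inr ⟨hjm, Or.inl rfl⟩
          · by_cases hxk : x = k
            · exact Or.inl hxk
            · exact Or.inr ⟨h3, Or.inr ⟨hxk, h4⟩⟩
        · rintro (rfl | ⟨h3, h4⟩)
          · exact Or.inr ⟨hkm, hkA⟩
          · rcases h4 with rfl | h4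
            · exact Or.inl rfl
            · exact Or.inr ⟨h3, h4.2⟩
      rw [e]
      apply h2 _ hA1
      · simp [ho, hj.symm]
      · simp [hm, Ne.symm hkm]
      · simp [hjk.symm]
  · by_cases hjk : j = k
    · subst hjk
      exact h2 A hA ho hm hjA
    · have hA1 := h2 A hA ho hm hkA
      have hjm : j ≠ m := fun h => hjA (h ▸ hm)
      have e : insert j (A.erase m) = insert j ((insert k (A.erase m)).erase k) := by
        rw [erase_insert]
        intro h
        exact hkA (mem_of_mem_erase h)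
      rw [e]
      apply h1 _ hA1
      · simp [ho, hk.symm]
      · simp
      · simp [hjk, hjA]

theorem Psi.symm_of_cnt {j k : ι} (hc : cnt 𝒟 o j = cnt 𝒟 o k)
    (h : Psi 𝒟 o j k) (hj : j ≠ o) : Psi 𝒟 o k j := by
  classical
  have hsplit : ∀ x y : ι, cnt 𝒟 o x =
      (univ.filter fun A : Finset ι => A ∈ 𝒟 ∧ o ∉ A ∧ x ∈ A ∧ y ∉ A).card +
      (univ.filter fun A : Finset ι => A ∈ 𝒟 ∧ o ∉ A ∧ x ∈ A ∧ y ∈ A).card := by
    intro x y
    unfold cnt
    rw [← card_union_of_disjoint]
    · congr 1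
      ext A
      simp only [mem_union, mem_filter, mem_univ, true_and]
      tauto
    · rw [disjoint_left]
      intro A h1 h2
      simp only [mem_filter, mem_univ, true_and] at h1 h2
      exact h1.2.2.2 h2.2.2.2
  have h1 := hsplit j k
  have h2 := hsplit k j
  have h3 : (univ.filter fun A : Finset ι => A ∈ 𝒟 ∧ o ∉ A ∧ j ∈ A ∧ k ∈ A).card =
      (univ.filter fun A : Finset ι => A ∈ 𝒟 ∧ o ∉ A ∧ k ∈ A ∧ j ∈ A).card := by
    congr 1
    ext A
    simp only [mem_filter, mem_univ, true_and]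
    tauto
  have hcard : (univ.filter fun A : Finset ι => A ∈ 𝒟 ∧ o ∉ A ∧ j ∈ A ∧ k ∉ A).card =
      (univ.filter fun A : Finset ι => A ∈ 𝒟 ∧ o ∉ A ∧ k ∈ A ∧ j ∉ A).card := by omega
  have himg : (univ.filter fun A : Finset ι => A ∈ 𝒟 ∧ o ∉ A ∧ k ∈ A ∧ j ∉ A).image
      (fun A => insert j (A.erase k)) =
      (univ.filter fun A : Finset ι => A ∈ 𝒟 ∧ o ∉ A ∧ j ∈ A ∧ k ∉ A) := by
    apply eq_of_subset_of_card_le
    · intro B hB
      obtain ⟨A, hA, rfl⟩ := mem_image.1 hB
      simp only [mem_filter, mem_univ, true_and] at hA ⊢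
      refine ⟨h A hA.1 hA.2.1 hA.2.2.1 hA.2.2.2, ?_, by simp, ?_⟩
      · simp [hA.2.1, hj.symm]
      · have : k ≠ j := fun h => hA.2.2.2 (h ▸ hA.2.2.1)
        simp [this]
    · rw [hcard, card_image_of_injOn]
      intro A hA B hB hAB
      simp only [coe_filter, Set.mem_ofPred_eq, mem_univ, true_and] at hA hB
      have e1 : A = insert k ((insert j (A.erase k)).erase j) := by
        rw [erase_insert (by simp [hA.2.2.2]), insert_erase hA.2.2.1]
      have e2 : B = insert k ((insert j (B.erase k)).erase j) := by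
        rw [erase_insert (by simp [hB.2.2.2]), insert_erase hB.2.2.1]
      rw [e1, e2]
      simp only at hAB
      rw [hAB]
  intro A hA ho hjA hkA
  have hmem : A ∈ (univ.filter fun A : Finset ι => A ∈ 𝒟 ∧ o ∉ A ∧ j ∈ A ∧ k ∉ A) := by
    simp only [mem_filter, mem_univ, true_and]
    exact ⟨hA, ho, hjA, hkA⟩
  rw [← himg] at hmem
  obtain ⟨B, hB, rfl⟩ := mem_image.1 hmem
  simp only [mem_filter, mem_univ, true_and] at hB
  rw [erase_insert (by simp [hB.2.2.2]), insert_erase hB.2.2.1]
  exact hB.1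

open scoped Classical in
/-- Exchange lemma. -/
theorem exchange (hs : ∀ j k, j ≠ o → k ≠ o → Psi 𝒟 o j k → Psi 𝒟 o k j) (n : ℕ) :
    ∀ B C : Finset ι, (B \ C).card = n → B.card = C.card → o ∉ B → o ∉ C → C ∈ 𝒟 →
      (∀ x, x ≠ o → (B.filter fun z => Psi 𝒟 o x z).card = (C.filter fun z => Psi 𝒟 o x z).card) →
      B ∈ 𝒟 := by
  induction n with
  | zero =>
    intro B C h1 h2 _ _ h5 _
    rw [card_eq_zero, sdiff_eq_empty_iff_subset] at h1
    rw [eq_of_subset_of_card_le h1 h2.ge]
    exact h5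
  | succ n ih =>
    intro B C h1 h2 h3 h4 h5 h6
    have hne : (B \ C).Nonempty := by
      rw [← card_pos]; omega
    obtain ⟨x, hx⟩ := hne
    rw [mem_sdiff] at hx
    have hxo : x ≠ o := fun h => h3 (h ▸ hx.1)
    have hxx : Psi 𝒟 o x x := by
      intro A _ _ h7 h8
      exact absurd h7 h8
    -- find `y`
    have hy : ∃ y ∈ C, y ∉ B ∧ Psi 𝒟 o x y := by
      by_contra hcon
      push Not at hcon
      have hsub : (C.filter fun z => Psi 𝒟 o x z) ⊆ (B.filter fun z => Psi 𝒟 o x z) := by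
        intro z hz
        rw [mem_filter] at hz ⊢
        refine ⟨?_, hz.2⟩
        by_contra hzB
        exact hcon z hz.1 hzB hz.2
      have heq := eq_of_subset_of_card_le hsub (h6 x hxo).le
      have hxB : x ∈ (B.filter fun z => Psi 𝒟 o x z) := mem_filter.2 ⟨hx.1, hxx⟩
      rw [← heq, mem_filter] at hxB
      exact hx.2 hxB.1
    obtain ⟨y, hyC, hyB, hxy⟩ := hy
    have hyo : y ≠ o := fun h => h4 (h ▸ hyC)
    have hyx := hs x y hxo hyo hxy
    have hne' : x ≠ y := fun h => hyB (h ▸ hx.1)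
    have hC' := h5
    have hC1 := hxy C h5 h4 hyC hx.2
    have hxe : x ∉ C.erase y := fun h => hx.2 (mem_of_mem_erase h)
    apply ih B (insert x (C.erase y)) ?_ ?_ h3 ?_ hC1
    · intro w hw
      rw [h6 w hw]
      have hiff : Psi 𝒟 o w x ↔ Psi 𝒟 o w y :=
        ⟨fun h => h.trans hw hxo hxy, fun h => h.trans hw hyo hyx⟩
      rw [filter_insert]
      by_cases hwx : Psi 𝒟 o w x
      · rw [if_pos hwx, card_insert_of_notMem (fun h => hxe (mem_filter.1 h).1), filter_erase,
          card_erase_of_mem (mem_filter.2 ⟨hyC, hiff.1 hwx⟩)]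
        exact (Nat.sub_add_cancel (card_pos.2 ⟨y, mem_filter.2 ⟨hyC, hiff.1 hwx⟩⟩)).symm
      · rw [if_neg hwx, filter_erase, erase_eq_of_notMem]
        intro h
        exact hwx (hiff.2 (mem_filter.1 h).2)
    · have e : B \ insert x (C.erase y) = (B \ C).erase x := by
        ext z
        simp only [mem_sdiff, mem_insert, mem_erase]
        constructor
        · rintro ⟨h7, h8⟩
          push Not at h8
          refine ⟨h8.1, h7, fun h9 => ?_⟩
          exact h8.2 (fun h => hyB (h ▸ h7)) h9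
        · rintro ⟨h7, h8, h9⟩
          refine ⟨h8, ?_⟩
          push Not
          exact ⟨h7, fun _ => h9⟩
      rw [e, card_erase_of_mem (mem_sdiff.2 hx), h1]
      rfl
    · rw [card_insert_of_notMem hxe, card_erase_of_mem hyC, h2]
      have : 0 < C.card := card_pos.2 ⟨y, hyC⟩
      omega
    · simp [h4, hxo.symm]

end Pool.Agent.Lib.MP_55eb77_al
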