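import Pool.Agent.Lib.MP_55eb77_al.Obstr

/-!
Dimension four, rank two.
-/

set_option linter.unusedSimpArgs false
set_option linter.unusedSectionVars false

namespace Pool.Agent.Lib.MP_55eb77_al

open Function Finset Module

variable {F : Type*} [Field F] {V : Type*} [AddCommGroup V] [Module F V]
  [FiniteDimensional F V]

/-! ### Planes given by two vectors -/

theorem mem_pair {Y : Submodule F V} (hY : finrank F Y = 2) {y z : V} (hy : y ∈ Y) (hz : z ∈ Y)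
    (hind : ∀ a b : F, a • y + b • z = 0 → a = 0 ∧ b = 0) {v : V} (hv : v ∈ Y) :
    ∃ a b : F, v = a • y + b • z := by
  have hli : LinearIndependent F ![y, z] := by
    rw [LinearIndependent.pair_iff]
    exact hind
  have h1 : finrank F (Submodule.span F (Set.range ![y, z])) = 2 := by
    rw [finrank_span_eq_card hli]
    simp
  have h2 : Submodule.span F (Set.range ![y, z]) ≤ Y := by
    rw [Submodule.span_le]
    rintro _ ⟨i, rfl⟩
    fin_cases i
    · exact hy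
    · exact hz
  have h3 := Submodule.eq_of_le_of_finrank_le h2 (by rw [h1, hY])
  rw [← h3] at hv
  rw [Matrix.range_cons, Matrix.range_cons, Matrix.range_empty, Set.union_empty] at hv
  rw [Set.singleton_union, Submodule.mem_span_pair] at hv
  obtain ⟨a, b, hab⟩ := hv
  exact ⟨a, b, hab.symm⟩

theorem le_of_pair {Y E : Submodule F V} (hY : finrank F Y = 2) {y z : V} (hy : y ∈ Y) (hz : z ∈ Y)
    (hind : ∀ a b : F, a • y + b • z = 0 → a = 0 ∧ b = 0) (hyE : y ∈ E) (hzE : z ∈ E) :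
    Y ≤ E := by
  intro v hv
  obtain ⟨a, b, rfl⟩ := mem_pair hY hy hz hind hv
  exact E.add_mem (E.smul_mem _ hyE) (E.smul_mem _ hzE)

omit [FiniteDimensional F V] in
/-- Vectors in two subspaces with zero intersection are independent. -/
theorem indep_of_inf {X Y : Submodule F V} (h : X ⊓ Y = ⊥) {x y : V} (hx : x ∈ X) (hy : y ∈ Y)
    (hx0 : x ≠ 0) (hy0 : y ≠ 0) : ∀ a b : F, a • x + b • y = 0 → a = 0 ∧ b = 0 := by
  intro a b hab
  have h1 : a • x ∈ X ⊓ Y := by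
    refine ⟨X.smul_mem _ hx, ?_⟩
    have : a • x = -(b • y) := eq_neg_of_add_eq_zero_left hab
    rw [this]
    exact Y.neg_mem (Y.smul_mem _ hy)
  rw [h, Submodule.mem_bot] at h1
  have ha : a = 0 := (smul_eq_zero.1 h1).resolve_right hx0
  rw [ha, zero_smul, zero_add] at hab
  exact ⟨ha, (smul_eq_zero.1 hab).resolve_right hy0⟩

omit [FiniteDimensional F V] in
theorem exists_meet {X Y : Submodule F V} (h : X ⊓ Y ≠ ⊥) : ∃ v ∈ X, v ∈ Y ∧ v ≠ 0 := by
  obtain ⟨v, ⟨h1, h2⟩, h3⟩ := Submodule.exists_mem_ne_zero_of_ne_bot h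
  exact ⟨v, h1, h2, h3⟩

/-! ### Invariant families of planes -/

/-- A nonempty invariant family of subspaces of dimension two. -/
structure Fm (Γ : Set (End F V)) (A : Set (Submodule F V)) : Prop where
  ne : A.Nonempty
  dim : ∀ X ∈ A, finrank F X = 2
  map : ∀ X ∈ A, ∀ g ∈ Γ, X.map g ∈ A

/-- Two complementary planes permuted by the group. -/
def Pair (Γ : Set (End F V)) : Prop :=
  ∃ X Y : Submodule F V, finrank F X = 2 ∧ finrank F Y = 2 ∧ X ⊓ Y = ⊥ ∧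
    ∀ g ∈ Γ, (X.map g = X ∨ X.map g = Y) ∧ (Y.map g = X ∨ Y.map g = Y)

variable {Γ : Set (End F V)} {A B : Set (Submodule F V)}

/-- An invariant family of planes contains two complementary planes. -/
theorem Fm.skew (hΓ : Grp Γ) (h : Fm Γ A) (hirr : Irred Γ) (h4 : finrank F V = 4) :
    ∃ X ∈ A, ∃ Y ∈ A, X ⊓ Y = ⊥ := by
  by_contra hcon
  push Not at hcon
  obtain ⟨X1, hX1⟩ := h.ne
  have hX1d := h.dim X1 hX1
  -- not all members are equal
  have hex : ∃ X2 ∈ A, X2 ≠ X1 := by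
    by_contra hc
    push Not at hc
    rcases hirr X1 (by
      intro g hg w hw
      have := hc _ (h.map X1 hX1 g hg)
      rw [← this]
      exact Submodule.mem_map_of_mem hw) with h1 | h1
    · rw [h1, finrank_bot] at hX1d; omega
    · rw [h1, finrank_top] at hX1d; omega
  obtain ⟨X2, hX2, hne⟩ := hex
  have hX2d := h.dim X2 hX2
  obtain ⟨p, hp1, hp2, hp0⟩ := exists_meet (hcon X1 hX1 X2 hX2)
  -- the intersection of `X1` and `X2` is spanned by `p`
  have hP : ∀ v, v ∈ X1 → v ∈ X2 → ∃ c : F, v = c • p := by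
    intro v hv1 hv2
    by_contra hc
    push Not at hc
    apply hne
    have hind : ∀ a b : F, a • p + b • v = 0 → a = 0 ∧ b = 0 := by
      intro a b hab
      have hb : b = 0 := by
        by_contra hb
        apply hc (-(b⁻¹ * a))
        have h1 : b • v = -(a • p) := eq_neg_of_add_eq_zero_right hab
        have h2 := congrArg (fun x => b⁻¹ • x) h1
        simp only [smul_smul, inv_mul_cancel₀ hb, one_smul, smul_neg] at h2
        rw [h2, neg_smul]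
      rw [hb, zero_smul, add_zero] at hab
      exact ⟨(smul_eq_zero.1 hab).resolve_right hp0, hb⟩
    apply le_antisymm
    · exact le_of_pair hX2d hp2 hv2 hind hp1 hv1
    · exact le_of_pair hX1d hp1 hv1 hind hp2 hv2
  have hE : finrank F (X1 ⊔ X2 : Submodule F V) ≤ 3 := by
    have h1 := Submodule.finrank_sup_add_finrank_inf_eq X1 X2
    have h2 : 0 < finrank F (X1 ⊓ X2 : Submodule F V) := by
      rw [Nat.pos_iff_ne_zero]
      intro h0
      exact hcon X1 hX1 X2 hX2 (Submodule.finrank_eq_zero.1 h0)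
    omega
  -- members not containing `p` lie in `X1 ⊔ X2`
  have hnp : ∀ Y ∈ A, p ∉ Y → Y ≤ X1 ⊔ X2 := by
    intro Y hY hpY
    obtain ⟨u, hu1, hu2, hu0⟩ := exists_meet (hcon Y hY X1 hX1)
    obtain ⟨v, hv1, hv2, hv0⟩ := exists_meet (hcon Y hY X2 hX2)
    apply le_of_pair (h.dim Y hY) hu1 hv1 ?_ (Submodule.mem_sup_left hu2)
      (Submodule.mem_sup_right hv2)
    intro a b hab
    by_cases ha : a = 0
    · rw [ha, zero_smul, zero_add] at hab
      exact ⟨ha, (smul_eq_zero.1 hab).resolve_right hv0⟩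
    · exfalso
      have h1 : a • u = -(b • v) := eq_neg_of_add_eq_zero_left hab
      obtain ⟨c, hc⟩ := hP (a • u) (X1.smul_mem _ hu2) (by
        rw [h1]; exact X2.neg_mem (X2.smul_mem _ hv2))
      have hc0 : c ≠ 0 := by
        rintro rfl
        rw [zero_smul] at hc
        exact smul_ne_zero ha hu0 hc
      apply hpY
      have h2 : p = c⁻¹ • (a • u) := by rw [hc, smul_smul, inv_mul_cancel₀ hc0, one_smul]
      rw [h2]
      exact Y.smul_mem _ (Y.smul_mem _ hu1)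
  by_cases hall : ∀ Y ∈ A, p ∈ Y
  · -- a common point
    rcases hirr (sInf A) (by
      intro g hg w hw
      rw [Submodule.mem_sInf] at hw ⊢
      intro Y hY
      obtain ⟨g', hg', e1, _⟩ := hΓ.inv g hg
      obtain ⟨y, hy, hyw⟩ := hw _ (h.map Y hY g' hg')
      rw [← hyw]
      have : g (g' y) = y := by
        have := LinearMap.congr_fun e1 y; simpa using this
      rw [this]
      exact hy) with h1 | h1
    · have : p ∈ sInf A := by
        rw [Submodule.mem_sInf]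
        exact hall
      rw [h1] at this
      exact hp0 ((Submodule.mem_bot F).1 this)
    · have : sInf A ≤ X1 := sInf_le hX1
      rw [h1, top_le_iff] at this
      rw [this, finrank_top] at hX1d
      omega
  · push Not at hall
    obtain ⟨X3, hX3, hpX3⟩ := hall
    have hX3E := hnp X3 hX3 hpX3
    have hallE : ∀ Y ∈ A, Y ≤ X1 ⊔ X2 := by
      intro Y hY
      by_cases hpY : p ∈ Y
      · obtain ⟨v, hv1, hv2, hv0⟩ := exists_meet (hcon Y hY X3 hX3)
        apply le_of_pair (h.dim Y hY) hpY hv1 ?_ (Submodule.mem_sup_left hp1) (hX3E hv2)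
        intro a b hab
        by_cases ha : a = 0
        · rw [ha, zero_smul, zero_add] at hab
          exact ⟨ha, (smul_eq_zero.1 hab).resolve_right hv0⟩
        · exfalso
          apply hpX3
          have h1 : a • p = -(b • v) := eq_neg_of_add_eq_zero_left hab
          have h2 : p = a⁻¹ • (a • p) := by rw [smul_smul, inv_mul_cancel₀ ha, one_smul]
          rw [h2, h1]
          exact X3.smul_mem _ (X3.neg_mem (X3.smul_mem _ hv2))
      · exact hnp Y hY hpY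
    rcases hirr (sSup A) (by
      intro g hg w hw
      have h1 : (sSup A).map g ≤ sSup A := by
        rw [Submodule.map_le_iff_le_comap]
        apply sSup_le
        intro Y hY
        rw [← Submodule.map_le_iff_le_comap]
        exact le_sSup (h.map Y hY g hg)
      exact h1 (Submodule.mem_map_of_mem hw)) with h1 | h1
    · have : X1 ≤ sSup A := le_sSup hX1
      rw [h1, le_bot_iff] at this
      rw [this, finrank_bot] at hX1d
      omega
    · have h2 : sSup A ≤ X1 ⊔ X2 := sSup_le hallE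
      rw [h1, top_le_iff] at h2
      rw [h2, finrank_top] at hE
      omega

/-! ### A skew quadrilateral -/

/-- Every member of `A` meets every member of `B`; two complementary members on both sides and
their four points of intersection. -/
structure Conf (A B : Set (Submodule F V)) (X1 X2 Y1 Y2 : Submodule F V) (x1 x2 y1 y2 : V) :
    Prop where
  cross : ∀ X ∈ A, ∀ Y ∈ B, X ⊓ Y ≠ ⊥
  dA : ∀ X ∈ A, finrank F X = 2
  dB : ∀ Y ∈ B, finrank F Y = 2
  mX1 : X1 ∈ A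
  mX2 : X2 ∈ A
  mY1 : Y1 ∈ B
  mY2 : Y2 ∈ B
  hX : X1 ⊓ X2 = ⊥
  hY : Y1 ⊓ Y2 = ⊥
  x1X : x1 ∈ X1
  x1Y : x1 ∈ Y1
  x2X : x2 ∈ X1
  x2Y : x2 ∈ Y2
  y1X : y1 ∈ X2
  y1Y : y1 ∈ Y1
  y2X : y2 ∈ X2
  y2Y : y2 ∈ Y2
  x10 : x1 ≠ 0
  x20 : x2 ≠ 0
  y10 : y1 ≠ 0
  y20 : y2 ≠ 0

variable {X1 X2 Y1 Y2 : Submodule F V} {x1 x2 y1 y2 : V}

theorem Conf.swapAB (h : Conf A B X1 X2 Y1 Y2 x1 x2 y1 y2) :
    Conf B A Y1 Y2 X1 X2 x1 y1 x2 y2 where
  cross := fun Y hY X hX => by rw [inf_comm]; exact h.cross X hX Y hY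
  dA := h.dB
  dB := h.dA
  mX1 := h.mY1
  mX2 := h.mY2
  mY1 := h.mX1
  mY2 := h.mX2
  hX := h.hY
  hY := h.hX
  x1X := h.x1Y
  x1Y := h.x1X
  x2X := h.y1Y
  x2Y := h.y1X
  y1X := h.x2Y
  y1Y := h.x2X
  y2X := h.y2Y
  y2Y := h.y2X
  x10 := h.x10
  x20 := h.y10
  y10 := h.x20
  y20 := h.y20

theorem Conf.swapX (h : Conf A B X1 X2 Y1 Y2 x1 x2 y1 y2) :
    Conf A B X2 X1 Y1 Y2 y1 y2 x1 x2 where
  cross := h.cross
  dA := h.dA
  dB := h.dB
  mX1 := h.mX2
  mX2 := h.mX1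
  mY1 := h.mY1
  mY2 := h.mY2
  hX := by rw [inf_comm]; exact h.hX
  hY := h.hY
  x1X := h.y1X
  x1Y := h.y1Y
  x2X := h.y2X
  x2Y := h.y2Y
  y1X := h.x1X
  y1Y := h.x1Y
  y2X := h.x2X
  y2Y := h.x2Y
  x10 := h.y10
  x20 := h.y20
  y10 := h.x10
  y20 := h.x20

theorem Conf.swapY (h : Conf A B X1 X2 Y1 Y2 x1 x2 y1 y2) :
    Conf A B X1 X2 Y2 Y1 x2 x1 y2 y1 where
  cross := h.cross
  dA := h.dA
  dB := h.dB
  mX1 := h.mX1
  mX2 := h.mX2
  mY1 := h.mY2
  mY2 := h.mY1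
  hX := h.hX
  hY := by rw [inf_comm]; exact h.hY
  x1X := h.x2X
  x1Y := h.x2Y
  x2X := h.x1X
  x2Y := h.x1Y
  y1X := h.y2X
  y1Y := h.y2Y
  y2X := h.y1X
  y2Y := h.y1Y
  x10 := h.x20
  x20 := h.x10
  y10 := h.y20
  y20 := h.y10

theorem Conf.indep (h : Conf A B X1 X2 Y1 Y2 x1 x2 y1 y2) {a b c d : F}
    (h0 : a • x1 + b • x2 + (c • y1 + d • y2) = 0) : a = 0 ∧ b = 0 ∧ c = 0 ∧ d = 0 := by
  have h1 : a • x1 + b • x2 ∈ X1 ⊓ X2 := by
    refine ⟨X1.add_mem (X1.smul_mem _ h.x1X) (X1.smul_mem _ h.x2X), ?_⟩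
    rw [eq_neg_of_add_eq_zero_left h0]
    exact X2.neg_mem (X2.add_mem (X2.smul_mem _ h.y1X) (X2.smul_mem _ h.y2X))
  rw [h.hX, Submodule.mem_bot] at h1
  rw [h1, zero_add] at h0
  obtain ⟨ha, hb⟩ := indep_of_inf h.hY h.x1Y h.x2Y h.x10 h.x20 a b h1
  obtain ⟨hc, hd⟩ := indep_of_inf h.hY h.y1Y h.y2Y h.y10 h.y20 c d h0
  exact ⟨ha, hb, hc, hd⟩

theorem Conf.coords (h : Conf A B X1 X2 Y1 Y2 x1 x2 y1 y2) {a b c d a' b' c' d' : F}
    (h0 : a • x1 + b • x2 + (c • y1 + d • y2) = a' • x1 + b' • x2 + (c' • y1 + d' • y2)) :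
    a = a' ∧ b = b' ∧ c = c' ∧ d = d' := by
  have h1 : (a - a') • x1 + (b - b') • x2 + ((c - c') • y1 + (d - d') • y2) = 0 := by
    have : (a - a') • x1 + (b - b') • x2 + ((c - c') • y1 + (d - d') • y2) =
        (a • x1 + b • x2 + (c • y1 + d • y2)) - (a' • x1 + b' • x2 + (c' • y1 + d' • y2)) := by
      simp only [sub_smul]
      abel
    rw [this, h0, sub_self]
  obtain ⟨ha, hb, hc, hd⟩ := h.indep h1
  exact ⟨sub_eq_zero.1 ha, sub_eq_zero.1 hb, sub_eq_zero.1 hc, sub_eq_zero.1 hd⟩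

theorem Conf.memX1 (h : Conf A B X1 X2 Y1 Y2 x1 x2 y1 y2) {v : V} (hv : v ∈ X1) :
    ∃ a b : F, v = a • x1 + b • x2 :=
  mem_pair (h.dA _ h.mX1) h.x1X h.x2X (indep_of_inf h.hY h.x1Y h.x2Y h.x10 h.x20) hv

theorem Conf.memX2 (h : Conf A B X1 X2 Y1 Y2 x1 x2 y1 y2) {v : V} (hv : v ∈ X2) :
    ∃ a b : F, v = a • y1 + b • y2 := h.swapX.memX1 hv

theorem Conf.memY1 (h : Conf A B X1 X2 Y1 Y2 x1 x2 y1 y2) {v : V} (hv : v ∈ Y1) :
    ∃ a b : F, v = a • x1 + b • y1 := h.swapAB.memX1 hv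

theorem Conf.memY2 (h : Conf A B X1 X2 Y1 Y2 x1 x2 y1 y2) {v : V} (hv : v ∈ Y2) :
    ∃ a b : F, v = a • x2 + b • y2 := h.swapAB.memX2 hv

/-- The two points of a member of `A` on `Y1` and `Y2`. -/
theorem Conf.points (h : Conf A B X1 X2 Y1 Y2 x1 x2 y1 y2) {Z : Submodule F V} (hZ : Z ∈ A) :
    ∃ a b c d : F, ¬ (a = 0 ∧ b = 0) ∧ ¬ (c = 0 ∧ d = 0) ∧ a • x1 + b • y1 ∈ Z ∧
      c • x2 + d • y2 ∈ Z ∧
      ∀ v ∈ Z, ∃ s t : F, v = s • (a • x1 + b • y1) + t • (c • x2 + d • y2) := by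
  obtain ⟨p, hp1, hp2, hp0⟩ := exists_meet (h.cross Z hZ Y1 h.mY1)
  obtain ⟨q, hq1, hq2, hq0⟩ := exists_meet (h.cross Z hZ Y2 h.mY2)
  obtain ⟨a, b, rfl⟩ := h.memY1 hp2
  obtain ⟨c, d, rfl⟩ := h.memY2 hq2
  refine ⟨a, b, c, d, ?_, ?_, hp1, hq1, fun v hv => ?_⟩
  · rintro ⟨rfl, rfl⟩
    simp at hp0
  · rintro ⟨rfl, rfl⟩
    simp at hq0
  · exact mem_pair (h.dA Z hZ) hp1 hq1 (indep_of_inf h.hY hp2 hq2 hp0 hq0) hv

/-- No three pairwise complementary members. -/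
def NoThree (A : Set (Submodule F V)) : Prop :=
  ∀ X ∈ A, ∀ Y ∈ A, ∀ Z ∈ A, X ⊓ Y = ⊥ → X ⊓ Z = ⊥ → Y ⊓ Z ≠ ⊥

omit [FiniteDimensional F V] in
theorem mem_of_smul {Z : Submodule F V} {a : F} (ha : a ≠ 0) {v : V} (h : a • v ∈ Z) : v ∈ Z := by
  have := Z.smul_mem a⁻¹ h
  rwa [smul_smul, inv_mul_cancel₀ ha, one_smul] at this

/-- Without three pairwise complementary members, every member contains one of the four points. -/
theorem Conf.contains (h : Conf A B X1 X2 Y1 Y2 x1 x2 y1 y2) (hA : NoThree A)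
    {Z : Submodule F V} (hZ : Z ∈ A) : x1 ∈ Z ∨ x2 ∈ Z ∨ y1 ∈ Z ∨ y2 ∈ Z := by
  obtain ⟨a, b, c, d, hab, hcd, hp, hq, hmem⟩ := h.points hZ
  by_cases hm : X1 ⊓ Z = ⊥
  · have hm2 := hA X1 h.mX1 X2 h.mX2 Z hZ h.hX hm
    obtain ⟨v, hv1, hv2, hv0⟩ := exists_meet hm2
    obtain ⟨e, f, rfl⟩ := h.memX2 hv1
    obtain ⟨s, t, hst⟩ := hmem _ hv2
    have h1 := h.coords (a := 0) (b := 0) (c := e) (d := f) (a' := s * a) (b' := t * c)
      (c' := s * b) (d' := t * d) (by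
        rw [zero_smul, zero_smul, zero_add, zero_add, hst]
        simp only [smul_add, smul_smul]
        abel)
    obtain ⟨e1, e2, e3, e4⟩ := h1
    by_cases hs : s = 0
    · have ht : t ≠ 0 := by
        rintro rfl
        rw [hs, zero_smul, zero_smul, zero_add] at hst
        exact hv0 hst
      have hc : c = 0 := (mul_eq_zero.1 e2.symm).resolve_left ht
      have hd : d ≠ 0 := fun hd => hcd ⟨hc, hd⟩
      rw [hc, zero_smul, zero_add] at hq
      exact Or.inr (Or.inr (Or.inr (mem_of_smul hd hq)))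
    · have ha : a = 0 := (mul_eq_zero.1 e1.symm).resolve_left hs
      have hb : b ≠ 0 := fun hb => hab ⟨ha, hb⟩
      rw [ha, zero_smul, zero_add] at hp
      exact Or.inr (Or.inr (Or.inl (mem_of_smul hb hp)))
  · obtain ⟨v, hv1, hv2, hv0⟩ := exists_meet hm
    obtain ⟨e, f, rfl⟩ := h.memX1 hv1
    obtain ⟨s, t, hst⟩ := hmem _ hv2
    have h1 := h.coords (a := e) (b := f) (c := 0) (d := 0) (a' := s * a) (b' := t * c)
      (c' := s * b) (d' := t * d) (by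
        rw [zero_smul, zero_smul, zero_add, add_zero, hst]
        simp only [smul_add, smul_smul]
        abel)
    obtain ⟨e1, e2, e3, e4⟩ := h1
    by_cases hs : s = 0
    · have ht : t ≠ 0 := by
        rintro rfl
        rw [hs, zero_smul, zero_smul, zero_add] at hst
        exact hv0 hst
      have hd : d = 0 := (mul_eq_zero.1 e4.symm).resolve_left ht
      have hc : c ≠ 0 := fun hc => hcd ⟨hc, hd⟩
      rw [hd, zero_smul, add_zero] at hq
      exact Or.inr (Or.inl (mem_of_smul hc hq))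
    · have hb : b = 0 := (mul_eq_zero.1 e3.symm).resolve_left hs
      have ha : a ≠ 0 := fun ha => hab ⟨ha, hb⟩
      rw [hb, zero_smul, add_zero] at hp
      exact Or.inl (mem_of_smul ha hp)

/-- If some member of `A` other than `X1` contains `x1`, all members of `B` contain `x1` or
`y2`. -/
theorem Conf.step (h : Conf A B X1 X2 Y1 Y2 x1 x2 y1 y2)
    {Z : Submodule F V} (hZ : Z ∈ A) (hZ1 : Z ≠ X1) (hx : x1 ∈ Z) {T : Submodule F V}
    (hT : T ∈ B) : x1 ∈ T ∨ y2 ∈ T := by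
  -- a second vector of `Z`
  obtain ⟨q, hq1, hq2, hq0⟩ := exists_meet (h.cross Z hZ Y2 h.mY2)
  obtain ⟨c, d, rfl⟩ := h.memY2 hq2
  have hindZ := indep_of_inf h.hY h.x1Y hq2 h.x10 hq0
  have hmemZ : ∀ v ∈ Z, ∃ s t : F, v = s • x1 + t • (c • x2 + d • y2) := fun v hv =>
    mem_pair (h.dA Z hZ) hx hq1 hindZ hv
  have hd : d ≠ 0 := by
    rintro rfl
    apply hZ1
    rw [zero_smul, add_zero] at hq1 hq0
    have hc : c ≠ 0 := by
      rintro rfl
      exact hq0 (zero_smul _ _)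
    have hx2 : x2 ∈ Z := mem_of_smul hc hq1
    have hind := indep_of_inf h.hY h.x1Y h.x2Y h.x10 h.x20
    exact le_antisymm (le_of_pair (h.dA Z hZ) hx hx2 hind h.x1X h.x2X)
      (le_of_pair (h.dA X1 h.mX1) h.x1X h.x2X hind hx hx2)
  -- the common vector of `T` and `Z`
  obtain ⟨v, hv1, hv2, hv0⟩ := exists_meet (h.cross Z hZ T hT)
  obtain ⟨s, t, hst⟩ := hmemZ v hv1
  obtain ⟨r, r', w, w', hr, hw, hrT, hwT, hmemT⟩ := h.swapAB.points hT
  obtain ⟨e, f, hef⟩ := hmemT v hv2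
  have h1 := h.coords (a := s) (b := t * c) (c := 0) (d := t * d) (a' := e * r) (b' := e * r')
      (c' := f * w) (d' := f * w') (by
        have e1 : s • x1 + (t * c) • x2 + ((0 : F) • y1 + (t * d) • y2) = v := by
          rw [hst]
          simp only [smul_add, smul_smul, zero_smul, zero_add]
          abel
        have e2 : (e * r) • x1 + (e * r') • x2 + ((f * w) • y1 + (f * w') • y2) = v := by
          rw [hef]
          simp only [smul_add, smul_smul]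
        rw [e1, e2])
  obtain ⟨e1, e2, e3, e4⟩ := h1
  by_cases hf : f = 0
  · -- then `t = 0` and `v` is a multiple of `x1`
    rw [hf, zero_mul] at e4
    have ht : t = 0 := (mul_eq_zero.1 e4).resolve_right hd
    rw [ht, zero_smul, add_zero] at hst
    have hs : s ≠ 0 := by
      rintro rfl
      rw [zero_smul] at hst
      exact hv0 hst
    left
    rw [hst] at hv2
    exact mem_of_smul hs hv2
  · have hw0 : w = 0 := (mul_eq_zero.1 e3.symm).resolve_left hf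
    have hw' : w' ≠ 0 := fun h0 => hw ⟨hw0, h0⟩
    right
    rw [hw0, zero_smul, zero_add] at hwT
    exact mem_of_smul hw' hwT

theorem Conf.inter (h : Conf A B X1 X2 Y1 Y2 x1 x2 y1 y2) {v : V} (hv1 : v ∈ X1)
    (hv2 : v ∈ Y1) : ∃ c : F, v = c • x1 := by
  obtain ⟨a, b, rfl⟩ := h.memX1 hv1
  obtain ⟨c, d, hcd⟩ := h.memY1 hv2
  have h1 := h.coords (a := a) (b := b) (c := 0) (d := 0) (a' := c) (b' := 0) (c' := d)
    (d' := 0) (by rw [hcd]; simp)
  exact ⟨a, by rw [h1.2.1]; simp⟩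

/-- The remaining case without three pairwise complementary members. -/
theorem Conf.pair_of_noThree (h : Conf A B X1 X2 Y1 Y2 x1 x2 y1 y2) (hΓ : Grp Γ) (hirr : Irred Γ)
    (h4 : finrank F V = 4) (hfA : Fm Γ A) (hfB : Fm Γ B)
    (hA : ∀ Z ∈ A, x1 ∈ Z ∨ y2 ∈ Z) (hB : ∀ Z ∈ B, x1 ∈ Z ∨ y2 ∈ Z) : Pair Γ := by
  have hindT : ∀ a b : F, a • x1 + b • y2 = 0 → a = 0 ∧ b = 0 :=
    indep_of_inf h.hX h.x1X h.y2X h.x10 h.y20
  have hindS : ∀ a b : F, a • x2 + b • y1 = 0 → a = 0 ∧ b = 0 :=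
    indep_of_inf h.hX h.x2X h.y1X h.x20 h.y10
  let T : Submodule F V := Submodule.span F {x1, y2}
  let S : Submodule F V := Submodule.span F {x2, y1}
  have hT2 : finrank F T = 2 := by
    have hli : LinearIndependent F ![x1, y2] := by
      rw [LinearIndependent.pair_iff]
      exact hindT
    have h1 := finrank_span_eq_card hli
    rw [Matrix.range_cons, Matrix.range_cons, Matrix.range_empty, Set.union_empty,
      Set.singleton_union] at h1
    simpa using h1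
  have hS2 : finrank F S = 2 := by
    have hli : LinearIndependent F ![x2, y1] := by
      rw [LinearIndependent.pair_iff]
      exact hindS
    have h1 := finrank_span_eq_card hli
    rw [Matrix.range_cons, Matrix.range_cons, Matrix.range_empty, Set.union_empty,
      Set.singleton_union] at h1
    simpa using h1
  have hTS : T ⊓ S = ⊥ := by
    rw [eq_bot_iff]
    rintro v ⟨hv1, hv2⟩
    obtain ⟨a, b, hab⟩ := Submodule.mem_span_pair.1 hv1
    obtain ⟨c, d, hcd⟩ := Submodule.mem_span_pair.1 hv2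
    have h1 := h.coords (a := a) (b := 0) (c := 0) (d := b) (a' := 0) (b' := c) (c' := d)
      (d' := 0) (by
        have e1 : a • x1 + (0 : F) • x2 + ((0 : F) • y1 + b • y2) = v := by
          rw [← hab]; simp
        have e2 : (0 : F) • x1 + c • x2 + (d • y1 + (0 : F) • y2) = v := by
          rw [← hcd]; simp
        rw [e1, e2])
    rw [Submodule.mem_bot, ← hab, h1.1, h1.2.2.2]
    simp
  have key : ∀ g ∈ Γ, T.map g = T ∨ T.map g = S := by
    intro g hg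
    obtain ⟨k, hk, e1, _⟩ := hΓ.inv g hg
    have hgk : ∀ v, g (k v) = v := fun v => by
      have := LinearMap.congr_fun e1 v; simpa using this
    have hmA : ∀ Z ∈ A, g x1 ∈ Z ∨ g y2 ∈ Z := by
      intro Z hZ
      rcases hA _ (hfA.map Z hZ k hk) with ⟨z, hz, hzx⟩ | ⟨z, hz, hzx⟩
      · left; rw [← hzx, hgk]; exact hz
      · right; rw [← hzx, hgk]; exact hz
    have hmB : ∀ Z ∈ B, g x1 ∈ Z ∨ g y2 ∈ Z := by
      intro Z hZ
      rcases hB _ (hfB.map Z hZ k hk) with ⟨z, hz, hzx⟩ | ⟨z, hz, hzx⟩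
      · left; rw [← hzx, hgk]; exact hz
      · right; rw [← hzx, hgk]; exact hz
    have hgx0 : g x1 ≠ 0 := fun h0 => h.x10 (hΓ.injective hg (by rw [h0, map_zero]))
    have hgy0 : g y2 ≠ 0 := fun h0 => h.y20 (hΓ.injective hg (by rw [h0, map_zero]))
    have hsep : ∀ {P Q : Submodule F V}, P ⊓ Q = ⊥ → ∀ {v : V}, v ≠ 0 → v ∈ P → v ∉ Q := by
      intro P Q hPQ v hv hP hQ
      have : v ∈ P ⊓ Q := ⟨hP, hQ⟩
      rw [hPQ] at this
      exact hv ((Submodule.mem_bot F).1 this)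
    have hsA : (g x1 ∈ X1 ∧ g y2 ∈ X2) ∨ (g y2 ∈ X1 ∧ g x1 ∈ X2) := by
      rcases hmA X1 h.mX1 with h1 | h1
      · exact Or.inl ⟨h1, (hmA X2 h.mX2).resolve_left (hsep h.hX hgx0 h1)⟩
      · exact Or.inr ⟨h1, (hmA X2 h.mX2).resolve_right (hsep h.hX hgy0 h1)⟩
    have hsB : (g x1 ∈ Y1 ∧ g y2 ∈ Y2) ∨ (g y2 ∈ Y1 ∧ g x1 ∈ Y2) := by
      rcases hmB Y1 h.mY1 with h1 | h1
      · exact Or.inl ⟨h1, (hmB Y2 h.mY2).resolve_left (hsep h.hY hgx0 h1)⟩
      · exact Or.inr ⟨h1, (hmB Y2 h.mY2).resolve_right (hsep h.hY hgy0 h1)⟩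
    have hmapT : ∀ {P : Submodule F V}, finrank F P = 2 → g x1 ∈ P → g y2 ∈ P → T.map g = P := by
      intro P hP hx hy
      apply Submodule.eq_of_le_of_finrank_le
      · rw [Submodule.map_le_iff_le_comap, Submodule.span_le]
        rintro v (rfl | rfl)
        · exact hx
        · exact hy
      · rw [hΓ.finrank_map hg, hT2, hP]
    have hx1T : x1 ∈ T := Submodule.subset_span (by simp)
    have hy2T : y2 ∈ T := Submodule.subset_span (by simp)
    have hx2S : x2 ∈ S := Submodule.subset_span (by simp)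
    have hy1S : y1 ∈ S := Submodule.subset_span (by simp)
    rcases hsA with ⟨h1, h2⟩ | ⟨h1, h2⟩ <;> rcases hsB with ⟨h3, h4⟩ | ⟨h3, h4⟩
    · left
      obtain ⟨c, hc⟩ := h.inter h1 h3
      obtain ⟨d, hd⟩ := h.swapX.swapY.inter h2 h4
      exact hmapT hT2 (hc ▸ T.smul_mem _ hx1T) (hd ▸ T.smul_mem _ hy2T)
    · right
      obtain ⟨c, hc⟩ := h.swapY.inter h1 h4
      obtain ⟨d, hd⟩ := h.swapX.inter h2 h3
      exact hmapT hS2 (hc ▸ S.smul_mem _ hx2S) (hd ▸ S.smul_mem _ hy1S)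
    · right
      obtain ⟨c, hc⟩ := h.swapX.inter h2 h3
      obtain ⟨d, hd⟩ := h.swapY.inter h1 h4
      exact hmapT hS2 (hc ▸ S.smul_mem _ hy1S) (hd ▸ S.smul_mem _ hx2S)
    · left
      obtain ⟨c, hc⟩ := h.swapX.swapY.inter h2 h4
      obtain ⟨d, hd⟩ := h.inter h1 h3
      exact hmapT hT2 (hc ▸ T.smul_mem _ hy2T) (hd ▸ T.smul_mem _ hx1T)
  by_cases hall : ∀ g ∈ Γ, T.map g = T
  · exfalso
    rcases hirr T (by
      intro g hg w hw
      rw [← hall g hg]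
      exact Submodule.mem_map_of_mem hw) with h1 | h1
    · rw [h1, finrank_bot] at hT2; omega
    · rw [h1, finrank_top] at hT2; omega
  · push Not at hall
    obtain ⟨g0, hg0, hne⟩ := hall
    have hg0S : T.map g0 = S := (key g0 hg0).resolve_left hne
    refine ⟨T, S, hT2, hS2, hTS, fun g hg => ⟨key g hg, ?_⟩⟩
    rw [← hg0S, ← Submodule.map_comp]
    have := key (g * g0) (hΓ.mul g hg g0 hg0)
    rw [hg0S]
    exact this

omit [FiniteDimensional F V] in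
theorem pair_of_two (hA : Fm Γ A) {P Q : Submodule F V} (hP : P ∈ A) (hQ : Q ∈ A)
    (hPQ : P ⊓ Q = ⊥) (hall : ∀ Z ∈ A, Z = P ∨ Z = Q) : Pair Γ :=
  ⟨P, Q, hA.dim P hP, hA.dim Q hQ, hPQ, fun g hg =>
    ⟨hall _ (hA.map P hP g hg), hall _ (hA.map Q hQ g hg)⟩⟩

theorem Conf.aux (h : Conf A B X1 X2 Y1 Y2 x1 x2 y1 y2) (hΓ : Grp Γ) (hirr : Irred Γ)
    (h4 : finrank F V = 4) (hfA : Fm Γ A) (hfB : Fm Γ B) {Z : Submodule F V} (hZ : Z ∈ A)
    (hZ1 : Z ≠ X1) (hx : x1 ∈ Z) {T0 : Submodule F V} (hT0 : T0 ∈ B) (hT1 : T0 ≠ Y1)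
    (hT2 : T0 ≠ Y2) : Pair Γ := by
  have hB : ∀ T ∈ B, x1 ∈ T ∨ y2 ∈ T := fun T hT => h.step hZ hZ1 hx hT
  refine h.pair_of_noThree hΓ hirr h4 hfA hfB ?_ hB
  intro T hT
  rcases hB T0 hT0 with h1 | h1
  · exact h.swapAB.step hT0 hT1 h1 hT
  · exact (h.swapX.swapY.swapAB.step hT0 hT2 h1 hT).symm

theorem Conf.noThree (h : Conf A B X1 X2 Y1 Y2 x1 x2 y1 y2) (hΓ : Grp Γ) (hirr : Irred Γ)
    (h4 : finrank F V = 4) (hfA : Fm Γ A) (hfB : Fm Γ B) (hA : NoThree A) : Pair Γ := by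
  by_cases hA2 : ∀ Z ∈ A, Z = X1 ∨ Z = X2
  · exact pair_of_two hfA h.mX1 h.mX2 h.hX hA2
  by_cases hB2 : ∀ Z ∈ B, Z = Y1 ∨ Z = Y2
  · exact pair_of_two hfB h.mY1 h.mY2 h.hY hB2
  push Not at hA2 hB2
  obtain ⟨Z, hZ, hZ1, hZ2⟩ := hA2
  obtain ⟨T, hT, hT1, hT2⟩ := hB2
  rcases h.contains hA hZ with h1 | h1 | h1 | h1
  · exact h.aux hΓ hirr h4 hfA hfB hZ hZ1 h1 hT hT1 hT2
  · exact h.swapY.aux hΓ hirr h4 hfA hfB hZ hZ1 h1 hT hT2 hT1
  · exact h.swapX.aux hΓ hirr h4 hfA hfB hZ hZ2 h1 hT hT1 hT2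
  · exact h.swapX.swapY.aux hΓ hirr h4 hfA hfB hZ hZ2 h1 hT hT2 hT1

/-! ### Three pairwise complementary members -/

theorem exists_conf (cross : ∀ X ∈ A, ∀ Y ∈ B, X ⊓ Y ≠ ⊥) (dA : ∀ X ∈ A, finrank F X = 2)
    (dB : ∀ Y ∈ B, finrank F Y = 2) {X1 X2 Y1 Y2 : Submodule F V} (mX1 : X1 ∈ A) (mX2 : X2 ∈ A)
    (mY1 : Y1 ∈ B) (mY2 : Y2 ∈ B) (hX : X1 ⊓ X2 = ⊥) (hY : Y1 ⊓ Y2 = ⊥) :
    ∃ x1 x2 y1 y2, Conf A B X1 X2 Y1 Y2 x1 x2 y1 y2 := by
  obtain ⟨x1, x1X, x1Y, x10⟩ := exists_meet (cross X1 mX1 Y1 mY1)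
  obtain ⟨x2, x2X, x2Y, x20⟩ := exists_meet (cross X1 mX1 Y2 mY2)
  obtain ⟨y1, y1X, y1Y, y10⟩ := exists_meet (cross X2 mX2 Y1 mY1)
  obtain ⟨y2, y2X, y2Y, y20⟩ := exists_meet (cross X2 mX2 Y2 mY2)
  exact ⟨x1, x2, y1, y2, cross, dA, dB, mX1, mX2, mY1, mY2, hX, hY, x1X, x1Y, x2X, x2Y, y1X, y1Y,
    y2X, y2Y, x10, x20, y10, y20⟩

/-- Two planes meeting two complementary planes and sharing a vector outside them are equal. -/
theorem eq_of_common {X X' T T' : Submodule F V} (hT : finrank F T = 2) (hT' : finrank F T' = 2)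
    (hX : X ⊓ X' = ⊥) (h1 : X ⊓ T ≠ ⊥) (h2 : X' ⊓ T ≠ ⊥) (h1' : X ⊓ T' ≠ ⊥) (h2' : X' ⊓ T' ≠ ⊥)
    {z : V} (hzT : z ∈ T) (hzT' : z ∈ T') (hzX : z ∉ X) (hzX' : z ∉ X') : T = T' := by
  have key : ∀ {T T' : Submodule F V}, finrank F T = 2 → finrank F T' = 2 → X ⊓ T ≠ ⊥ →
      X' ⊓ T ≠ ⊥ → X ⊓ T' ≠ ⊥ → X' ⊓ T' ≠ ⊥ → z ∈ T → z ∈ T' → T ≤ T' := by
    intro T T' hT hT' h1 h2 h1' h2' hzT hzT'
    obtain ⟨a, haX, haT, ha0⟩ := exists_meet h1
    obtain ⟨a', haX', haT', ha0'⟩ := exists_meet h2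
    obtain ⟨b, hbX, hbT, hb0⟩ := exists_meet h1'
    obtain ⟨b', hbX', hbT', hb0'⟩ := exists_meet h2'
    obtain ⟨s, t, hst⟩ := mem_pair hT haT haT' (indep_of_inf hX haX haX' ha0 ha0') hzT
    obtain ⟨s', t', hst'⟩ := mem_pair hT' hbT hbT' (indep_of_inf hX hbX hbX' hb0 hb0') hzT'
    have hs : s ≠ 0 := by
      rintro rfl
      apply hzX'
      rw [hst, zero_smul, zero_add]
      exact X'.smul_mem _ haX'
    have ht : t ≠ 0 := by
      rintro rfl
      apply hzX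
      rw [hst, zero_smul, add_zero]
      exact X.smul_mem _ haX
    have h3 : s • a - s' • b ∈ X ⊓ X' := by
      refine ⟨X.sub_mem (X.smul_mem _ haX) (X.smul_mem _ hbX), ?_⟩
      have e : s • a - s' • b = t' • b' - t • a' := by
        have : s • a + t • a' = s' • b + t' • b' := by rw [← hst, ← hst']
        rw [sub_eq_sub_iff_add_eq_add, this]
        abel
      rw [e]
      exact X'.sub_mem (X'.smul_mem _ hbX') (X'.smul_mem _ haX')
    rw [hX, Submodule.mem_bot, sub_eq_zero] at h3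
    have h4 : t • a' = t' • b' := by
      have : s • a + t • a' = s' • b + t' • b' := by rw [← hst, ← hst']
      rw [h3] at this
      exact add_left_cancel this
    apply le_of_pair hT haT haT' (indep_of_inf hX haX haX' ha0 ha0')
    · exact mem_of_smul hs (h3 ▸ T'.smul_mem _ hbT)
    · exact mem_of_smul ht (h4 ▸ T'.smul_mem _ hbT')
  exact le_antisymm (key hT hT' h1 h2 h1' h2' hzT hzT') (key hT' hT h1' h2' h1 h2 hzT' hzT)

/-- If `A` has three pairwise complementary members, distinct members of `B` are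
complementary. -/
theorem skew_of_three (cross : ∀ X ∈ A, ∀ Y ∈ B, X ⊓ Y ≠ ⊥)
    (dB : ∀ Y ∈ B, finrank F Y = 2) {X1 X2 X3 : Submodule F V} (mX1 : X1 ∈ A) (mX2 : X2 ∈ A)
    (mX3 : X3 ∈ A) (h12 : X1 ⊓ X2 = ⊥) (h13 : X1 ⊓ X3 = ⊥) (h23 : X2 ⊓ X3 = ⊥)
    {T T' : Submodule F V} (hT : T ∈ B) (hT' : T' ∈ B) (hne : T ≠ T') : T ⊓ T' = ⊥ := by
  by_contra hcon
  obtain ⟨z, hz1, hz2, hz0⟩ := exists_meet hcon
  have hsep : ∀ {P Q : Submodule F V}, P ⊓ Q = ⊥ → z ∈ P → z ∉ Q := by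
    intro P Q hPQ hP hQ
    have : z ∈ P ⊓ Q := ⟨hP, hQ⟩
    rw [hPQ] at this
    exact hz0 ((Submodule.mem_bot F).1 this)
  have go : ∀ {P Q : Submodule F V}, P ∈ A → Q ∈ A → P ⊓ Q = ⊥ → z ∉ P → z ∉ Q → False := by
    intro P Q hP hQ hPQ h1 h2
    exact hne (eq_of_common (dB T hT) (dB T' hT') hPQ (cross P hP T hT) (cross Q hQ T hT)
      (cross P hP T' hT') (cross Q hQ T' hT') hz1 hz2 h1 h2)
  by_cases h1 : z ∈ X1
  · exact go mX2 mX3 h23 (hsep h12 h1) (hsep h13 h1)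
  · by_cases h2 : z ∈ X2
    · exact go mX1 mX3 h13 h1 (hsep h23 h2)
    · exact go mX1 mX2 h12 h1 h2

/-- Normalised coordinates. -/
theorem Conf.normalise (h : Conf A B X1 X2 Y1 Y2 x1 x2 y1 y2) {X3 Y3 : Submodule F V}
    (mX3 : X3 ∈ A) (mY3 : Y3 ∈ B) (h13 : X1 ⊓ X3 = ⊥) (h23 : X2 ⊓ X3 = ⊥)
    (k13 : Y1 ⊓ Y3 = ⊥) (k23 : Y2 ⊓ Y3 = ⊥) :
    ∃ x1 x2 y1 y2, Conf A B X1 X2 Y1 Y2 x1 x2 y1 y2 ∧ x1 + y1 ∈ X3 ∧ x2 + y2 ∈ X3 ∧
      x1 + x2 ∈ Y3 ∧ y1 + y2 ∈ Y3 := by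
  obtain ⟨α, β, γ, δ, _, _, hp, hq, hmX⟩ := h.points mX3
  obtain ⟨l, m, r, w, _, _, hp', hq', hmY⟩ := h.swapAB.points mY3
  obtain ⟨v, hv1, hv2, hv0⟩ := exists_meet (h.cross X3 mX3 Y3 mY3)
  obtain ⟨s, t, hst⟩ := hmX v hv1
  obtain ⟨u, k, huk⟩ := hmY v hv2
  obtain ⟨e1, e2, e3, e4⟩ := h.coords (a := s * α) (b := t * γ) (c := s * β) (d := t * δ)
    (a' := u * l) (b' := u * m) (c' := k * r) (d' := k * w) (by
      have e1 : (s * α) • x1 + (t * γ) • x2 + ((s * β) • y1 + (t * δ) • y2) = v := by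
        rw [hst]
        simp only [smul_add, smul_smul]
        abel
      have e2 : (u * l) • x1 + (u * m) • x2 + ((k * r) • y1 + (k * w) • y2) = v := by
        rw [huk]
        simp only [smul_add, smul_smul]
      rw [e1, e2])
  have m1 : (s * α) • x1 + (s * β) • y1 ∈ X3 := by
    have := X3.smul_mem s hp
    simpa only [smul_add, smul_smul] using this
  have m2 : (t * γ) • x2 + (t * δ) • y2 ∈ X3 := by
    have := X3.smul_mem t hq
    simpa only [smul_add, smul_smul] using this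
  have m3 : (s * α) • x1 + (t * γ) • x2 ∈ Y3 := by
    rw [e1, e2]
    have := Y3.smul_mem u hp'
    simpa only [smul_add, smul_smul] using this
  have m4 : (s * β) • y1 + (t * δ) • y2 ∈ Y3 := by
    rw [e3, e4]
    have := Y3.smul_mem k hq'
    simpa only [smul_add, smul_smul] using this
  set x1' := (s * α) • x1 with hx1'
  set x2' := (t * γ) • x2 with hx2'
  set y1' := (s * β) • y1 with hy1'
  set y2' := (t * δ) • y2 with hy2'
  have hx1X : x1' ∈ X1 := X1.smul_mem _ h.x1X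
  have hx1Y : x1' ∈ Y1 := Y1.smul_mem _ h.x1Y
  have hx2X : x2' ∈ X1 := X1.smul_mem _ h.x2X
  have hx2Y : x2' ∈ Y2 := Y2.smul_mem _ h.x2Y
  have hy1X : y1' ∈ X2 := X2.smul_mem _ h.y1X
  have hy1Y : y1' ∈ Y1 := Y1.smul_mem _ h.y1Y
  have hy2X : y2' ∈ X2 := X2.smul_mem _ h.y2X
  have hy2Y : y2' ∈ Y2 := Y2.smul_mem _ h.y2Y
  have hzero : ∀ {P Q : Submodule F V}, P ⊓ Q = ⊥ → ∀ {a b : V}, a + b ∈ Q → a = 0 → b ∈ P →
      b = 0 := by
    intro P Q hPQ a b hab ha hb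
    rw [ha, zero_add] at hab
    have : b ∈ P ⊓ Q := ⟨hb, hab⟩
    rw [hPQ] at this
    exact (Submodule.mem_bot F).1 this
  have i1 : x1' = 0 → y1' = 0 := fun h0 => hzero h23 m1 h0 hy1X
  have i2 : y1' = 0 → x1' = 0 := fun h0 => hzero h13 (by rw [add_comm]; exact m1) h0 hx1X
  have i3 : x2' = 0 → y2' = 0 := fun h0 => hzero h23 m2 h0 hy2X
  have i4 : y2' = 0 → x2' = 0 := fun h0 => hzero h13 (by rw [add_comm]; exact m2) h0 hx2X
  have i5 : x1' = 0 → x2' = 0 := fun h0 => hzero k23 m3 h0 hx2Y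
  have i6 : x2' = 0 → x1' = 0 := fun h0 => hzero k13 (by rw [add_comm]; exact m3) h0 hx1Y
  have hx10 : x1' ≠ 0 := by
    intro h0
    apply hv0
    have : v = x1' + x2' + (y1' + y2') := by
      rw [hst, hx1', hx2', hy1', hy2']
      simp only [smul_add, smul_smul]
      abel
    rw [this, h0, i5 h0, i1 h0, i3 (i5 h0)]
    simp
  exact ⟨x1', x2', y1', y2', ⟨h.cross, h.dA, h.dB, h.mX1, h.mX2, h.mY1, h.mY2, h.hX, h.hY,
    hx1X, hx1Y, hx2X, hx2Y, hy1X, hy1Y, hy2X, hy2Y, hx10, fun h0 => hx10 (i6 h0),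
    fun h0 => hx10 (i2 h0), fun h0 => hx10 (i6 (i4 h0))⟩, m1, m2, m3, m4⟩

/-- In normalised coordinates the members of `A` are `y ⊗ F ^ 2`. -/
theorem Conf.form (h : Conf A B X1 X2 Y1 Y2 x1 x2 y1 y2) {Y3 : Submodule F V}
    (mY3 : Y3 ∈ B) (m3 : x1 + x2 ∈ Y3) (m4 : y1 + y2 ∈ Y3) {Z : Submodule F V} (hZ : Z ∈ A) :
    ∃ a b : F, ¬ (a = 0 ∧ b = 0) ∧ a • x1 + b • y1 ∈ Z ∧ a • x2 + b • y2 ∈ Z ∧
      ∀ v ∈ Z, ∃ s t : F, v = s • (a • x1 + b • y1) + t • (a • x2 + b • y2) := by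
  obtain ⟨a, b, c, d, _, _, hp, hq, hm⟩ := h.points hZ
  obtain ⟨v, hv1, hv2, hv0⟩ := exists_meet (h.cross Z hZ Y3 mY3)
  obtain ⟨s, t, hst⟩ := hm v hv1
  have hx120 : x1 + x2 ≠ 0 := by
    intro h0
    have h1 := h.indep (a := 1) (b := 1) (c := 0) (d := 0) (by
      rw [one_smul, one_smul, zero_smul, zero_smul, add_zero, add_zero]; exact h0)
    exact one_ne_zero h1.1
  have hy120 : y1 + y2 ≠ 0 := by
    intro h0
    have h1 := h.indep (a := 0) (b := 0) (c := 1) (d := 1) (by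
      rw [one_smul, one_smul, zero_smul, zero_smul, zero_add, zero_add]; exact h0)
    exact one_ne_zero h1.2.2.1
  obtain ⟨u, w, huw⟩ := mem_pair (h.dB Y3 mY3) m3 m4 (indep_of_inf h.hX
    (X1.add_mem h.x1X h.x2X) (X2.add_mem h.y1X h.y2X) hx120 hy120) hv2
  obtain ⟨e1, e2, e3, e4⟩ := h.coords (a := u) (b := u) (c := w) (d := w) (a' := s * a)
    (b' := t * c) (c' := s * b) (d' := t * d) (by
      have e1 : u • x1 + u • x2 + (w • y1 + w • y2) = v := by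
        rw [huw]
        simp only [smul_add]
      have e2 : (s * a) • x1 + (t * c) • x2 + ((s * b) • y1 + (t * d) • y2) = v := by
        rw [hst]
        simp only [smul_add, smul_smul]
        abel
      rw [e1, e2])
  have hne : ¬ (u = 0 ∧ w = 0) := by
    rintro ⟨rfl, rfl⟩
    rw [zero_smul, zero_smul, zero_add] at huw
    exact hv0 huw
  have hP : u • x1 + w • y1 ∈ Z := by
    rw [e1, e3]
    have := Z.smul_mem s hp
    simpa only [smul_add, smul_smul] using this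
  have hQ : u • x2 + w • y2 ∈ Z := by
    rw [e2, e4]
    have := Z.smul_mem t hq
    simpa only [smul_add, smul_smul] using this
  refine ⟨u, w, hne, hP, hQ, fun z hz => mem_pair (h.dA Z hZ) hP hQ ?_ hz⟩
  intro p q hpq
  obtain ⟨f1, f2, f3, f4⟩ := h.indep (a := p * u) (b := q * u) (c := p * w) (d := q * w) (by
    have : (p * u) • x1 + (q * u) • x2 + ((p * w) • y1 + (q * w) • y2) =
        p • (u • x1 + w • y1) + q • (u • x2 + w • y2) := by
      simp only [smul_add, smul_smul]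
      abel
    rw [this, hpq])
  constructor
  · by_contra hp0
    exact hne ⟨(mul_eq_zero.1 f1).resolve_left hp0, (mul_eq_zero.1 f3).resolve_left hp0⟩
  · by_contra hq0
    exact hne ⟨(mul_eq_zero.1 f2).resolve_left hq0, (mul_eq_zero.1 f4).resolve_left hq0⟩

end Pool.Agent.Lib.MP_55eb77_al
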