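import Pool.Agent.Lib.MP_55eb77_al.Four

/-!
Dimension four, rank two: the classification.
-/

set_option linter.unusedSimpArgs false
set_option linter.unusedSectionVars false

namespace Pool.Agent.Lib.MP_55eb77_al

open Function Finset Module

variable {F : Type*} [Field F] {V : Type*} [AddCommGroup V] [Module F V]
  [FiniteDimensional F V]

variable {Γ : Set (End F V)} {A B : Set (Submodule F V)}

variable {X1 X2 Y1 Y2 : Submodule F V} {x1 x2 y1 y2 : V}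

/-- The coordinates given by the four points. -/
def coordMap (x1 x2 y1 y2 : V) : Matrix (Fin 2) (Fin 2) F →ₗ[F] V where
  toFun := fun X => X 0 0 • x1 + X 1 0 • x2 + (X 0 1 • y1 + X 1 1 • y2)
  map_add' := by
    intro X Y
    simp only [Matrix.add_apply, add_smul]
    abel
  map_smul' := by
    intro c X
    simp only [Matrix.smul_apply, smul_add, smul_smul, smul_eq_mul, RingHom.id_apply]

omit [FiniteDimensional F V] in
theorem coordMap_apply (x1 x2 y1 y2 : V) (X : Matrix (Fin 2) (Fin 2) F) :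
    coordMap x1 x2 y1 y2 X = X 0 0 • x1 + X 1 0 • x2 + (X 0 1 • y1 + X 1 1 • y2) := rfl

theorem Conf.coordMap_inj (h : Conf A B X1 X2 Y1 Y2 x1 x2 y1 y2) :
    Function.Injective (coordMap (F := F) x1 x2 y1 y2) := by
  rw [injective_iff_map_eq_zero]
  intro X hX
  rw [coordMap_apply] at hX
  obtain ⟨h1, h2, h3, h4⟩ := h.indep hX
  ext i j
  fin_cases i <;> fin_cases j <;> simp [h1, h2, h3, h4]

theorem Conf.tensor (h : Conf A B X1 X2 Y1 Y2 x1 x2 y1 y2) (hΓ : Grp Γ)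
    (h4 : finrank F V = 4) (hfA : Fm Γ A) {X3 Y3 : Submodule F V} (mX3 : X3 ∈ A)
    (mY3 : Y3 ∈ B) (n1 : x1 + y1 ∈ X3) (n2 : x2 + y2 ∈ X3) (n3 : x1 + x2 ∈ Y3)
    (n4 : y1 + y2 ∈ Y3) : Tens Γ 2 2 := by
  have hfin : finrank F (Matrix (Fin 2) (Fin 2) F) = finrank F V := by
    rw [h4, Module.finrank_matrix]
    simp
  let e : Matrix (Fin 2) (Fin 2) F ≃ₗ[F] V :=
    LinearMap.linearEquivOfInjective _ h.coordMap_inj hfin
  have he : ∀ X, e X = X 0 0 • x1 + X 1 0 • x2 + (X 0 1 • y1 + X 1 1 • y2) := fun X => rfl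
  refine ⟨e, fun g hg => ?_⟩
  obtain ⟨α1, β1, h1, hP1, hQ1, hm1⟩ := h.form mY3 n3 n4 (hfA.map X1 h.mX1 g hg)
  obtain ⟨α2, β2, h2, hP2, hQ2, hm2⟩ := h.form mY3 n3 n4 (hfA.map X2 h.mX2 g hg)
  obtain ⟨α3, β3, h3, hP3, hQ3, hm3⟩ := h.form mY3 n3 n4 (hfA.map X3 mX3 g hg)
  obtain ⟨a11, a21, ea1⟩ := hm1 (g x1) (Submodule.mem_map_of_mem h.x1X)
  obtain ⟨a12, a22, ea2⟩ := hm1 (g x2) (Submodule.mem_map_of_mem h.x2X)
  obtain ⟨b11, b21, eb1⟩ := hm2 (g y1) (Submodule.mem_map_of_mem h.y1X)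
  obtain ⟨b12, b22, eb2⟩ := hm2 (g y2) (Submodule.mem_map_of_mem h.y2X)
  obtain ⟨c11, c21, ec1⟩ := hm3 (g (x1 + y1)) (Submodule.mem_map_of_mem n1)
  obtain ⟨c12, c22, ec2⟩ := hm3 (g (x2 + y2)) (Submodule.mem_map_of_mem n2)
  rw [map_add, ea1, eb1] at ec1
  rw [map_add, ea2, eb2] at ec2
  obtain ⟨p1, p2, p3, p4⟩ := h.coords (a := a11 * α1 + b11 * α2) (b := a21 * α1 + b21 * α2)
    (c := a11 * β1 + b11 * β2) (d := a21 * β1 + b21 * β2) (a' := c11 * α3) (b' := c21 * α3)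
    (c' := c11 * β3) (d' := c21 * β3) (by
      have e1 : (a11 * α1 + b11 * α2) • x1 + (a21 * α1 + b21 * α2) • x2 +
          ((a11 * β1 + b11 * β2) • y1 + (a21 * β1 + b21 * β2) • y2) =
          a11 • (α1 • x1 + β1 • y1) + a21 • (α1 • x2 + β1 • y2) +
            (b11 • (α2 • x1 + β2 • y1) + b21 • (α2 • x2 + β2 • y2)) := by module
      rw [e1, ec1]
      module)
  obtain ⟨q1, q2, q3, q4⟩ := h.coords (a := a12 * α1 + b12 * α2) (b := a22 * α1 + b22 * α2)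
    (c := a12 * β1 + b12 * β2) (d := a22 * β1 + b22 * β2) (a' := c12 * α3) (b' := c22 * α3)
    (c' := c12 * β3) (d' := c22 * β3) (by
      have e1 : (a12 * α1 + b12 * α2) • x1 + (a22 * α1 + b22 * α2) • x2 +
          ((a12 * β1 + b12 * β2) • y1 + (a22 * β1 + b22 * β2) • y2) =
          a12 • (α1 • x1 + β1 • y1) + a22 • (α1 • x2 + β1 • y2) +
            (b12 • (α2 • x1 + β2 • y1) + b22 • (α2 • x2 + β2 • y2)) := by module
      rw [e1, ec2]
      module)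
  -- the determinant
  have hinf : X1.map g ⊓ X2.map g = ⊥ := by
    rw [← Submodule.map_inf g (hΓ.injective hg), h.hX, Submodule.map_bot]
  have hD : α1 * β2 - α2 * β1 ≠ 0 := by
    intro h0
    have hv : α2 • (α1 • x1 + β1 • y1) = α1 • (α2 • x1 + β2 • y1) := by
      have : α2 • (α1 • x1 + β1 • y1) - α1 • (α2 • x1 + β2 • y1) =
          (-(α1 * β2 - α2 * β1)) • y1 := by module
      rw [h0, neg_zero, zero_smul, sub_eq_zero] at this
      exact this
    have hw : β2 • (α1 • x1 + β1 • y1) = β1 • (α2 • x1 + β2 • y1) := by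
      have : β2 • (α1 • x1 + β1 • y1) - β1 • (α2 • x1 + β2 • y1) =
          (α1 * β2 - α2 * β1) • x1 := by module
      rw [h0, zero_smul, sub_eq_zero] at this
      exact this
    have h5 : α2 • (α1 • x1 + β1 • y1) ∈ X1.map g ⊓ X2.map g :=
      ⟨Submodule.smul_mem _ _ hP1, hv ▸ Submodule.smul_mem _ _ hP2⟩
    have h6 : β2 • (α1 • x1 + β1 • y1) ∈ X1.map g ⊓ X2.map g :=
      ⟨Submodule.smul_mem _ _ hP1, hw ▸ Submodule.smul_mem _ _ hP2⟩
    rw [hinf, Submodule.mem_bot] at h5 h6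
    have hne : α1 • x1 + β1 • y1 ≠ 0 := by
      intro h7
      obtain ⟨f1, _, f3, _⟩ := h.indep (a := α1) (b := 0) (c := β1) (d := 0) (by
        rw [zero_smul, zero_smul, add_zero, add_zero]; exact h7)
      exact h1 ⟨f1, f3⟩
    exact h2 ⟨(smul_eq_zero.1 h5).resolve_right hne, (smul_eq_zero.1 h6).resolve_right hne⟩
  set D := α1 * β2 - α2 * β1 with hDdef
  set κ := α3 * β2 - β3 * α2 with hκ
  set μ := α1 * β3 - β1 * α3 with hμ
  have r11 : a11 = c11 * κ / D := by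
    rw [eq_div_iff hD, hDdef, hκ]; linear_combination β2 * p1 - α2 * p3
  have r21 : a21 = c21 * κ / D := by
    rw [eq_div_iff hD, hDdef, hκ]; linear_combination β2 * p2 - α2 * p4
  have r12 : a12 = c12 * κ / D := by
    rw [eq_div_iff hD, hDdef, hκ]; linear_combination β2 * q1 - α2 * q3
  have r22 : a22 = c22 * κ / D := by
    rw [eq_div_iff hD, hDdef, hκ]; linear_combination β2 * q2 - α2 * q4
  have s11 : b11 = c11 * μ / D := by
    rw [eq_div_iff hD, hDdef, hμ]; linear_combination α1 * p3 - β1 * p1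
  have s21 : b21 = c21 * μ / D := by
    rw [eq_div_iff hD, hDdef, hμ]; linear_combination α1 * p4 - β1 * p2
  have s12 : b12 = c12 * μ / D := by
    rw [eq_div_iff hD, hDdef, hμ]; linear_combination α1 * q3 - β1 * q1
  have s22 : b22 = c22 * μ / D := by
    rw [eq_div_iff hD, hDdef, hμ]; linear_combination α1 * q4 - β1 * q2
  refine ⟨!![c11, c12; c21, c22], !![κ * α1 / D, κ * β1 / D; μ * α2 / D, μ * β2 / D], fun X => ?_⟩
  rw [he, he, map_add, map_add, map_add, map_smul, map_smul, map_smul, map_smul, ea1, ea2, eb1,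
    eb2, r11, r21, r12, r22, s11, s21, s12, s22]
  simp only [Matrix.mul_apply, Fin.sum_univ_two, Matrix.of_apply, Matrix.cons_val', Matrix.cons_val_zero,
    Matrix.cons_val_one, Matrix.cons_val_fin_one]
  module

/-- One half of the classification in dimension four. -/
theorem pair_or_tens [Finite F] (hΓ : Grp Γ) (hirr : Irred Γ) (h4 : finrank F V = 4)
    (hfA : Fm Γ A) (hfB : Fm Γ B) (cross : ∀ X ∈ A, ∀ Y ∈ B, X ⊓ Y ≠ ⊥) :
    Pair Γ ∨ Tens Γ 2 2 := by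
  obtain ⟨X1, mX1, X2, mX2, hX⟩ := hfA.skew hΓ hirr h4
  obtain ⟨Y1, mY1, Y2, mY2, hY⟩ := hfB.skew hΓ hirr h4
  by_cases hA : NoThree A
  · obtain ⟨x1, x2, y1, y2, h⟩ := exists_conf cross hfA.dim hfB.dim mX1 mX2 mY1 mY2 hX hY
    exact Or.inl (h.noThree hΓ hirr h4 hfA hfB hA)
  · have hA' : ∃ X ∈ A, ∃ Y ∈ A, ∃ Z ∈ A, X ⊓ Y = ⊥ ∧ X ⊓ Z = ⊥ ∧ Y ⊓ Z = ⊥ := by
      by_contra hc
      apply hA
      intro X hX Y hY Z hZ h1 h2 h3
      exact hc ⟨X, hX, Y, hY, Z, hZ, h1, h2, h3⟩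
    obtain ⟨X1, mX1, X2, mX2, X3, mX3, h12, h13, h23⟩ := hA'
    by_cases hB2 : ∀ Z ∈ B, Z = Y1 ∨ Z = Y2
    · exact Or.inl (pair_of_two hfB mY1 mY2 hY hB2)
    · push Not at hB2
      obtain ⟨Y3, mY3, hne1, hne2⟩ := hB2
      have k13 : Y1 ⊓ Y3 = ⊥ := skew_of_three cross hfB.dim mX1 mX2 mX3 h12 h13 h23 mY1 mY3
        (Ne.symm hne1)
      have k23 : Y2 ⊓ Y3 = ⊥ := skew_of_three cross hfB.dim mX1 mX2 mX3 h12 h13 h23 mY2 mY3
        (Ne.symm hne2)
      obtain ⟨x1, x2, y1, y2, h⟩ := exists_conf cross hfA.dim hfB.dim mX1 mX2 mY1 mY2 h12 hY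
      obtain ⟨x1, x2, y1, y2, h, n1, n2, n3, n4⟩ := h.normalise mX3 mY3 h13 h23 k13 k23
      exact Or.inr (h.tensor hΓ h4 hfA mX3 mY3 n1 n2 n3 n4)

/-- The orbit of a subspace. -/
def orbS (Γ : Set (End F V)) (U : Submodule F V) : Set (Submodule F V) :=
  {X | ∃ g ∈ Γ, X = U.map g}

theorem fm_orbS (hΓ : Grp Γ) {U : Submodule F V} (hU : finrank F U = 2) : Fm Γ (orbS Γ U) where
  ne := ⟨_, 1, hΓ.one, rfl⟩
  dim := by
    rintro _ ⟨g, hg, rfl⟩
    rw [hΓ.finrank_map hg, hU]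
  map := by
    rintro _ ⟨g, hg, rfl⟩ k hk
    exact ⟨k * g, hΓ.mul k hk g hg, (Submodule.map_comp g k U).symm⟩

theorem meet_four [Finite F] (hΓ : Grp Γ) (h4 : finrank F V = 4) :
    Meet Γ 2 ↔ Irred Γ ∧ ¬ Pair Γ ∧ ¬ Tens Γ 2 2 := by
  constructor
  · intro h
    refine ⟨h.irred hΓ (by omega) (by omega), ?_, fun ht =>
      not_tens hΓ ht le_rfl le_rfl le_rfl (by omega) h⟩
    rintro ⟨X, Y, hX, hY, hXY, hperm⟩
    have hx : ∃ x ∈ X, x ≠ 0 := by
      apply Submodule.exists_mem_ne_zero_of_ne_bot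
      rintro rfl
      rw [finrank_bot] at hX
      omega
    have hy : ∃ y ∈ Y, y ≠ 0 := by
      apply Submodule.exists_mem_ne_zero_of_ne_bot
      rintro rfl
      rw [finrank_bot] at hY
      omega
    obtain ⟨x, hx, hx0⟩ := hx
    obtain ⟨y, hy, hy0⟩ := hy
    have hli : LinearIndependent F ![x, y] := by
      rw [LinearIndependent.pair_iff]
      exact indep_of_inf hXY hx hy hx0 hy0
    have hW : finrank F (Submodule.span F {x, y}) = 2 := by
      have h1 := finrank_span_eq_card hli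
      rw [Matrix.range_cons, Matrix.range_cons, Matrix.range_empty, Set.union_empty,
        Set.singleton_union] at h1
      simpa using h1
    obtain ⟨g, hg, hm⟩ := h X (Submodule.span F {x, y}) hX (by omega)
    rcases (hperm g hg).1 with h1 | h1
    · have : x ∈ X.map g ⊓ Submodule.span F {x, y} :=
        ⟨by rw [h1]; exact hx, Submodule.subset_span (by simp)⟩
      rw [hm] at this
      exact hx0 ((Submodule.mem_bot F).1 this)
    · have : y ∈ X.map g ⊓ Submodule.span F {x, y} :=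
        ⟨by rw [h1]; exact hy, Submodule.subset_span (by simp)⟩
      rw [hm] at this
      exact hy0 ((Submodule.mem_bot F).1 this)
  · rintro ⟨hirr, hP, hT⟩ U W hU hW
    by_contra hcon
    push Not at hcon
    have hW2 : finrank F W = 2 := by omega
    have hc : ∀ X ∈ orbS Γ U, ∀ Y ∈ orbS Γ W, X ⊓ Y ≠ ⊥ := by
      rintro _ ⟨g, hg, rfl⟩ _ ⟨k, hk, rfl⟩ hm
      obtain ⟨k', hk', e1, e2⟩ := hΓ.inv k hk
      apply hcon (k' * g) (hΓ.mul k' hk' g hg)
      rw [eq_bot_iff]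
      rintro w ⟨⟨u, hu, rfl⟩, hw⟩
      have h1 : k (k' (g u)) = g u := by
        have := LinearMap.congr_fun e1 (g u); simpa using this
      have h2 : g u ∈ U.map g ⊓ W.map k := ⟨⟨u, hu, rfl⟩, ⟨k' (g u), hw, h1⟩⟩
      rw [hm, Submodule.mem_bot] at h2
      show k' (g u) ∈ (⊥ : Submodule F V)
      rw [h2, map_zero]
      exact Submodule.zero_mem _
    rcases pair_or_tens hΓ hirr h4 (fm_orbS hΓ hU) (fm_orbS hΓ hW2) hc with h | h
    · exact hP h
    · exact hT h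

/-- The complete answer for rank two in dimension four. -/
theorem four_abstract [Finite F] (hΓ : Grp Γ) (h4 : finrank F V = 4) :
    (R1k Γ 2 ↔ Irred Γ ∧ ¬ Pair Γ ∧ ¬ Tens Γ 2 2) ∧
      (R2k Γ 2 ↔ Irred Γ ∧ ¬ Pair Γ ∧ ¬ Tens Γ 2 2) := by
  have h1 : R1k Γ 2 ↔ Irred Γ ∧ ¬ Pair Γ ∧ ¬ Tens Γ 2 2 := by
    rw [R1k_iff hΓ, meet_four hΓ h4]
  refine ⟨h1, fun h => h1.1 (R1k_of_R2k h), fun h => ?_⟩
  apply R2k_of_meet hΓ
  intro l hl1 hl2
  have hm2 : Meet Γ 2 := (meet_four hΓ h4).2 h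
  rcases (show l = 1 ∨ l = 2 by omega) with rfl | rfl
  · rw [← R1k_iff hΓ]
    exact R1k_of_R2k (R2_one_of_irred hΓ h.1)
  · exact hm2

end Pool.Agent.Lib.MP_55eb77_al
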