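import Pool.Agent.Lib.MP_55eb77_al.Small

/-!
The geometric form of (R1): every subspace of dimension `k` can be moved off every subspace of
codimension `k`.
-/

set_option linter.unusedSimpArgs false
set_option linter.unusedSectionVars false

namespace Pool.Agent.Lib.MP_55eb77_al

open Function Finset Module

variable {F : Type*} [Field F] [Finite F] {V : Type*} [AddCommGroup V] [Module F V]
  [FiniteDimensional F V]

/-- Every subspace of dimension `k` can be moved off every subspace of codimension `k`. -/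
def Meet (Γ : Set (End F V)) (k : ℕ) : Prop :=
  ∀ U W : Submodule F V, finrank F U = k → finrank F W + k = finrank F V →
    ∃ g ∈ Γ, U.map g ⊓ W = ⊥

omit [Finite F] [FiniteDimensional F V] in
theorem Grp.injective {Γ : Set (End F V)} (hΓ : Grp Γ) {g : End F V} (hg : g ∈ Γ) :
    Function.Injective g := by
  obtain ⟨h, _, _, e⟩ := hΓ.inv g hg
  intro x y hxy
  have h1 := LinearMap.congr_fun e x
  have h2 := LinearMap.congr_fun e y
  have h1' : h (g x) = x := by simpa using h1
  have h2' : h (g y) = y := by simpa using h2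
  rw [← h1', ← h2', hxy]

omit [Finite F] in
theorem Grp.finrank_map {Γ : Set (End F V)} (hΓ : Grp Γ) {g : End F V} (hg : g ∈ Γ)
    (U : Submodule F V) : finrank F (U.map g) = finrank F U :=
  LinearEquiv.finrank_eq (Submodule.equivMapOfInjective g (hΓ.injective hg) U).symm

omit [Finite F] in
/-- The rank of `b g b` is the rank of `b` as soon as `g` moves the range off the kernel. -/
theorem rank_of_meet {b g : End F V} (h : (LinearMap.range b).map g ⊓ LinearMap.ker b = ⊥)
    (hg : Function.Injective g) :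
    finrank F (LinearMap.range b) ≤ finrank F (LinearMap.range (b * g * b)) := by
  have hker : LinearMap.ker (b * g * b) ≤ LinearMap.ker b := by
    intro v hv
    have h1 : b (g (b v)) = 0 := hv
    have h2 : g (b v) ∈ (LinearMap.range b).map g ⊓ LinearMap.ker b :=
      ⟨⟨b v, ⟨v, rfl⟩, rfl⟩, h1⟩
    rw [h, Submodule.mem_bot] at h2
    have h3 : b v = 0 := hg (by rw [h2, map_zero])
    exact h3
  have h1 := LinearMap.finrank_range_add_finrank_ker b
  have h2 := LinearMap.finrank_range_add_finrank_ker (b * g * b)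
  have h3 := Submodule.finrank_mono hker
  omega

omit [Finite F] in
theorem meet_of_rank {b g : End F V}
    (h : finrank F (LinearMap.range b) ≤ finrank F (LinearMap.range (b * g * b))) :
    (LinearMap.range b).map g ⊓ LinearMap.ker b = ⊥ := by
  have hker : LinearMap.ker b ≤ LinearMap.ker (b * g * b) := by
    intro v hv
    have : b v = 0 := hv
    show b (g (b v)) = 0
    rw [this, map_zero, map_zero]
  have h1 := LinearMap.finrank_range_add_finrank_ker b
  have h2 := LinearMap.finrank_range_add_finrank_ker (b * g * b)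
  have h3 := Submodule.finrank_mono hker
  have heq : LinearMap.ker b = LinearMap.ker (b * g * b) :=
    Submodule.eq_of_le_of_finrank_le hker (by omega)
  rw [eq_bot_iff]
  rintro w ⟨⟨_, ⟨v, rfl⟩, rfl⟩, hw⟩
  have h4 : v ∈ LinearMap.ker (b * g * b) := hw
  rw [← heq] at h4
  have h5 : b v = 0 := h4
  show g (b v) = 0
  rw [h5, map_zero]

omit [Finite F] [FiniteDimensional F V] in
theorem closure_cases {Γ : Set (End F V)} (hΓ : Grp Γ) {a Y : End F V}
    (hY : Y ∈ Submonoid.closure (Γ ∪ {a})) : Y ∈ Γ ∨ ∃ g ∈ Γ, ∃ Z, Y = g * a * Z := by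
  induction hY using Submonoid.closure_induction_left with
  | one => exact Or.inl hΓ.one
  | mul_left y hy Y _ ih =>
    rcases hy with hy | hy
    · rcases ih with h | ⟨g, hg, Z, rfl⟩
      · exact Or.inl (hΓ.mul y hy Y h)
      · exact Or.inr ⟨y * g, hΓ.mul y hy g hg, Z, by simp only [mul_assoc]⟩
    · rw [Set.mem_singleton_iff] at hy
      subst hy
      exact Or.inr ⟨1, hΓ.one, Y, by rw [one_mul]⟩

omit [Finite F] in
theorem exists_range_ker (U W : Submodule F V) (h : finrank F W + finrank F U = finrank F V) :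
    ∃ a : End F V, LinearMap.range a = U ∧ LinearMap.ker a = W := by
  obtain ⟨C, hC⟩ := W.exists_isCompl
  have h1 : finrank F C = finrank F U := by
    have := Submodule.finrank_add_eq_of_isCompl hC
    omega
  let e : C ≃ₗ[F] U := LinearEquiv.ofFinrankEq _ _ h1
  let π : V →ₗ[F] C := C.projectionOnto W hC.symm
  refine ⟨U.subtype.comp (e.toLinearMap.comp π), ?_, ?_⟩
  · rw [LinearMap.range_comp, LinearMap.range_eq_top.2, Submodule.map_top,
      Submodule.range_subtype]
    apply Function.Surjective.comp e.surjective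
    intro c
    exact ⟨c, Submodule.projectionOnto_apply_left hC.symm c⟩
  · ext v
    rw [LinearMap.mem_ker, LinearMap.comp_apply, LinearMap.comp_apply, Submodule.subtype_apply,
      ZeroMemClass.coe_eq_zero]
    have : (e.toLinearMap (π v) = 0) ↔ π v = 0 := e.map_eq_zero_iff
    rw [this]
    exact Submodule.projectionOnto_apply_eq_zero_iff hC.symm

theorem R1k_iff {Γ : Set (End F V)} (hΓ : Grp Γ) (k : ℕ) : R1k Γ k ↔ Meet Γ k := by
  constructor
  · intro h U W hU hW
    obtain ⟨a, ha1, ha2⟩ := exists_range_ker U W (by rw [hU]; exact hW)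
    obtain ⟨Y, hY, hY2⟩ := h a (by rw [ha1, hU])
    have key : ∃ g ∈ Γ, finrank F (LinearMap.range a) ≤ finrank F (LinearMap.range (a * g * a)) := by
      rcases closure_cases hΓ hY with hYΓ | ⟨g, hg, Z, rfl⟩
      · exact ⟨Y, hYΓ, by rw [hY2]⟩
      · refine ⟨g, hg, ?_⟩
        have e : a * (g * a * Z) * a = a * g * a * (Z * a) := by simp only [mul_assoc]
        rw [e] at hY2
        conv_lhs => rw [← hY2]
        exact Submodule.finrank_mono (LinearMap.range_comp_le_range (Z * a) (a * g * a))
    obtain ⟨g, hg, hr⟩ := key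
    refine ⟨g, hg, ?_⟩
    rw [← ha1, ← ha2]
    exact meet_of_rank hr
  · intro h a ha
    obtain ⟨g, hg, hm⟩ := h (LinearMap.range a) (LinearMap.ker a) ha (by
      rw [← LinearMap.finrank_range_add_finrank_ker a, ha, add_comm])
    exact regular_of_rank _ a g (Submonoid.subset_closure (Or.inr rfl))
      (Submonoid.subset_closure (Or.inl hg)) (rank_of_meet hm (hΓ.injective hg))

theorem R2k_of_meet {Γ : Set (End F V)} (hΓ : Grp Γ) (k : ℕ)
    (h : ∀ l, 1 ≤ l → l ≤ k → Meet Γ l) : R2k Γ k := by
  intro a ha b hb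
  have hdich : b ∈ Γ ∨ finrank F (LinearMap.range b) ≤ k := by
    rcases closure_cases hΓ hb with hbΓ | ⟨g, hg, Z, rfl⟩
    · exact Or.inl hbΓ
    · right
      have h1 : LinearMap.range (g * a * Z) ≤ LinearMap.range (g * a) :=
        LinearMap.range_comp_le_range _ _
      have h2 : LinearMap.range (g * a) = (LinearMap.range a).map g := LinearMap.range_comp a g
      calc finrank F (LinearMap.range (g * a * Z)) ≤ finrank F (LinearMap.range (g * a)) :=
            Submodule.finrank_mono h1
        _ ≤ finrank F (LinearMap.range a) := by rw [h2]; exact Submodule.finrank_map_le _ _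
        _ = k := ha
  rcases hdich with hbΓ | hbk
  · obtain ⟨b', hb', e1, _⟩ := hΓ.inv b hbΓ
    exact ⟨b', Submonoid.subset_closure (Or.inl hb'), by rw [e1, one_mul]⟩
  · by_cases hb0 : finrank F (LinearMap.range b) = 0
    · rw [Submodule.finrank_eq_zero, LinearMap.range_eq_bot] at hb0
      exact ⟨1, Submonoid.one_mem _, by rw [hb0]; simp⟩
    · obtain ⟨g, hg, hm⟩ := h _ (Nat.one_le_iff_ne_zero.2 hb0) hbk (LinearMap.range b)
        (LinearMap.ker b) rfl (by
          rw [← LinearMap.finrank_range_add_finrank_ker b, add_comm])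
      exact regular_of_rank _ b g hb (Submonoid.subset_closure (Or.inl hg))
        (rank_of_meet hm (hΓ.injective hg))

omit [Finite F] in
theorem Meet.dual {Γ : Set (End F V)} (hΓ : Grp Γ) {k l : ℕ} (hkl : k + l = finrank F V)
    (h : Meet Γ k) : Meet Γ l := by
  intro U W hU hW
  obtain ⟨g, hg, hm⟩ := h W U (by omega) (by omega)
  obtain ⟨g', hg', e1, e2⟩ := hΓ.inv g hg
  refine ⟨g', hg', ?_⟩
  rw [eq_bot_iff]
  rintro _ ⟨⟨u, hu, rfl⟩, hw⟩
  have h3 : g (g' u) = u := by
    have := LinearMap.congr_fun e1 u; simpa using this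
  have h4 : u ∈ W.map g ⊓ U := ⟨⟨g' u, hw, h3⟩, hu⟩
  rw [hm, Submodule.mem_bot] at h4
  rw [h4, map_zero]
  exact Submodule.zero_mem _

omit [Finite F] in
/-- There are subspaces of all intermediate dimensions. -/
theorem exists_between (X Y : Submodule F V) (hXY : X ≤ Y) (m : ℕ) (h1 : finrank F X ≤ m)
    (h2 : m ≤ finrank F Y) : ∃ U : Submodule F V, X ≤ U ∧ U ≤ Y ∧ finrank F U = m := by
  induction m, h1 using Nat.le_induction with
  | base => exact ⟨X, le_rfl, hXY, rfl⟩
  | succ m hm ih =>
    obtain ⟨U, hU1, hU2, hU3⟩ := ih (by omega)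
    have hne : ∃ y ∈ Y, y ∉ U := by
      by_contra hcon
      push Not at hcon
      have := Submodule.finrank_mono (show Y ≤ U from hcon)
      omega
    obtain ⟨y, hy, hyU⟩ := hne
    refine ⟨U ⊔ Submodule.span F {y}, hU1.trans le_sup_left,
      sup_le hU2 ((Submodule.span_singleton_le_iff_mem y Y).2 hy), ?_⟩
    have h3 := Submodule.finrank_sup_add_finrank_inf_eq U (Submodule.span F {y})
    have h4 : U ⊓ Submodule.span F {y} = ⊥ := by
      rw [eq_bot_iff]
      rintro z ⟨hz1, hz2⟩
      obtain ⟨c, rfl⟩ := Submodule.mem_span_singleton.1 hz2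
      by_cases hc : c = 0
      · rw [hc, zero_smul]; exact Submodule.zero_mem _
      · exfalso
        apply hyU
        have := U.smul_mem c⁻¹ hz1
        rwa [smul_smul, inv_mul_cancel₀ hc, one_smul] at this
    have hy0 : y ≠ 0 := by
      rintro rfl
      exact hyU U.zero_mem
    rw [h4, finrank_bot, finrank_span_singleton hy0, hU3] at h3
    omega

omit [Finite F] in
/-- A subspace of dimension `k` with the largest or a prescribed smaller intersection with `X`. -/
theorem exists_dim (X : Submodule F V) (m k : ℕ) (h1 : m ≤ finrank F X) (h2 : m ≤ k)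
    (h3 : k ≤ finrank F V) :
    ∃ U U' : Submodule F V, U' ≤ U ∧ U' ≤ X ∧ finrank F U' = m ∧ finrank F U = k := by
  obtain ⟨U', _, hU'X, hU'⟩ := exists_between ⊥ X bot_le m (by simp) h1
  obtain ⟨U, hU, _, hUk⟩ := exists_between U' ⊤ le_top k (by omega) (by rw [finrank_top]; exact h3)
  exact ⟨U, U', hU, hU'X, hU', hUk⟩

omit [Finite F] in
/-- If `g` preserves `X` and `U`, `W` are too large inside `X`, then `g U` meets `W`. -/
theorem not_meet {Γ : Set (End F V)} (hΓ : Grp Γ) {X U W U' W' Y : Submodule F V} {g : End F V}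
    (hg : g ∈ Γ) (hX : X.map g ≤ Y) (h1 : U' ≤ U) (h2 : W' ≤ W) (h3 : U' ≤ X) (h4 : W' ≤ Y)
    (h5 : finrank F Y < finrank F U' + finrank F W') : U.map g ⊓ W ≠ ⊥ := by
  intro hm
  have h6 : U'.map g ⊓ W' = ⊥ := by
    rw [eq_bot_iff, ← hm]
    exact inf_le_inf (Submodule.map_mono h1) h2
  have h7 := Submodule.finrank_sup_add_finrank_inf_eq (U'.map g) W'
  rw [h6, finrank_bot, hΓ.finrank_map hg] at h7
  have h8 : U'.map g ⊔ W' ≤ Y := sup_le ((Submodule.map_mono h3).trans hX) h4
  have := Submodule.finrank_mono h8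
  omega

omit [Finite F] in
/-- (R1) for rank `k` with `1 ≤ k ≤ n - 1` implies irreducibility. -/
theorem Meet.irred {Γ : Set (End F V)} (hΓ : Grp Γ) {k : ℕ} (hk1 : 1 ≤ k)
    (hk2 : k + 1 ≤ finrank F V) (h : Meet Γ k) : Irred Γ := by
  intro X hX
  by_contra hcon
  push Not at hcon
  obtain ⟨hbot, htop⟩ := hcon
  have hd0 : 0 < finrank F X := by
    rw [Nat.pos_iff_ne_zero]
    intro h0
    exact hbot (Submodule.finrank_eq_zero.1 h0)
  have hd1 : finrank F X < finrank F V := Submodule.finrank_lt htop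
  obtain ⟨i, j, hi1, hi2, hj1, hj2, hij⟩ : ∃ i j, i ≤ finrank F X ∧ i ≤ k ∧ j ≤ finrank F X ∧
      j ≤ finrank F V - k ∧ finrank F X < i + j := by
    refine ⟨min k (finrank F X), min (finrank F V - k) (finrank F X), ?_⟩
    omega
  obtain ⟨U, U', hU1, hU2, hU3, hU4⟩ := exists_dim X i k hi1 hi2 (by omega)
  obtain ⟨W, W', hW1, hW2, hW3, hW4⟩ := exists_dim X j (finrank F V - k) hj1 hj2 (by omega)
  obtain ⟨g, hg, hm⟩ := h U W hU4 (by omega)
  refine not_meet hΓ hg (Y := X) ?_ hU1 hW1 hU2 hW2 (by omega) hm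
  rintro _ ⟨x, hx, rfl⟩
  exact hX g hg x hx

end Pool.Agent.Lib.MP_55eb77_al
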