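import Pool.Agent.Lib.MP_55eb77_al.Coord
import Pool.Agent.Lib.MP_55eb77_al.Fam

/-!
The monomial case.
-/

set_option linter.unusedSimpArgs false
set_option linter.unusedSectionVars false

namespace Pool.Agent.Lib.MP_55eb77_al

open Function Finset Module

variable {F : Type*} [Field F] [Finite F] {V : Type*} [AddCommGroup V] [Module F V]
  [FiniteDimensional F V] {ι : Type*} [Fintype ι] [DecidableEq ι] {l : ℕ}

/-- `g` permutes the lines of the frame `e` as `σ`. -/
def MonoAct (e : Basis ι F V) (g : End F V) (σ : Equiv.Perm ι) : Prop :=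
  ∃ c : ι → F, (∀ i, c i ≠ 0) ∧ ∀ i, g (e i) = c i • e (σ i)

/-- The component of a form of `N` is in `N`. -/
theorem component (e : Basis ι F V) (N : Submodule F (V [⋀^Fin l]→ₗ[F] F))
    (hP : ∀ c, Good N (e c) (e.coord c)) {η : V [⋀^Fin l]→ₗ[F] F} (hη : η ∈ N) {α : Fin l → ι}
    (hα : Injective α) (hne : η (fun i => e (α i)) ≠ 0) : EE e α ∈ N := by
  classical
  have key : ∀ s : Finset ι, ∃ η' ∈ N, ∀ β : Fin l → ι, Injective β →
      η' (fun i => e (β i)) = if ∀ c ∈ s, (c ∈ rg β ↔ c ∈ rg α) then η (fun i => e (β i)) else 0 := by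
    intro s
    induction s using Finset.induction_on with
    | empty => exact ⟨η, hη, fun β _ => by simp⟩
    | insert c s hc ih =>
      obtain ⟨η', hη', h1⟩ := ih
      by_cases hcα : c ∈ rg α
      · refine ⟨D (e c) (e.coord c) η', hP c η' hη', fun β hβ => ?_⟩
        rw [D_basis e η' c hβ, h1 β hβ]
        by_cases hcβ : c ∈ rg β
        · simp [hcα, hcβ]
        · simp [hcα, hcβ]
      · refine ⟨η' - D (e c) (e.coord c) η', N.sub_mem hη' (hP c η' hη'), fun β hβ => ?_⟩
        rw [AlternatingMap.sub_apply, D_basis e η' c hβ, h1 β hβ]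
        by_cases hcβ : c ∈ rg β
        · simp [hcα, hcβ]
        · simp [hcα, hcβ]
  obtain ⟨η', hη', h1⟩ := key univ
  have h2 : η' = η (fun i => e (α i)) • EE e α := by
    apply e.ext_alternating
    intro β hβ
    rw [h1 β hβ, AlternatingMap.smul_apply, smul_eq_mul]
    by_cases hr : rg α = rg β
    · rw [if_pos (by intro c _; rw [hr])]
      obtain ⟨σ, hσ⟩ := exists_perm hβ hr
      have e1 : η (fun i => e (β i)) = (Equiv.Perm.sign σ : ℤ) • η (fun i => e (α i)) := by
        conv_lhs => rw [hσ]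
        exact perm_ne e η _ σ
      have e2 : EE e α (fun i => e (β i)) = (Equiv.Perm.sign σ : ℤ) • (1 : F) := by
        rw [← EE_self e hα]
        have : (fun i => e (β i)) = fun i => e ((α ∘ σ) i) := by rw [← hσ]
        rw [this]
        exact perm_ne e _ _ σ
      rw [e1, e2]
      simp only [zsmul_eq_mul, mul_one]
      ring
    · have hex : ∃ i, β i ∉ rg α := by
        by_contra hcon
        push Not at hcon
        apply hr
        symm
        apply eq_of_subset_of_card_le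
        · intro x hx
          obtain ⟨j, rfl⟩ := mem_rg.1 hx
          exact hcon j
        · rw [card_rg hα, card_rg hβ]
      obtain ⟨i, hi⟩ := hex
      rw [EE_zero e _ _ i (β i) rfl hi, mul_zero, if_neg]
      intro h
      exact hi ((h (β i) (mem_univ _)).1 (mem_rg.2 ⟨i, rfl⟩))
  have h3 : EE e α = (η (fun i => e (α i)))⁻¹ • η' := by
    rw [h2, smul_smul, inv_mul_cancel₀ hne, one_smul]
  rw [h3]
  exact N.smul_mem _ hη'

/-- The supports of the coordinate forms in `N`. -/
def DD (e : Basis ι F V) (N : Submodule F (V [⋀^Fin l]→ₗ[F] F)) : Set (Finset ι) :=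
  {A | ∃ α : Fin l → ι, Injective α ∧ rg α = A ∧ EE e α ∈ N}

theorem EE_perm_ne (e : Basis ι F V) {α β : Fin l → ι} (hα : Injective α) (hβ : Injective β)
    (h : rg α = rg β) : EE e α (fun i => e (β i)) ≠ 0 := by
  obtain ⟨σ, hσ⟩ := exists_perm hβ h
  have e2 : EE e α (fun i => e (β i)) = (Equiv.Perm.sign σ : ℤ) • (1 : F) := by
    rw [← EE_self e hα]
    have : (fun i => e (β i)) = fun i => e ((α ∘ σ) i) := by rw [← hσ]
    rw [this]
    exact perm_ne e _ _ σ
  rw [e2]
  rcases Int.units_eq_one_or (Equiv.Perm.sign σ) with h | h <;> simp [h]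

theorem EE_eq_zero (e : Basis ι F V) {α β : Fin l → ι} (hα : Injective α) (hβ : Injective β)
    (h : rg α ≠ rg β) : EE e α (fun i => e (β i)) = 0 := by
  have hex : ∃ i, β i ∉ rg α := by
    by_contra hcon
    push Not at hcon
    apply h
    symm
    apply eq_of_subset_of_card_le
    · intro x hx
      obtain ⟨j, rfl⟩ := mem_rg.1 hx
      exact hcon j
    · rw [card_rg hα, card_rg hβ]
  obtain ⟨i, hi⟩ := hex
  exact EE_zero e _ _ i (β i) rfl hi

theorem EE_mem (e : Basis ι F V) (N : Submodule F (V [⋀^Fin l]→ₗ[F] F))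
    (hP : ∀ c, Good N (e c) (e.coord c)) {α : Fin l → ι} (hα : Injective α)
    (h : rg α ∈ DD e N) : EE e α ∈ N := by
  obtain ⟨α', h1, h2, h3⟩ := h
  exact component e N hP h3 hα (EE_perm_ne e h1 hα h2)

theorem mem_DD (e : Basis ι F V) (N : Submodule F (V [⋀^Fin l]→ₗ[F] F))
    (hP : ∀ c, Good N (e c) (e.coord c)) {η : V [⋀^Fin l]→ₗ[F] F} (hη : η ∈ N) {β : Fin l → ι}
    (hne : η (fun i => e (β i)) ≠ 0) : rg β ∈ DD e N :=
  ⟨β, inj_of_ne e hne, rfl, component e N hP hη (inj_of_ne e hne) hne⟩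

theorem MonoAct.inv {e : Basis ι F V} {g g' : End F V} {σ σ' : Equiv.Perm ι}
    (h : MonoAct e g σ) (h' : MonoAct e g' σ') (hgg : g' * g = 1) : σ' = σ.symm := by
  obtain ⟨c, hc, h1⟩ := h
  obtain ⟨c', hc', h1'⟩ := h'
  have key : ∀ i, σ' (σ i) = i := by
    intro i
    have h2 := LinearMap.congr_fun hgg (e i)
    have h3 : g' (g (e i)) = e i := by simpa using h2
    rw [h1, map_smul, h1', smul_smul] at h3
    by_contra hne
    have h4 := congrArg (e.coord i) h3
    simp only [map_smul, Basis.coord_apply, Basis.repr_self, Finsupp.single_apply, if_true,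
      smul_eq_mul] at h4
    rw [if_neg hne, mul_zero] at h4
    exact zero_ne_one h4
  ext i
  have h5 := key (σ.symm i)
  rw [Equiv.apply_symm_apply] at h5
  exact h5

theorem DD_image (e : Basis ι F V) (N : Submodule F (V [⋀^Fin l]→ₗ[F] F))
    (hP : ∀ c, Good N (e c) (e.coord c)) {g' : End F V} {τ σ : Equiv.Perm ι}
    (h : MonoAct e g' τ) (hτ : τ = σ.symm) (hN : ∀ η ∈ N, η.compLinearMap g' ∈ N) :
    ∀ A ∈ DD e N, A.image σ ∈ DD e N := by
  rintro _ ⟨α, hα, rfl, hE⟩
  obtain ⟨c, hc, h1⟩ := h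
  have h2 : (rg α).image σ = rg (σ ∘ α) := by
    rw [rg, rg, image_image]
  rw [h2]
  apply mem_DD e N hP (hN _ hE)
  have h3 : (EE e α).compLinearMap g' (fun i => e ((σ ∘ α) i)) =
      EE e α (fun i => c (σ (α i)) • e (α i)) := by
    rw [AlternatingMap.compLinearMap_apply]
    congr 1
    funext i
    simp [h1, hτ]
  rw [h3]
  have h4 : EE e α (fun i => c (σ (α i)) • e (α i)) =
      (∏ i, c (σ (α i))) • EE e α (fun i => e (α i)) :=
    (EE e α).toMultilinearMap.map_smul_univ _ _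
  rw [h4, EE_self e hα, smul_eq_mul, mul_one, prod_ne_zero_iff]
  intro i _
  exact hc _

theorem conj_psi (e : Basis ι F V) (N : Submodule F (V [⋀^Fin l]→ₗ[F] F))
    (hP : ∀ c, Good N (e c) (e.coord c)) {o : ι} {s s' : End F V}
    (hs : ∀ η ∈ N, η.compLinearMap s ∈ N) (hs' : ∀ η ∈ N, η.compLinearMap s' ∈ N)
    (hso : s' (e o) = 0) (hss : ∀ v, s (s' v) = v - e.coord o v • e o) {k m m' : ι}
    (h1 : e.coord m (s (e k)) ≠ 0) (h2 : e.coord k (s' (e m')) ≠ 0) :
    Psi (DD e N) o m' m := by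
  classical
  rintro A hA ho hmA hm'A
  obtain ⟨α, hα, rfl, hE⟩ := hA
  obtain ⟨i0, hi0⟩ := mem_rg.1 hmA
  have hm'o : m' ≠ o := by
    rintro rfl
    rw [hso] at h2
    simp at h2
  have hθ : (D (e k) (e.coord k) ((EE e α).compLinearMap s)).compLinearMap s' ∈ N :=
    hs' _ (hP k _ (hs _ hE))
  have hrg : rg (update α i0 m') = insert m' ((rg α).erase m) := by
    ext x
    rw [mem_rg, mem_insert, mem_erase, mem_rg]
    constructor
    · rintro ⟨j, rfl⟩
      by_cases hj : j = i0
      · subst hj; left; simp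
      · right
        rw [update_of_ne hj]
        refine ⟨?_, j, rfl⟩
        rw [← hi0]
        intro h
        exact hj (hα h)
    · rintro (rfl | ⟨hx, j, rfl⟩)
      · exact ⟨i0, by simp⟩
      · refine ⟨j, ?_⟩
        rw [update_of_ne]
        rintro rfl
        exact hx hi0
  rw [← hrg]
  apply mem_DD e N hP hθ
  rw [AlternatingMap.compLinearMap_apply, D_apply]
  have hterm : ∀ i, ((EE e α).compLinearMap s)
      (update (fun j => s' (e (update α i0 m' j))) i (e k)) =
      EE e α (update (fun j => e (update α i0 m' j)) i (s (e k))) := by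
    intro i
    rw [AlternatingMap.compLinearMap_apply]
    congr 1
    funext j
    by_cases hj : j = i
    · subst hj; simp
    · rw [update_of_ne hj, update_of_ne hj, hss]
      have hne : update α i0 m' j ≠ o := by
        by_cases hj0 : j = i0
        · subst hj0; simpa using hm'o
        · rw [update_of_ne hj0]
          intro h
          exact ho (mem_rg.2 ⟨j, h⟩)
      simp [Finsupp.single_apply, hne]
  simp only [hterm]
  rw [sum_eq_single i0]
  · have h3 : update (fun j => e (update α i0 m' j)) i0 (s (e k)) =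
        update (fun j => e (α j)) i0 (s (e k)) := by
      funext j
      by_cases hj : j = i0
      · subst hj; simp
      · simp [update_of_ne hj]
    rw [h3, EE_update e hα, hi0, update_self]
    exact mul_ne_zero h2 h1
  · intro i _ hi
    rw [EE_zero e α _ i0 m' (by rw [update_of_ne (Ne.symm hi)]; simp) hm'A, mul_zero]
  · simp

/-- Forms whose support avoids the family. -/
def Off (e : Basis ι F V) (N : Submodule F (V [⋀^Fin l]→ₗ[F] F))
    (η : V [⋀^Fin l]→ₗ[F] F) : Prop :=
  ∀ β : Fin l → ι, rg β ∈ DD e N → η (fun i => e (β i)) = 0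

theorem Off.mono {e : Basis ι F V} {N : Submodule F (V [⋀^Fin l]→ₗ[F] F)}
    {η : V [⋀^Fin l]→ₗ[F] F} (h : Off e N η) {g : End F V} {σ : Equiv.Perm ι}
    (hg : MonoAct e g σ) (hσ : ∀ A ∈ DD e N, A.image σ ∈ DD e N) :
    Off e N (η.compLinearMap g) := by
  intro β hβ
  obtain ⟨c, hc, h1⟩ := hg
  have h2 : (rg β).image σ = rg (σ ∘ β) := by
    rw [rg, rg, image_image]
  have h3 := h (σ ∘ β) (by rw [← h2]; exact hσ _ hβ)
  rw [AlternatingMap.compLinearMap_apply]
  have h4 : (fun i => g (e (β i))) = fun i => c (β i) • e (σ (β i)) := by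
    funext i; rw [h1]
  rw [h4]
  have h5 : η (fun i => c (β i) • e (σ (β i))) = (∏ i, c (β i)) • η (fun i => e (σ (β i))) :=
    η.toMultilinearMap.map_smul_univ _ _
  rw [h5]
  have h6 : η (fun i => e (σ (β i))) = 0 := h3
  rw [h6, smul_zero]

theorem Off.step {e : Basis ι F V} {N : Submodule F (V [⋀^Fin l]→ₗ[F] F)}
    (hP : ∀ c, Good N (e c) (e.coord c)) {o : ι} {s s' : End F V}
    (hs : ∀ η ∈ N, η.compLinearMap s ∈ N) (hs' : ∀ η ∈ N, η.compLinearMap s' ∈ N)
    (hso : s (e o) = 0) (hso' : s' (e o) = 0) (hsc : ∀ v, e.coord o (s v) = 0)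
    (hss : ∀ v, s (s' v) = v - e.coord o v • e o)
    (hss' : ∀ v, s' (s v) = v - e.coord o v • e o)
    (hsymm : ∀ j k, j ≠ o → k ≠ o → Psi (DD e N) o j k → Psi (DD e N) o k j)
    {η : V [⋀^Fin l]→ₗ[F] F} (h : Off e N η) : Off e N (η.compLinearMap s) := by
  classical
  intro β hβ
  by_contra hne
  rw [AlternatingMap.compLinearMap_apply] at hne
  have hob : ∀ i, β i ≠ o := by
    intro i hi
    apply hne
    apply η.map_coord_zero i
    rw [hi, hso]
  have hβinj : Injective β := by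
    obtain ⟨α, hα, h1, _⟩ := hβ
    have : (univ.image β).card = (univ : Finset (Fin l)).card := by
      have h2 := card_rg hα
      rw [h1] at h2
      rw [card_univ, Fintype.card_fin]
      exact h2
    have h3 := card_image_iff.1 this
    exact Set.injOn_univ.1 (by simpa using h3)
  obtain ⟨γ, hγ1, hγ2⟩ := exists_coord e η _ hne
  have hE : EE e β ∈ N := EE_mem e N hP hβinj hβ
  have hE' := hs' _ hE
  have hval : (EE e β).compLinearMap s' (fun i => s (e (β i))) ≠ 0 := by
    rw [AlternatingMap.compLinearMap_apply]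
    have : (fun i => s' (s (e (β i)))) = fun i => e (β i) := by
      funext i
      rw [hss']
      simp [Finsupp.single_apply, hob i]
    rw [this, EE_self e hβinj]
    exact one_ne_zero
  obtain ⟨δ, hδ1, hδ2⟩ := exists_coord e _ _ hval
  have hδD : rg δ ∈ DD e N := mem_DD e N hP hE' hδ2
  have hcne : ∀ (i : Fin l) (m : ι), e.coord m (s (e (β i))) ≠ 0 → m ≠ o := by
    rintro i m hm rfl
    exact hm (hsc _)
  have hrel : ∀ i, Psi (DD e N) o (γ i) (δ i) := by
    intro i
    have h1 : ∃ m1, e.coord m1 (s (e (β i))) ≠ 0 ∧ e.coord (β i) (s' (e m1)) ≠ 0 := by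
      have h2 : e.coord (β i) (s' (s (e (β i)))) = 1 := by
        rw [hss']
        simp [Finsupp.single_apply, hob i, Ne.symm (hob i)]
      have h3 : s (e (β i)) = ∑ m, e.coord m (s (e (β i))) • e m :=
        (e.sum_repr _).symm
      have h4 : e.coord (β i) (s' (s (e (β i)))) =
          ∑ m, e.coord m (s (e (β i))) * e.coord (β i) (s' (e m)) := by
        conv_lhs => rw [h3]
        rw [map_sum, map_sum]
        refine sum_congr rfl fun m _ => ?_
        rw [map_smul, map_smul, smul_eq_mul]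
      rw [h2] at h4
      obtain ⟨m, _, hm⟩ := exists_ne_zero_of_sum_ne_zero (h4 ▸ one_ne_zero)
      exact ⟨m, left_ne_zero_of_mul hm, right_ne_zero_of_mul hm⟩
    obtain ⟨m1, h3, h4⟩ := h1
    have e1 := conj_psi e N hP hs hs' hso' hss (hγ1 i) h4
    have e2 := conj_psi e N hP hs hs' hso' hss (hδ1 i) h4
    exact (hsymm m1 (γ i) (hcne i _ h3) (hcne i _ (hγ1 i)) e1).trans (hcne i _ (hγ1 i))
      (hcne i _ h3) e2
  have hγinj := inj_of_ne e hγ2
  have hδinj := inj_of_ne e hδ2
  apply hγ2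
  apply h γ
  apply exchange hsymm _ (rg γ) (rg δ) rfl (by rw [card_rg hγinj, card_rg hδinj]) ?_ ?_ hδD
  · intro x hx
    have hc : ∀ ε : Fin l → ι, Injective ε →
        ((rg ε).filter fun z => Psi (DD e N) o x z).card =
          (univ.filter fun i => Psi (DD e N) o x (ε i)).card := by
      intro ε hε
      rw [rg, filter_image, card_image_of_injective _ hε]
    rw [hc γ hγinj, hc δ hδinj]
    congr 1
    ext i
    simp only [mem_filter, mem_univ, true_and]
    constructor
    · intro h1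
      exact h1.trans hx (hcne i _ (hγ1 i)) (hrel i)
    · intro h1
      exact h1.trans hx (hcne i _ (hδ1 i))
        (hsymm _ _ (hcne i _ (hγ1 i)) (hcne i _ (hδ1 i)) (hrel i))
  · intro hmem
    obtain ⟨i, hi⟩ := mem_rg.1 hmem
    exact hcne i _ (hγ1 i) hi
  · intro hmem
    obtain ⟨i, hi⟩ := mem_rg.1 hmem
    exact hcne i _ (hδ1 i) hi

theorem mono_regular (e : Basis ι F V) {Γ : Set (End F V)} (hΓ : Grp Γ)
    {a s s' g₁ g₂ : End F V} {o : ι} {S : Submonoid (End F V)}
    (hS : S = Submonoid.closure (Γ ∪ {a}))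
    (hmono : ∀ g ∈ Γ, ∃ σ, MonoAct e g σ)
    (htrans : ∀ i j, ∃ g ∈ Γ, ∃ σ, MonoAct e g σ ∧ σ i = j)
    (hhom : ∀ i j i' j', i ≠ j → i' ≠ j' → ∃ g ∈ Γ, ∃ σ, MonoAct e g σ ∧
      ((σ i = i' ∧ σ j = j') ∨ (σ i = j' ∧ σ j = i')))
    (hproj : ∀ c, 1 + rk1 (-(e c)) (e.coord c) ∈ S)
    (hg₁ : g₁ ∈ Γ) (hg₂ : g₂ ∈ Γ) (ha : a = g₂ * s * g₁) (hs : s ∈ S) (hs' : s' ∈ S)
    (hso : s (e o) = 0) (hso' : s' (e o) = 0) (hsc : ∀ v, e.coord o (s v) = 0)
    (hss : ∀ v, s (s' v) = v - e.coord o v • e o)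
    (hss' : ∀ v, s' (s v) = v - e.coord o v • e o)
    (b : End F V) (hb : b ∈ S) : ∃ Y ∈ S, b * Y * b = b := by
  classical
  by_contra hnon
  push Not at hnon
  obtain ⟨l, u, v, hu, hv, hκ⟩ := of_nonregular S b hb hnon
  have hΓS : Γ ⊆ S := by
    rw [hS]
    exact fun g hg => Submonoid.subset_closure (Or.inl hg)
  have hN : ∀ y ∈ S, ∀ η ∈ NN (l := l) S u, η.compLinearMap y ∈ NN S u :=
    fun y hy η hη => comp_mem_NN hη hy
  have hP : ∀ c, Good (NN (l := l) S u) (e c) (e.coord c) := by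
    intro c
    apply good_of_proj hN (c := -1) (by simp)
    have := hproj c
    rwa [neg_one_smul]
  have hD : ∀ g ∈ Γ, ∀ σ, MonoAct e g σ → ∀ A ∈ DD e (NN (l := l) S u),
      A.image σ ∈ DD e (NN (l := l) S u) := by
    intro g hg σ hσ
    obtain ⟨g', hg', h1, h2⟩ := hΓ.inv g hg
    obtain ⟨σ', hσ'⟩ := hmono g' hg'
    exact DD_image e _ hP hσ' (MonoAct.inv hσ hσ' h2) (hN g' (hΓS hg'))
  have hcnt1 : ∀ g ∈ Γ, ∀ σ, MonoAct e g σ → ∀ i j,
      cnt (DD e (NN (l := l) S u)) (σ i) (σ j) = cnt (DD e (NN (l := l) S u)) i j := by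
    intro g hg σ hσ i j
    apply le_antisymm
    · obtain ⟨g', hg', h1, h2⟩ := hΓ.inv g hg
      obtain ⟨σ', hσ'⟩ := hmono g' hg'
      have h3 := cnt_le _ σ' (hD g' hg' σ' hσ') (σ i) (σ j)
      rw [MonoAct.inv hσ hσ' h2] at h3
      simpa using h3
    · exact cnt_le _ σ (hD g hg σ hσ) i j
  have hdeg : ∀ i j, deg (DD e (NN (l := l) S u)) i = deg (DD e (NN (l := l) S u)) j := by
    have : ∀ i j, deg (DD e (NN (l := l) S u)) i ≤ deg (DD e (NN (l := l) S u)) j := by
      intro i j
      obtain ⟨g, hg, σ, hσ, rfl⟩ := htrans i j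
      exact deg_le _ σ (hD g hg σ hσ) i
    exact fun i j => le_antisymm (this i j) (this j i)
  have hcnt2 : ∀ i j, cnt (DD e (NN (l := l) S u)) i j = cnt (DD e (NN (l := l) S u)) j i := by
    intro i j
    have h1 := cnt_add_both (DD e (NN (l := l) S u)) i j
    have h2 := cnt_add_both (DD e (NN (l := l) S u)) j i
    rw [both_comm] at h2
    rw [hdeg j i] at h1
    omega
  have hcnt3 : ∀ i j i' j', i ≠ j → i' ≠ j' →
      cnt (DD e (NN (l := l) S u)) i j = cnt (DD e (NN (l := l) S u)) i' j' := by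
    intro i j i' j' h1 h2
    obtain ⟨g, hg, σ, hσ, h3⟩ := hhom i j i' j' h1 h2
    rw [← hcnt1 g hg σ hσ]
    rcases h3 with ⟨h3, h4⟩ | ⟨h3, h4⟩
    · rw [h3, h4]
    · rw [h3, h4, hcnt2]
  have hsymm : ∀ j k, j ≠ o → k ≠ o → Psi (DD e (NN (l := l) S u)) o j k →
      Psi (DD e (NN (l := l) S u)) o k j :=
    fun j k hj hk h => h.symm_of_cnt (hcnt3 _ _ _ _ hj.symm hk.symm) hj
  obtain ⟨ω, hω⟩ := exists_form u hu
  obtain ⟨β, hβ, hβu⟩ := exists_EE_ne e u ω (by rw [hω]; exact one_ne_zero)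
  have hβD : rg β ∉ DD e (NN (l := l) S u) := by
    intro h
    have h1 := EE_mem e _ hP hβ h 1 S.one_mem
    exact hβu (by simpa using h1)
  have hoff : Off e (NN S u) (EE e β) := by
    intro γ hγ
    by_contra hne
    have hγinj := inj_of_ne e hne
    exact hne (EE_eq_zero e hβ hγinj (fun h => hβD (h ▸ hγ)))
  have hoffS : ∀ y ∈ S, ∀ η : V [⋀^Fin l]→ₗ[F] F, Off e (NN S u) η →
      Off e (NN S u) (η.compLinearMap y) := by
    intro y hy
    rw [hS] at hy
    have hgΓ : ∀ g ∈ Γ, ∀ η : V [⋀^Fin l]→ₗ[F] F, Off e (NN S u) η →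
        Off e (NN S u) (η.compLinearMap g) := by
      intro g hg η hη
      obtain ⟨σ, hσ⟩ := hmono g hg
      exact hη.mono hσ (hD g hg σ hσ)
    induction hy using Submonoid.closure_induction with
    | mem y hy =>
      intro η hη
      rcases hy with hy | hy
      · exact hgΓ y hy η hη
      · rw [Set.mem_singleton_iff] at hy
        subst hy
        have e1 : η.compLinearMap y = ((η.compLinearMap g₂).compLinearMap s).compLinearMap g₁ := by
          rw [ha]
          rfl
        rw [e1]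
        apply hgΓ _ hg₁
        apply Off.step hP (hN s hs) (hN s' hs') hso hso' hsc hss hss' hsymm
        exact hgΓ _ hg₂ _ hη
    | one => intro η hη; exact hη
    | mul x y _ _ hx hy =>
      intro η hη
      exact hy _ (hx _ hη)
  have hk1 := hκ (EE e β)
  have hk2 := hoffS b hb _ hoff
  have hk0 : (EE e β).compLinearMap b = 0 := by
    apply e.ext_alternating
    intro γ _
    by_contra hne
    exact hne (hk2 γ (mem_DD e _ hP hk1 hne))
  have h1 : (EE e β).compLinearMap b v = EE e β u := by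
    rw [AlternatingMap.compLinearMap_apply]
    congr 1
    funext i
    exact hv i
  rw [hk0] at h1
  exact hβu h1.symm

end Pool.Agent.Lib.MP_55eb77_al
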