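import Pool.Agent.Lib.MP_55eb77_al.Suff

/-!
Necessity of the criterion in corank one: the non regular element.
-/

set_option linter.unusedSimpArgs false
set_option linter.unusedSectionVars false

namespace Pool.Agent.Lib.MP_55eb77_al

open Function Finset Module

variable {F : Type*} [Field F] [Finite F] {V : Type*} [AddCommGroup V] [Module F V]
  [FiniteDimensional F V]

theorem ker_eq_of_reg {b Y : End F V} (h : b * Y * b = b) :
    LinearMap.ker (Y * b) = LinearMap.ker b := by
  ext v
  constructor
  · intro hv
    have h1 := LinearMap.congr_fun h v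
    have h2 : b (Y (b v)) = b v := h1
    have h3 : Y (b v) = 0 := hv
    rw [h3, map_zero] at h2
    exact h2.symm
  · intro hv
    show Y (b v) = 0
    rw [show b v = 0 from hv, map_zero]

theorem ker_mul_eq {b x y : End F V} (h : LinearMap.ker (x * y * b) = LinearMap.ker b) :
    LinearMap.ker (y * b) = LinearMap.ker b := by
  apply le_antisymm
  · intro v hv
    rw [← h]
    show x (y (b v)) = 0
    rw [show y (b v) = 0 from hv, map_zero]
  · intro v hv
    show y (b v) = 0
    rw [show b v = 0 from hv, map_zero]

/-- `f ∧ h` vanishes on the pairs of blocks outside `O`. -/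
def TT {r : ℕ} (W : Fin r → Submodule F V) (O : Fin r → Fin r → Prop) (f h : Dual F V) : Prop :=
  ∀ i i', ¬ O i i' → ∀ u ∈ W i, ∀ v ∈ W i', f u * h v - f v * h u = 0

/-- `f ∧ h ≠ 0`. -/
def Ind (f h : Dual F V) : Prop := ∃ u v, f u * h v - f v * h u ≠ 0

/-- The intersection of the kernels of `f, h` with `f ∧ h ≠ 0` has codimension two. -/
theorem eq_inf_ker {f h : Dual F V} (hi : Ind f h) {R : Submodule F V}
    (h1 : ∀ w ∈ R, f w = 0 ∧ h w = 0) (h2 : finrank F V ≤ finrank F R + 2) :
    ∀ w, f w = 0 → h w = 0 → w ∈ R := by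
  obtain ⟨u, v, huv⟩ := hi
  let K : Submodule F V := LinearMap.ker f ⊓ LinearMap.ker h
  have hRK : R ≤ K := fun w hw => ⟨(h1 w hw).1, (h1 w hw).2⟩
  have hsolve : ∀ α β : F, f (α • u + β • v) = 0 → h (α • u + β • v) = 0 → α = 0 ∧ β = 0 := by
    intro α β e1 e2
    rw [map_add, map_smul, map_smul, smul_eq_mul, smul_eq_mul] at e1 e2
    have e3 : α * (f u * h v - f v * h u) = 0 := by linear_combination h v * e1 - f v * e2
    have e4 : β * (f u * h v - f v * h u) = 0 := by linear_combination f u * e2 - h u * e1
    exact ⟨(mul_eq_zero.1 e3).resolve_right huv, (mul_eq_zero.1 e4).resolve_right huv⟩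
  have hli : LinearIndependent F ![u, v] := by
    rw [LinearIndependent.pair_iff]
    intro α β h0
    exact hsolve α β (by rw [h0, map_zero]) (by rw [h0, map_zero])
  have hspan : finrank F (Submodule.span F (Set.range ![u, v])) = 2 := by
    rw [finrank_span_eq_card hli]
    simp
  have hdisj : Disjoint K (Submodule.span F (Set.range ![u, v])) := by
    rw [Submodule.disjoint_def]
    intro w hw1 hw2
    rw [Matrix.range_cons, Matrix.range_cons, Matrix.range_empty, Set.union_empty,
      Set.singleton_union, Submodule.mem_span_pair] at hw2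
    obtain ⟨α, β, rfl⟩ := hw2
    obtain ⟨e1, e2⟩ := hsolve α β hw1.1 hw1.2
    rw [e1, e2]
    simp
  have h3 := Submodule.finrank_add_finrank_le_of_disjoint hdisj
  rw [hspan] at h3
  have h4 : R = K := Submodule.eq_of_le_of_finrank_le hRK (by omega)
  intro w hw1 hw2
  rw [h4]
  exact ⟨hw1, hw2⟩

/-- Data for the non regular element. -/
structure NecData (Γ : Set (End F V)) (r : ℕ) (W : Fin r → Submodule F V)
    (O : Fin r → Fin r → Prop) (i1 j k : Fin r) (p x z : V) (ps xs : Dual F V)
    (g g' : End F V) : Prop where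
  grp : Grp Γ
  sup : iSup W = ⊤
  perm : ∀ g ∈ Γ, ∀ i, ∃ j, (W i).map g = W j
  winj : ∀ i j, W i = W j → i = j
  osymm : ∀ a b, O a b → O b a
  oinv : ∀ g ∈ Γ, ∀ a b a' b', (W a).map g = W a' → (W b).map g = W b' → O a b → O a' b'
  oj : O i1 j
  ok : ¬ O i1 k
  hk : k ≠ i1
  pW : p ∈ W i1
  xW : x ∈ W j
  zW : z ∈ W k
  gΓ : g ∈ Γ
  g'Γ : g' ∈ Γ
  gW : (W i1).map g = W k
  g'W : (W i1).map g' = W j
  hx : x = g' p
  hz : z = g p
  ps0 : ∀ i, i ≠ i1 → ∀ v ∈ W i, ps v = 0
  psp : ps p = 1
  psx : ps x = 0
  xsx : xs x = 1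
  xsp : xs p = 0
  xsz : xs z = 0

namespace NecData

variable {Γ : Set (End F V)} {r : ℕ} {W : Fin r → Submodule F V} {O : Fin r → Fin r → Prop}
  {i1 j k : Fin r} {p x z : V} {ps xs : Dual F V} {g g' : End F V}

theorem hjk (D : NecData Γ r W O i1 j k p x z ps xs g g') : j ≠ k := by
  rintro rfl
  exact D.ok D.oj

theorem psz (D : NecData Γ r W O i1 j k p x z ps xs g g') : ps z = 0 := D.ps0 k D.hk z D.zW

/-- The functional `ps ∘ h'`, where `h'` is the inverse of `h` and `h W_{i1} = W_m`, lives on
`W_m`. -/
theorem supp (D : NecData Γ r W O i1 j k p x z ps xs g g') {h h' : End F V} (hh : h ∈ Γ)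
    (hh' : h' ∈ Γ) (e1 : h * h' = 1) {m : Fin r} (hm : (W i1).map h = W m) :
    ∀ i, i ≠ m → ∀ v ∈ W i, ps (h' v) = 0 := by
  intro i hi v hv
  obtain ⟨i'', hi''⟩ := D.perm h' hh' i
  have hmem : h' v ∈ W i'' := by rw [← hi'']; exact Submodule.mem_map_of_mem hv
  by_cases hc : i'' = i1
  · exfalso
    apply hi
    apply D.winj
    rw [← hm, ← hc, ← hi'', ← Submodule.map_comp]
    have : h.comp h' = LinearMap.id := e1
    rw [this, Submodule.map_id]
  · exact D.ps0 _ hc _ hmem

/-- The matrix of corank one. -/
def am (p z : V) (ps xs : Dual F V) : End F V := 1 - rk1 p ps + rk1 z xs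

theorem am_apply (p z : V) (ps xs : Dual F V) (v : V) :
    am p z ps xs v = v - ps v • p + xs v • z := rfl

theorem am_ker (D : NecData Γ r W O i1 j k p x z ps xs g g') (v : V) :
    am p z ps xs v = 0 ↔ ∃ c : F, v = c • p := by
  rw [am_apply]
  constructor
  · intro h
    have h1 := congrArg xs h
    rw [map_add, map_sub, map_smul, map_smul, D.xsp, D.xsz, map_zero] at h1
    simp only [smul_eq_mul, mul_zero, sub_zero, add_zero] at h1
    rw [h1, zero_smul, add_zero, sub_eq_zero] at h
    exact ⟨_, h⟩
  · rintro ⟨c, rfl⟩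
    rw [map_smul, map_smul, D.psp, D.xsp]
    simp

theorem am_pow (D : NecData Γ r W O i1 j k p x z ps xs g g') (t : ℕ) (v : V) :
    (am p z ps xs ^ (t + 1)) v = v - ps v • p + ((t + 1 : ℕ) : F) • (xs v • z) := by
  have haz : am p z ps xs z = z := by
    rw [am_apply, D.psz, D.xsz]; simp
  have hap : am p z ps xs p = 0 := (D.am_ker p).2 ⟨1, by simp⟩
  induction t with
  | zero => simp [am_apply]
  | succ t ih =>
    rw [pow_succ']
    show am p z ps xs ((am p z ps xs ^ (t + 1)) v) = _
    rw [ih, map_add, map_sub, map_smul, map_smul, map_smul, haz, hap, am_apply]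
    push_cast
    simp only [smul_zero, sub_zero, add_smul, one_smul]
    abel

theorem proj_mem (D : NecData Γ r W O i1 j k p x z ps xs g g') {S : Submonoid (End F V)}
    (ha : am p z ps xs ∈ S) : 1 - rk1 p ps ∈ S := by
  obtain ⟨ℓ, hℓ⟩ := CharP.exists F
  have hne : ℓ ≠ 0 := CharP.char_ne_zero_of_finite F ℓ
  obtain ⟨t, rfl⟩ := Nat.exists_eq_succ_of_ne_zero hne
  have : 1 - rk1 p ps = am p z ps xs ^ (t + 1) := by
    ext v
    rw [D.am_pow t v, show ((t + 1 : ℕ) : F) = 0 from CharP.cast_eq_zero F (t + 1)]
    simp
  rw [this]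
  exact S.pow_mem ha _

theorem main (D : NecData Γ r W O i1 j k p x z ps xs g g') :
    ∃ b ∈ Submonoid.closure (Γ ∪ {am p z ps xs}),
      ∀ Y ∈ Submonoid.closure (Γ ∪ {am p z ps xs}), b * Y * b ≠ b := by
  classical
  obtain ⟨gi, hgi, e1, e2⟩ := D.grp.inv g D.gΓ
  obtain ⟨g'i, hg'i, e1', e2'⟩ := D.grp.inv g' D.g'Γ
  set S := Submonoid.closure (Γ ∪ {am p z ps xs}) with hS
  have hΓS : ∀ h ∈ Γ, h ∈ S := fun h hh => Submonoid.subset_closure (Or.inl hh)
  have haS : am p z ps xs ∈ S := Submonoid.subset_closure (Or.inr rfl)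
  have hπS : 1 - rk1 p ps ∈ S := D.proj_mem haS
  -- the functionals
  have hginv : ∀ v, gi (g v) = v := fun v => by
    have := LinearMap.congr_fun e2 v; simpa using this
  have hg'inv : ∀ v, g'i (g' v) = v := fun v => by
    have := LinearMap.congr_fun e2' v; simpa using this
  have hginv2 : ∀ v, g (gi v) = v := fun v => by
    have := LinearMap.congr_fun e1 v; simpa using this
  have hg'inv2 : ∀ v, g' (g'i v) = v := fun v => by
    have := LinearMap.congr_fun e1' v; simpa using this
  have hk0 : ∀ i, i ≠ k → ∀ v ∈ W i, ps (gi v) = 0 := D.supp D.gΓ hgi e1 D.gW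
  have hj0 : ∀ i, i ≠ j → ∀ v ∈ W i, ps (g'i v) = 0 := D.supp D.g'Γ hg'i e1' D.g'W
  have hgiz : ps (gi z) = 1 := by rw [D.hz, hginv, D.psp]
  have hg'ix : ps (g'i x) = 1 := by rw [D.hx, hg'inv, D.psp]
  have hgip : ps (gi p) = 0 := hk0 i1 D.hk.symm p D.pW
  have hgix : ps (gi x) = 0 := hk0 j D.hjk x D.xW
  -- the elements
  have hc : ∀ v, (g * (1 - rk1 p ps) * gi) v = v - ps (gi v) • z := by
    intro v
    show g (gi v - ps (gi v) • p) = _
    rw [map_sub, map_smul, hginv2, D.hz]
  have hE : ∀ v, (g' * (1 - rk1 p ps) * g'i) v = v - ps (g'i v) • x := by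
    intro v
    show g' (g'i v - ps (g'i v) • p) = _
    rw [map_sub, map_smul, hg'inv2, D.hx]
  have hcS : g * (1 - rk1 p ps) * gi ∈ S := S.mul_mem (S.mul_mem (hΓS _ D.gΓ) hπS) (hΓS _ hgi)
  have hES : g' * (1 - rk1 p ps) * g'i ∈ S :=
    S.mul_mem (S.mul_mem (hΓS _ D.g'Γ) hπS) (hΓS _ hg'i)
  set c := g * (1 - rk1 p ps) * gi with hcdef
  set E := g' * (1 - rk1 p ps) * g'i with hEdef
  have hbv : ∀ v, (E * am p z ps xs * c) v = E (am p z ps xs (c v)) := fun v => rfl
  have hbp : (E * am p z ps xs * c) p = 0 := by
    rw [hbv, hc, hgip, zero_smul, sub_zero, (D.am_ker p).2 ⟨1, by simp⟩, map_zero]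
  have hbz : (E * am p z ps xs * c) z = 0 := by
    rw [hbv, hc, hgiz, one_smul, sub_self, map_zero, map_zero]
  have hker : ∀ v, (E * am p z ps xs * c) v = 0 → ∃ α β : F, v = α • p + β • z := by
    intro v hv
    rw [hbv, hE] at hv
    set u := c v with hu
    set s := ps (g'i (am p z ps xs u)) with hs
    have hu0 : ps (gi u) = 0 := by
      rw [hu, hc, map_sub, map_sub, map_smul, map_smul, hgiz]
      simp
    have h1 : u - ps u • p + xs u • z = s • x := by
      rw [← am_apply, ← sub_eq_zero]
      exact hv
    have h2 := congrArg (fun w => ps (gi w)) h1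
    simp only [map_add, map_sub, map_smul, hu0, hgip, hgiz, hgix, smul_eq_mul, mul_zero, mul_one,
      sub_zero, zero_add] at h2
    rw [h2, zero_smul, add_zero] at h1
    have h3 := congrArg xs h1
    rw [map_sub, map_smul, map_smul, D.xsp, D.xsx, h2] at h3
    simp only [smul_eq_mul, mul_zero, mul_one, sub_zero] at h3
    rw [← h3, zero_smul, sub_eq_zero] at h1
    refine ⟨ps u, ps (gi v), ?_⟩
    rw [← h1, hu, hc]
    abel
  have hrank : ∀ Y : End F V, LinearMap.ker (Y * (E * am p z ps xs * c)) =
      LinearMap.ker (E * am p z ps xs * c) →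
      finrank F V ≤ finrank F (LinearMap.range (Y * (E * am p z ps xs * c))) + 2 := by
    intro Y hY
    rw [← LinearMap.finrank_range_add_finrank_ker (Y * (E * am p z ps xs * c)), hY]
    have hle : LinearMap.ker (E * am p z ps xs * c) ≤ Submodule.span F {p, z} := by
      intro v hv
      obtain ⟨α, β, rfl⟩ := hker v hv
      exact Submodule.mem_span_pair.2 ⟨α, β, rfl⟩
    have h1 := Submodule.finrank_mono hle
    have h2 : finrank F (Submodule.span F ({p, z} : Set V)) ≤ 2 := by
      have h3 := finrank_span_finset_le_card (R := F) ({p, z} : Finset V)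
      have h4 : (({p, z} : Finset V) : Set V) = {p, z} := by simp
      rw [h4] at h3
      exact h3.trans Finset.card_le_two
    omega
  -- the invariant
  have key : ∀ Y ∈ S, LinearMap.ker (Y * (E * am p z ps xs * c)) =
      LinearMap.ker (E * am p z ps xs * c) →
      ∃ f h : Dual F V, Ind f h ∧ TT W O f h ∧
        ∀ w ∈ LinearMap.range (Y * (E * am p z ps xs * c)), f w = 0 ∧ h w = 0 := by
    intro Y hY
    induction hY using Submonoid.closure_induction_left with
    | one =>
      intro _
      refine ⟨ps.comp g'i, ps, ⟨x, p, ?_⟩, ?_, ?_⟩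
      · show ps (g'i x) * ps p - ps (g'i p) * ps x ≠ 0
        rw [hg'ix, D.psp, D.psx]
        simp
      · intro i i' hii' u hu v hv
        show ps (g'i u) * ps v - ps (g'i v) * ps u = 0
        have h1 : ps (g'i u) * ps v = 0 := by
          by_cases hi : i = j
          · by_cases hi' : i' = i1
            · exact absurd (D.osymm _ _ D.oj) (by rw [hi, hi'] at hii'; exact hii')
            · rw [D.ps0 i' hi' v hv, mul_zero]
          · rw [hj0 i hi u hu, zero_mul]
        have h2 : ps (g'i v) * ps u = 0 := by
          by_cases hi' : i' = j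
          · by_cases hi : i = i1
            · exact absurd D.oj (by rw [hi, hi'] at hii'; exact hii')
            · rw [D.ps0 i hi u hu, mul_zero]
          · rw [hj0 i' hi' v hv, zero_mul]
        rw [h1, h2, sub_zero]
      · rintro _ ⟨v, rfl⟩
        have h0 : (1 * (E * am p z ps xs * c)) v = E (am p z ps xs (c v)) := by
          rw [one_mul]
          rfl
        rw [h0, hE]
        set w := am p z ps xs (c v) with hw
        constructor
        · show ps (g'i (w - ps (g'i w) • x)) = 0
          rw [map_sub, map_sub, map_smul, map_smul, hg'ix]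
          simp
        · rw [map_sub, map_smul, D.psx, smul_zero, sub_zero, hw, am_apply, map_add, map_sub,
            map_smul, map_smul, D.psp, D.psz]
          simp
    | mul_left y hy Y hYS ih =>
      intro hker2
      have hker1 := ker_mul_eq hker2
      obtain ⟨f, h, hi, hT, hv⟩ := ih hker1
      rcases hy with hy | hy
      · -- group element
        obtain ⟨y', hy', f1, f2⟩ := D.grp.inv y hy
        have hyinv : ∀ v, y' (y v) = v := fun v => by
          have := LinearMap.congr_fun f2 v; simpa using this
        have hyinv2 : ∀ v, y (y' v) = v := fun v => by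
          have := LinearMap.congr_fun f1 v; simpa using this
        refine ⟨f.comp y', h.comp y', ?_, ?_, ?_⟩
        · obtain ⟨u, v, huv⟩ := hi
          refine ⟨y u, y v, ?_⟩
          show f (y' (y u)) * h (y' (y v)) - f (y' (y v)) * h (y' (y u)) ≠ 0
          rw [hyinv, hyinv]
          exact huv
        · intro i i' hii' u hu v hv
          obtain ⟨m, hm⟩ := D.perm y' hy' i
          obtain ⟨m', hm'⟩ := D.perm y' hy' i'
          have hback : ∀ a b, (W a).map y' = W b → (W b).map y = W a := by
            intro a b hab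
            rw [← hab, ← Submodule.map_comp]
            have : y.comp y' = LinearMap.id := f1
            rw [this, Submodule.map_id]
          apply hT m m' (fun hO => hii' (D.oinv y hy m m' i i' (hback _ _ hm) (hback _ _ hm') hO))
          · rw [← hm]; exact Submodule.mem_map_of_mem hu
          · rw [← hm']; exact Submodule.mem_map_of_mem hv
        · rintro _ ⟨v, rfl⟩
          have h0 : (y * Y * (E * am p z ps xs * c)) v = y ((Y * (E * am p z ps xs * c)) v) := rfl
          rw [h0]
          show f (y' (y _)) = 0 ∧ h (y' (y _)) = 0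
          rw [hyinv]
          exact hv _ ⟨v, rfl⟩
      · -- the element `a`
        rw [Set.mem_singleton_iff] at hy
        subst hy
        have hap : am p z ps xs p = 0 := (D.am_ker p).2 ⟨1, by simp⟩
        -- a basis `f1, h1` of the span with `f1 p = 0`, `h1 p = 1`
        have hex : ∃ f1 h1 : Dual F V, f1 p = 0 ∧ h1 p = 1 ∧ Ind f1 h1 ∧ TT W O f1 h1 ∧
            ∀ w, f w = 0 → h w = 0 → f1 w = 0 ∧ h1 w = 0 := by
          by_cases hhp : h p = 0
          · by_cases hfp : f p = 0
            · exfalso
              have hp := eq_inf_ker hi hv (hrank Y hker1) p hfp hhp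
              obtain ⟨v, hvp⟩ := hp
              have h1 : v ∈ LinearMap.ker (am p z ps xs * Y * (E * am p z ps xs * c)) := by
                show am p z ps xs ((Y * (E * am p z ps xs * c)) v) = 0
                rw [hvp, hap]
              rw [hker2, ← hker1] at h1
              have h2 : (Y * (E * am p z ps xs * c)) v = 0 := h1
              rw [h2] at hvp
              have := D.psp
              rw [← hvp, map_zero] at this
              exact zero_ne_one this
            · refine ⟨h, (f p)⁻¹ • f, hhp, ?_, ?_, ?_, ?_⟩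
              · rw [LinearMap.smul_apply, smul_eq_mul, inv_mul_cancel₀ hfp]
              · obtain ⟨u, v, huv⟩ := hi
                refine ⟨v, u, ?_⟩
                rw [LinearMap.smul_apply, LinearMap.smul_apply, smul_eq_mul, smul_eq_mul]
                have : h v * ((f p)⁻¹ * f u) - h u * ((f p)⁻¹ * f v) =
                    (f p)⁻¹ * (f u * h v - f v * h u) := by ring
                rw [this]
                exact mul_ne_zero (inv_ne_zero hfp) huv
              · intro i i' hii' u hu v hv
                rw [LinearMap.smul_apply, LinearMap.smul_apply, smul_eq_mul, smul_eq_mul]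
                have := hT i i' hii' u hu v hv
                linear_combination -(f p)⁻¹ * this
              · intro w h1 h2
                exact ⟨h2, by rw [LinearMap.smul_apply, h1, smul_zero]⟩
          · refine ⟨f - (f p * (h p)⁻¹) • h, (h p)⁻¹ • h, ?_, ?_, ?_, ?_, ?_⟩
            · rw [LinearMap.sub_apply, LinearMap.smul_apply, smul_eq_mul]
              field_simp
              ring
            · rw [LinearMap.smul_apply, smul_eq_mul, inv_mul_cancel₀ hhp]
            · obtain ⟨u, v, huv⟩ := hi
              refine ⟨u, v, ?_⟩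
              simp only [LinearMap.sub_apply, LinearMap.smul_apply, smul_eq_mul]
              have : (f u - f p * (h p)⁻¹ * h u) * ((h p)⁻¹ * h v) -
                  (f v - f p * (h p)⁻¹ * h v) * ((h p)⁻¹ * h u) =
                  (h p)⁻¹ * (f u * h v - f v * h u) := by ring
              rw [this]
              exact mul_ne_zero (inv_ne_zero hhp) huv
            · intro i i' hii' u hu v hv
              simp only [LinearMap.sub_apply, LinearMap.smul_apply, smul_eq_mul]
              have := hT i i' hii' u hu v hv
              linear_combination (h p)⁻¹ * this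
            · intro w h1 h2
              simp only [LinearMap.sub_apply, LinearMap.smul_apply, h1, h2, smul_zero, sub_zero]
              exact ⟨trivial, trivial⟩
        obtain ⟨f1, h1, hf1p, hh1p, hi1, hT1, hv1⟩ := hex
        have hf1z : f1 z = 0 := by
          have := hT1 i1 k D.ok p D.pW z D.zW
          rw [hf1p, hh1p] at this
          simpa using this
        refine ⟨f1, ps, ?_, ?_, ?_⟩
        · obtain ⟨u, v, huv⟩ := hi1
          have hex2 : ∃ w, f1 w ≠ 0 := by
            by_contra hcon
            push Not at hcon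
            rw [hcon, hcon] at huv
            simp at huv
          obtain ⟨w, hw⟩ := hex2
          refine ⟨w, p, ?_⟩
          rw [D.psp, hf1p]
          simpa using hw
        · intro i i' hii' u hu v hv
          have a1 : f1 u * ps v = 0 := by
            by_cases hi' : i' = i1
            · have h3 := hT1 i i' hii' u hu p (by rw [hi']; exact D.pW)
              rw [hf1p, hh1p] at h3
              have h4 : f1 u = 0 := by simpa using h3
              rw [h4, zero_mul]
            · rw [D.ps0 i' hi' v hv, mul_zero]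
          have a2 : f1 v * ps u = 0 := by
            by_cases hi' : i = i1
            · have h3 := hT1 i' i (fun hO => hii' (D.osymm _ _ hO)) v hv p
                (by rw [hi']; exact D.pW)
              rw [hf1p, hh1p] at h3
              have h4 : f1 v = 0 := by simpa using h3
              rw [h4, zero_mul]
            · rw [D.ps0 i hi' u hu, mul_zero]
          rw [a1, a2, sub_zero]
        · rintro _ ⟨v, rfl⟩
          have h0 : (am p z ps xs * Y * (E * am p z ps xs * c)) v =
              am p z ps xs ((Y * (E * am p z ps xs * c)) v) := rfl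
          rw [h0]
          have h5 := hv _ ⟨v, rfl⟩
          have h6 := hv1 _ h5.1 h5.2
          set w := (Y * (E * am p z ps xs * c)) v with hw
          constructor
          · rw [am_apply, map_add, map_sub, map_smul, map_smul, hf1p, hf1z, h6.1]
            simp
          · rw [am_apply, map_add, map_sub, map_smul, map_smul, D.psp, D.psz]
            simp
  refine ⟨E * am p z ps xs * c, S.mul_mem (S.mul_mem hES haS) hcS, fun Y hY hreg => ?_⟩
  have hker1 := ker_eq_of_reg hreg
  obtain ⟨f, h, hi, hT, hv⟩ := key Y hY hker1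
  have hpz : f p * h z - f z * h p = 0 := hT i1 k D.ok p D.pW z D.zW
  have hex : ∃ α β : F, (α ≠ 0 ∨ β ≠ 0) ∧ f (α • p + β • z) = 0 ∧ h (α • p + β • z) = 0 := by
    by_cases hf : f z = 0 ∧ f p = 0
    · by_cases hh : h z = 0 ∧ h p = 0
      · refine ⟨1, 0, Or.inl one_ne_zero, ?_, ?_⟩
        · simp [hf.2]
        · simp [hh.2]
      · refine ⟨h z, -h p, ?_, ?_, ?_⟩
        · by_contra hcon
          push Not at hcon
          exact hh ⟨hcon.1, neg_eq_zero.1 hcon.2⟩
        · simp [hf.1, hf.2]
        · simp only [map_add, map_smul, smul_eq_mul]; ring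
    · refine ⟨f z, -f p, ?_, ?_, ?_⟩
      · by_contra hcon
        push Not at hcon
        exact hf ⟨hcon.1, neg_eq_zero.1 hcon.2⟩
      · simp only [map_add, map_smul, smul_eq_mul]; ring
      · simp only [map_add, map_smul, smul_eq_mul]
        linear_combination -hpz
  obtain ⟨α, β, hαβ, h1, h2⟩ := hex
  obtain ⟨v, hvw⟩ := eq_inf_ker hi hv (hrank Y hker1) _ h1 h2
  set b := E * am p z ps xs * c with hb
  have h3 : b (α • p + β • z) = 0 := by
    rw [map_add, map_smul, map_smul, hbp, hbz]; simp
  have h4 : b v = 0 := by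
    have h5 := LinearMap.congr_fun hreg v
    have h6 : b ((Y * b) v) = b v := h5
    rw [hvw, h3] at h6
    exact h6.symm
  have h7 : (Y * b) v = 0 := by
    show Y (b v) = 0
    rw [h4, map_zero]
  rw [h7] at hvw
  have h8 := congrArg ps hvw
  rw [map_zero, map_add, map_smul, map_smul, D.psp, D.psz] at h8
  have hα : α = 0 := by simpa using h8.symm
  have h9 := congrArg (fun w => ps (gi w)) hvw
  simp only [map_zero, map_add, map_smul, hgip, hgiz, smul_eq_mul, mul_zero, mul_one,
    zero_add] at h9
  rcases hαβ with h10 | h10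
  · exact h10 hα
  · exact h10 h9.symm

end NecData

end Pool.Agent.Lib.MP_55eb77_al
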