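import Pool.Agent.Lib.MP_55eb77_al.Meet

/-!
Obstructions to (R1) for ranks `2 ≤ k ≤ n - 2`: systems of imprimitivity and tensor products.
-/

set_option linter.unusedSimpArgs false
set_option linter.unusedSectionVars false

namespace Pool.Agent.Lib.MP_55eb77_al

open Function Finset Module

variable {F : Type*} [Field F] {V : Type*} [AddCommGroup V] [Module F V]
  [FiniteDimensional F V]

theorem finrank_sup_le {ι : Type*} (s : Finset ι) (E : ι → Submodule F V) :
    finrank F (s.sup E : Submodule F V) ≤ ∑ i ∈ s, finrank F (E i) := by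
  classical
  induction s using Finset.induction_on with
  | empty => simp
  | insert i s hi ih =>
    rw [Finset.sup_insert, Finset.sum_insert hi]
    exact (Submodule.finrank_add_le_finrank_add_finrank _ _).trans (Nat.add_le_add_left ih _)

theorem finrank_sup_eq {ι : Type*} {W : ι → Submodule F V} (hind : iSupIndep W)
    (s : Finset ι) :
    finrank F (s.sup W : Submodule F V) = ∑ i ∈ s, finrank F (W i) := by
  classical
  induction s using Finset.induction_on with
  | empty => simp
  | insert i s hi ih =>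
    rw [Finset.sup_insert, Finset.sum_insert hi, ← ih]
    have h1 := Submodule.finrank_sup_add_finrank_inf_eq (W i) (s.sup W)
    have h2 : W i ⊓ s.sup W = ⊥ := by
      rw [← disjoint_iff]
      apply (hind i).mono_right
      apply Finset.sup_le
      intro j hj
      exact le_iSup₂ (f := fun (m : ι) (_ : m ≠ i) => W m) j (fun h => hi (h ▸ hj))
    rw [h2, finrank_bot] at h1
    omega

theorem sum_block {r : ℕ} {W : Fin r → Submodule F V} (hind : iSupIndep W) (hsup : iSup W = ⊤)
    {d : ℕ} (hd : ∀ i, finrank F (W i) = d) : r * d = finrank F V := by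
  have h1 := finrank_sup_eq hind univ
  rw [Finset.sup_univ_eq_iSup, hsup, finrank_top] at h1
  rw [h1, Finset.sum_congr rfl (fun i _ => hd i)]
  simp

variable {Γ : Set (End F V)}

theorem block_primal (hΓ : Grp Γ) {k : ℕ} (hk2 : 2 ≤ k) (hkn : k ≤ finrank F V)
    (h : Meet Γ k) {r : ℕ} {W : Fin r → Submodule F V} (hr : 2 ≤ r)
    (hind : iSupIndep W) (hsup : iSup W = ⊤)
    (hperm : ∀ g ∈ Γ, ∀ i, ∃ j, (W i).map g = W j) {d : ℕ} (hd1 : 2 ≤ d)
    (hd : ∀ i, finrank F (W i) = d) (hcase : k < d ∨ r ≤ finrank F V - k) : False := by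
  classical
  have hn := sum_block hind hsup hd
  -- dimensions: `m` inside one block, `e` inside every block
  obtain ⟨m, e, hm1, hm2, he1, he2, hme⟩ : ∃ m e, m ≤ d ∧ m ≤ k ∧ e ≤ d ∧ r * e ≤ finrank F V - k ∧
      d < m + e := by
    rcases Nat.lt_or_ge k d with hkd | hkd
    · obtain ⟨t, ht⟩ : ∃ t, d = k + t := ⟨d - k, by omega⟩
      refine ⟨k, t + 1, hkd.le, le_rfl, by omega, ?_, by omega⟩
      rw [← hn, ht]
      apply Nat.le_sub_of_add_le
      nlinarith [Nat.mul_le_mul hr (show 1 ≤ k by omega)]
    · refine ⟨d, 1, le_rfl, hkd, by omega, ?_, by omega⟩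
      rcases hcase with h1 | h1
      · omega
      · omega
  have hEx : ∀ i, ∃ E : Submodule F V, E ≤ W i ∧ finrank F E = e := by
    intro i
    obtain ⟨E, _, h2, h3⟩ := exists_between ⊥ (W i) bot_le e (by simp) (by rw [hd i]; exact he1)
    exact ⟨E, h2, h3⟩
  choose E hE1 hE2 using hEx
  have hEsum : finrank F (univ.sup E : Submodule F V) ≤ finrank F V - k := by
    refine (finrank_sup_le univ E).trans ?_
    rw [Finset.sum_congr rfl (fun i _ => hE2 i)]
    simpa using he2
  obtain ⟨X, hX1, _, hX2⟩ := exists_between (univ.sup E) ⊤ le_top (finrank F V - k) hEsum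
    (by rw [finrank_top]; omega)
  have hr0 : 0 < r := by omega
  obtain ⟨U, U', hU1, hU2, hU3, hU4⟩ := exists_dim (W ⟨0, hr0⟩) m k (by rw [hd]; exact hm1) hm2 hkn
  obtain ⟨g, hg, hm⟩ := h U X hU4 (by omega)
  obtain ⟨j, hj⟩ := hperm g hg ⟨0, hr0⟩
  refine not_meet hΓ hg (X := W ⟨0, hr0⟩) (Y := W j) hj.le hU1
    (W' := E j) ((Finset.le_sup (mem_univ j)).trans hX1) hU2 (hE1 j) ?_ hm
  rw [hd, hU3, hE2]
  exact hme

/-- For `2 ≤ k ≤ n - 2` the blocks of a system of imprimitivity are lines. -/
theorem block_dim [Finite F] (hΓ : Grp Γ) {k : ℕ} (hk2 : 2 ≤ k) (hkn : k + 2 ≤ finrank F V)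
    (h : Meet Γ k) {r : ℕ} {W : Fin r → Submodule F V} (hr : 2 ≤ r)
    (hW : ∀ i, W i ≠ ⊥) (hind : iSupIndep W) (hsup : iSup W = ⊤)
    (hperm : ∀ g ∈ Γ, ∀ i, ∃ j, (W i).map g = W j) (i : Fin r) : finrank F (W i) = 1 := by
  have hirr : Irred Γ := h.irred hΓ (by omega) (by omega)
  have hd : ∀ j, finrank F (W j) = finrank F (W i) := by
    intro j
    obtain ⟨g, hg, hgj⟩ := blocks_trans hΓ hirr hW hind hperm i j
    rw [← hgj, hΓ.finrank_map hg]
  have h0 : finrank F (W i) ≠ 0 := fun h0 => hW i (Submodule.finrank_eq_zero.1 h0)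
  by_contra h1
  have hd2 : 2 ≤ finrank F (W i) := by omega
  have hn := sum_block hind hsup hd
  set d := finrank F (W i) with hdd
  by_cases hcase : r ≤ finrank F V - k
  · exact block_primal hΓ hk2 (by omega) h hr hind hsup hperm hd2 hd (Or.inr hcase)
  · have h' : Meet Γ (finrank F V - k) := h.dual hΓ (by omega)
    refine block_primal hΓ (k := finrank F V - k) (by omega) (by omega) h' hr hind hsup hperm hd2 hd
      (Or.inr ?_)
    have : r * 2 ≤ r * d := Nat.mul_le_mul_left r hd2
    omega

/-- For `k ≤ n` the lines of a monomial system are permuted `k`-homogeneously. -/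
theorem block_homog {k : ℕ} (h : Meet Γ k) {r : ℕ}
    {W : Fin r → Submodule F V} (hind : iSupIndep W)
    (hsup : iSup W = ⊤) (hd : ∀ i, finrank F (W i) = 1)
    (hperm : ∀ g ∈ Γ, ∀ i, ∃ j, (W i).map g = W j) (I J : Finset (Fin r)) (hI : I.card = k)
    (hJ : J.card = k) : ∃ g ∈ Γ, ∀ i ∈ I, ∃ j ∈ J, (W i).map g = W j := by
  classical
  have hn := sum_block hind hsup hd
  rw [mul_one] at hn
  have hf : ∀ s : Finset (Fin r), finrank F (s.sup W : Submodule F V) = s.card := by
    intro s
    rw [finrank_sup_eq hind s, Finset.sum_congr rfl (fun i _ => hd i)]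
    simp
  have hJr : J.card ≤ r := by
    have := Finset.card_le_univ J
    simpa using this
  obtain ⟨g, hg, hm⟩ := h (I.sup W) (Jᶜ.sup W) (by rw [hf, hI]) (by
    rw [hf, Finset.card_compl, Fintype.card_fin, ← hn]
    omega)
  refine ⟨g, hg, fun i hi => ?_⟩
  obtain ⟨j, hj⟩ := hperm g hg i
  refine ⟨j, ?_, hj⟩
  by_contra hjJ
  have h1 : W j ≤ (I.sup W).map g ⊓ Jᶜ.sup W := by
    refine le_inf ?_ (Finset.le_sup (by rw [mem_compl]; exact hjJ))
    rw [← hj]
    exact Submodule.map_mono (Finset.le_sup hi)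
  rw [hm, le_bot_iff] at h1
  have := hd j
  rw [h1, finrank_bot] at this
  omega

/-! ### Tensor products -/

/-- `V` is identified with the `a × b` matrices in such a way that every element of `Γ` acts as
`X ↦ A X B`. -/
def Tens (Γ : Set (End F V)) (a b : ℕ) : Prop :=
  ∃ e : Matrix (Fin a) (Fin b) F ≃ₗ[F] V, ∀ g ∈ Γ, ∃ (A : Matrix (Fin a) (Fin a) F)
    (B : Matrix (Fin b) (Fin b) F), ∀ X, g (e X) = e (A * X * B)

omit [FiniteDimensional F V] in
theorem Tens.symm {a b : ℕ} (h : Tens Γ a b) : Tens Γ b a := by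
  obtain ⟨e, he⟩ := h
  refine ⟨(Matrix.transposeLinearEquiv (Fin b) (Fin a) F F).trans e, fun g hg => ?_⟩
  obtain ⟨A, B, hAB⟩ := he g hg
  refine ⟨B.transpose, A.transpose, fun X => ?_⟩
  show g (e X.transpose) = e (B.transpose * X * A.transpose).transpose
  rw [hAB, Matrix.transpose_mul, Matrix.transpose_mul, Matrix.transpose_transpose,
    Matrix.transpose_transpose, Matrix.mul_assoc]

omit [FiniteDimensional F V] in
/-- The matrix `x yᵀ` is not killed. -/
theorem tens_inj (hΓ : Grp Γ) {a b : ℕ} {e : Matrix (Fin a) (Fin b) F ≃ₗ[F] V} {g : End F V}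
    (hg : g ∈ Γ) {A : Matrix (Fin a) (Fin a) F} {B : Matrix (Fin b) (Fin b) F}
    (hAB : ∀ X, g (e X) = e (A * X * B)) {X : Matrix (Fin a) (Fin b) F} (h : A * X * B = 0) :
    X = 0 := by
  have h1 : g (e X) = 0 := by rw [hAB, h, map_zero]
  have h2 : e X = 0 := hΓ.injective hg (by rw [h1, map_zero])
  exact e.map_eq_zero_iff.1 h2

theorem tens_small (hΓ : Grp Γ) {a b : ℕ} (ht : Tens Γ a b) (ha : 2 ≤ a) (hb : 2 ≤ b) {k : ℕ}
    (hk2 : 2 ≤ k) (hka : k ≤ a) (h : Meet Γ k) : False := by
  classical
  obtain ⟨e, he⟩ := ht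
  have hn : a * b = finrank F V := by
    rw [← e.finrank_eq, Module.finrank_matrix]
    simp
  let a0 : Fin a := ⟨0, by omega⟩
  let b0 : Fin b := ⟨0, by omega⟩
  let b1 : Fin b := ⟨1, by omega⟩
  have hb01 : b0 ≠ b1 := by
    intro h
    have := congrArg Fin.val h
    simp [b0, b1] at this
  let P : V := e (Matrix.single a0 b0 1)
  let Q : V := e (Matrix.single a0 b1 1)
  -- matrices with zero column `b0`
  let C : Matrix (Fin a) (Fin b) F →ₗ[F] (Fin a → F) :=
    { toFun := fun X i => X i b0
      map_add' := fun X Y => rfl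
      map_smul' := fun c X => rfl }
  let Z : Submodule F V := (LinearMap.ker C).map e.toLinearMap
  have hZ : finrank F Z = finrank F V - a := by
    have h1 : finrank F Z = finrank F (LinearMap.ker C) :=
      LinearEquiv.finrank_eq (Submodule.equivMapOfInjective e.toLinearMap e.injective _).symm
    have h2 := LinearMap.finrank_range_add_finrank_ker C
    have h3 : LinearMap.range C = ⊤ := by
      rw [LinearMap.range_eq_top]
      intro y
      exact ⟨fun i _ => y i, rfl⟩
    rw [h3, finrank_top, finrank_fin_fun, e.finrank_eq] at h2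
    omega
  have hspan : finrank F (Submodule.span F {P, Q}) ≤ 2 := by
    have := finrank_span_finset_le_card (R := F) ({P, Q} : Finset V)
    have h2 : ((({P, Q} : Finset V) : Set V)) = {P, Q} := by simp
    rw [h2] at this
    exact this.trans Finset.card_le_two
  obtain ⟨U, hU1, _, hU2⟩ := exists_between (Submodule.span F {P, Q}) ⊤ le_top k (by omega)
    (by rw [finrank_top, ← hn]; nlinarith)
  obtain ⟨W, hW1, _, hW2⟩ := exists_between Z ⊤ le_top (finrank F V - k) (by omega)
    (by rw [finrank_top]; omega)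
  obtain ⟨g, hg, hm⟩ := h U W hU2 (by
    have : k ≤ finrank F V := by rw [← hn]; nlinarith
    omega)
  obtain ⟨A, B, hAB⟩ := he g hg
  -- a nonzero row vector supported on `b0`, `b1` with `(y B) b0 = 0`
  obtain ⟨s, t, hst, hB⟩ : ∃ s t : F, ¬ (s = 0 ∧ t = 0) ∧ s * B b0 b0 + t * B b1 b0 = 0 := by
    by_cases h0 : B b0 b0 = 0 ∧ B b1 b0 = 0
    · exact ⟨1, 0, by simp, by rw [h0.1, h0.2]; ring⟩
    · refine ⟨B b1 b0, -B b0 b0, fun hc => h0 ⟨?_, hc.1⟩, by ring⟩
      simpa using hc.2
  let X : Matrix (Fin a) (Fin b) F := s • Matrix.single a0 b0 1 + t • Matrix.single a0 b1 1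
  have hX : ∀ i j, X i j = if i = a0 then (if j = b0 then s else if j = b1 then t else 0) else 0 := by
    intro i j
    simp only [X, Matrix.add_apply, Matrix.smul_apply, Matrix.single_apply, smul_eq_mul]
    by_cases hi : i = a0
    · subst hi
      by_cases hj : j = b0
      · subst hj
        simp [hb01.symm]
      · by_cases hj1 : j = b1
        · subst hj1
          simp [hb01, hb01.symm, Ne.symm hj]
        · simp [hj, hj1, Ne.symm hj, Ne.symm hj1, eq_comm]
    · simp [hi, Ne.symm hi, eq_comm]
  have hX0 : X ≠ 0 := by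
    intro h0
    apply hst
    have h1 := hX a0 b0
    have h2 := hX a0 b1
    rw [h0] at h1 h2
    simp [hb01.symm] at h1 h2
    exact ⟨h1.symm, h2.symm⟩
  have hXU : e X ∈ U := by
    apply hU1
    have : e X = s • P + t • Q := by
      simp only [X, P, Q, map_add, map_smul]
    rw [this]
    exact Submodule.add_mem _ (Submodule.smul_mem _ _ (Submodule.subset_span (by simp)))
      (Submodule.smul_mem _ _ (Submodule.subset_span (by simp)))
  have hXZ : A * X * B ∈ LinearMap.ker C := by
    rw [LinearMap.mem_ker]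
    funext i
    show (A * X * B) i b0 = 0
    rw [Matrix.mul_apply]
    have h1 : ∀ j, (A * X) i j = A i a0 * X a0 j := by
      intro j
      rw [Matrix.mul_apply, Finset.sum_eq_single a0]
      · intro m _ hm
        rw [hX m j, if_neg hm, mul_zero]
      · simp
    simp only [h1]
    have h2 : ∀ j, X a0 j = if j = b0 then s else if j = b1 then t else 0 := by
      intro j
      rw [hX, if_pos rfl]
    have h3 : ∑ j, A i a0 * X a0 j * B j b0 = A i a0 * ∑ j, X a0 j * B j b0 := by
      rw [Finset.mul_sum]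
      exact Finset.sum_congr rfl (fun j _ => mul_assoc _ _ _)
    rw [h3]
    have h4 : ∑ j, X a0 j * B j b0 = s * B b0 b0 + t * B b1 b0 := by
      rw [← Finset.sum_subset (Finset.subset_univ ({b0, b1} : Finset (Fin b)))]
      · rw [Finset.sum_pair hb01, h2 b0, h2 b1]
        simp [hb01.symm]
      · intro j _ hj
        rw [h2 j]
        simp only [mem_insert, mem_singleton, not_or] at hj
        rw [if_neg hj.1, if_neg hj.2, zero_mul]
    rw [h4, hB, mul_zero]
  have h5 : g (e X) ∈ U.map g ⊓ W := by
    refine ⟨⟨e X, hXU, rfl⟩, hW1 ?_⟩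
    rw [hAB]
    exact ⟨_, hXZ, rfl⟩
  rw [hm, Submodule.mem_bot, hAB] at h5
  exact hX0 (tens_inj hΓ hg hAB (e.map_eq_zero_iff.1 h5))

theorem tens_large (hΓ : Grp Γ) {a b : ℕ} (ht : Tens Γ a b) (ha : 2 ≤ a) (hb : 2 ≤ b) {k : ℕ}
    (hkb : b ≤ k) (hkn : k + a ≤ finrank F V) (h : Meet Γ k) : False := by
  classical
  obtain ⟨e, he⟩ := ht
  have hn : a * b = finrank F V := by
    rw [← e.finrank_eq, Module.finrank_matrix]
    simp
  let a0 : Fin a := ⟨0, by omega⟩
  let b0 : Fin b := ⟨0, by omega⟩
  -- the row `a0` and the column `b0`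
  let R : (Fin b → F) →ₗ[F] Matrix (Fin a) (Fin b) F :=
    { toFun := fun y i j => if i = a0 then y j else 0
      map_add' := by
        intro x y
        funext i j
        show (if i = a0 then x j + y j else 0) = (if i = a0 then x j else 0) +
          (if i = a0 then y j else 0)
        split_ifs <;> simp
      map_smul' := by
        intro c x
        funext i j
        show (if i = a0 then c * x j else 0) = c * (if i = a0 then x j else 0)
        split_ifs <;> simp }
  let C : (Fin a → F) →ₗ[F] Matrix (Fin a) (Fin b) F :=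
    { toFun := fun x i j => if j = b0 then x i else 0
      map_add' := by
        intro x y
        funext i j
        show (if j = b0 then x i + y i else 0) = (if j = b0 then x i else 0) +
          (if j = b0 then y i else 0)
        split_ifs <;> simp
      map_smul' := by
        intro c x
        funext i j
        show (if j = b0 then c * x i else 0) = c * (if j = b0 then x i else 0)
        split_ifs <;> simp }
  have hR : ∀ y i j, R y i j = if i = a0 then y j else 0 := fun y i j => rfl
  have hC : ∀ x i j, C x i j = if j = b0 then x i else 0 := fun y i j => rfl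
  have hR1 : finrank F (LinearMap.range (e.toLinearMap.comp R)) ≤ b := by
    refine (LinearMap.finrank_range_le _).trans ?_
    rw [finrank_fin_fun]
  have hC1 : finrank F (LinearMap.range (e.toLinearMap.comp C)) ≤ a := by
    refine (LinearMap.finrank_range_le _).trans ?_
    rw [finrank_fin_fun]
  obtain ⟨U, hU1, _, hU2⟩ := exists_between (LinearMap.range (e.toLinearMap.comp R)) ⊤ le_top k
    (hR1.trans hkb) (by rw [finrank_top]; omega)
  obtain ⟨W, hW1, _, hW2⟩ := exists_between (LinearMap.range (e.toLinearMap.comp C)) ⊤ le_top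
    (finrank F V - k) (by omega) (by rw [finrank_top]; omega)
  obtain ⟨g, hg, hm⟩ := h U W hU2 (by omega)
  obtain ⟨A, B, hAB⟩ := he g hg
  -- `B` is invertible
  have hRinj : ∀ y, R y = 0 → y = 0 := by
    intro y hy
    funext j
    have := congrFun (congrFun hy a0) j
    rw [hR, if_pos rfl] at this
    exact this
  have hBinj : Function.Injective (Matrix.vecMulLinear B) := by
    rw [injective_iff_map_eq_zero]
    intro y hy
    apply hRinj
    apply tens_inj hΓ hg hAB
    have h1 : R y * B = 0 := by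
      funext i j
      rw [Matrix.mul_apply]
      simp only [hR]
      by_cases hi : i = a0
      · simp only [hi, if_true]
        have := congrFun hy j
        exact this
      · simp [hi]
    rw [Matrix.mul_assoc, h1, Matrix.mul_zero]
  have hBsurj : Function.Surjective (Matrix.vecMulLinear B) :=
    LinearMap.injective_iff_surjective.1 hBinj
  obtain ⟨y, hy⟩ := hBsurj (Pi.single b0 1)
  have hy0 : y ≠ 0 := by
    rintro rfl
    rw [map_zero] at hy
    have := congrFun hy b0
    simp at this
  have h1 : A * R y * B = C (fun i => A i a0) := by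
    funext i j
    rw [Matrix.mul_assoc, Matrix.mul_apply, hC]
    have h2 : ∀ m, (R y * B) m j = if m = a0 then (if j = b0 then 1 else 0) else 0 := by
      intro m
      rw [Matrix.mul_apply]
      simp only [hR]
      by_cases hm' : m = a0
      · simp only [hm', if_true]
        have := congrFun hy j
        rw [Pi.single_apply] at this
        exact this
      · simp [hm']
    simp only [h2]
    rw [Finset.sum_eq_single a0]
    · by_cases hj : j = b0 <;> simp [hj]
    · intro m _ hm'
      rw [if_neg hm', mul_zero]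
    · simp
  have h5 : g (e (R y)) ∈ U.map g ⊓ W := by
    refine ⟨⟨_, hU1 ⟨y, rfl⟩, rfl⟩, hW1 ?_⟩
    rw [hAB, h1]
    exact ⟨_, rfl⟩
  rw [hm, Submodule.mem_bot, hAB] at h5
  exact hy0 (hRinj y (tens_inj hΓ hg hAB (e.map_eq_zero_iff.1 h5)))

/-- For `2 ≤ k ≤ n - 2` property (R1) excludes tensor decompositions. -/
theorem not_tens (hΓ : Grp Γ) {a b : ℕ} (ht : Tens Γ a b) (ha : 2 ≤ a) (hb : 2 ≤ b) {k : ℕ}
    (hk2 : 2 ≤ k) (hkn : k + 2 ≤ finrank F V) (h : Meet Γ k) : False := by
  by_cases h1 : k ≤ a
  · exact tens_small hΓ ht ha hb hk2 h1 h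
  · by_cases h2 : k ≤ b
    · exact tens_small hΓ ht.symm hb ha hk2 h2 h
    · by_cases h3 : k + a ≤ finrank F V
      · exact tens_large hΓ ht ha hb (by omega) h3 h
      · exact tens_small hΓ ht ha hb (k := finrank F V - k) (by omega) (by omega)
          (h.dual hΓ (by omega))

end Pool.Agent.Lib.MP_55eb77_al
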