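import Pool.Agent.Lib.MP_55eb77_al.Alt

/-!
Regularity in a finite monoid of linear maps.
-/

set_option linter.unusedSimpArgs false
set_option linter.unusedSectionVars false

namespace Pool.Agent.Lib.MP_55eb77_al

open Function Finset Module

variable {F : Type*} [Field F] [Finite F] {V : Type*} [AddCommGroup V] [Module F V]
  [FiniteDimensional F V]

theorem finite_end : Finite (Module.End F V) := by
  have : Finite V := Module.finite_of_finite F
  exact Finite.of_injective (fun f : V →ₗ[F] V => (f : V → V)) DFunLike.coe_injective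

/-- If `f` maps the subspace `U` onto itself, some positive power of `f` is the identity on
`U`. -/
theorem exists_pow_eq (f : Module.End F V) (U : Submodule F V) (h1 : ∀ u ∈ U, f u ∈ U)
    (h2 : ∀ u ∈ U, ∃ w ∈ U, f w = u) : ∃ s : ℕ, ∀ u ∈ U, (f ^ (s + 1)) u = u := by
  have : Finite (Module.End F V) := finite_end
  have hinj : ∀ u ∈ U, ∀ w ∈ U, f u = f w → u = w := by
    have hs : Surjective (f.restrict h1) := by
      rintro ⟨u, hu⟩
      obtain ⟨w, hw, hwu⟩ := h2 u hu
      exact ⟨⟨w, hw⟩, Subtype.ext hwu⟩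
    have hi := LinearMap.injective_iff_surjective.2 hs
    intro u hu w hw h
    have := @hi ⟨u, hu⟩ ⟨w, hw⟩ (Subtype.ext h)
    exact congrArg Subtype.val this
  have hmem : ∀ n : ℕ, ∀ u ∈ U, (f ^ n) u ∈ U := by
    intro n
    induction n with
    | zero => intro u hu; simpa using hu
    | succ n ih => intro u hu; rw [pow_succ]; exact ih _ (h1 u hu)
  have hinjn : ∀ n : ℕ, ∀ u ∈ U, ∀ w ∈ U, (f ^ n) u = (f ^ n) w → u = w := by
    intro n
    induction n with
    | zero => intro u _ w _ h; simpa using h
    | succ n ih =>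
      intro u hu w hw h
      rw [pow_succ] at h
      exact hinj u hu w hw (ih _ (h1 u hu) _ (h1 w hw) h)
  obtain ⟨i, j, hij, he⟩ := Finite.exists_ne_map_eq_of_infinite (fun n : ℕ => f ^ n)
  have key : ∀ i j : ℕ, i < j → f ^ i = f ^ j → ∃ s : ℕ, ∀ u ∈ U, (f ^ (s + 1)) u = u := by
    intro i j hij he
    refine ⟨j - i - 1, fun u hu => ?_⟩
    have e1 : j - i - 1 + 1 = j - i := by omega
    rw [e1]
    apply hinjn i _ (hmem _ u hu) _ hu
    have e2 : (f ^ i) ((f ^ (j - i)) u) = (f ^ i * f ^ (j - i)) u := rfl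
    rw [e2, ← pow_add, show i + (j - i) = j by omega, ← he]
  rcases lt_or_gt_of_ne hij with h | h
  · exact key i j h he
  · exact key j i h he.symm

theorem regular_of_rank (S : Submonoid (Module.End F V)) (b y : Module.End F V) (hb : b ∈ S)
    (hy : y ∈ S) (h : finrank F (LinearMap.range b) ≤ finrank F (LinearMap.range (b * y * b))) :
    ∃ Y ∈ S, b * Y * b = b := by
  have hle : LinearMap.range (b * y * b) ≤ LinearMap.range b := by
    rintro _ ⟨v, rfl⟩
    exact ⟨y (b v), rfl⟩
  have heq : LinearMap.range (b * y * b) = LinearMap.range b :=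
    Submodule.eq_of_le_of_finrank_le hle h
  obtain ⟨s, hs⟩ := exists_pow_eq (b * y) (LinearMap.range b)
    (by rintro _ ⟨v, rfl⟩; exact ⟨y (b v), rfl⟩)
    (by
      intro u hu
      rw [← heq] at hu
      obtain ⟨v, hv⟩ := hu
      exact ⟨b v, ⟨v, rfl⟩, hv⟩)
  refine ⟨y * (b * y) ^ s, S.mul_mem hy (S.pow_mem (S.mul_mem hb hy) s), ?_⟩
  have e : b * (y * (b * y) ^ s) * b = (b * y) ^ (s + 1) * b := by
    rw [pow_succ' (b * y) s]
    simp only [mul_assoc]
  rw [e]
  ext v
  exact hs (b v) ⟨v, rfl⟩

/-- The forms vanishing on all `S`-translates of the tuple `u`. -/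
def NN {l : ℕ} (S : Submonoid (Module.End F V)) (u : Fin l → V) :
    Submodule F (V [⋀^Fin l]→ₗ[F] F) where
  carrier := {η | ∀ y ∈ S, η (fun i => y (u i)) = 0}
  add_mem' := by
    intro a b ha hb y hy
    rw [AlternatingMap.add_apply, ha y hy, hb y hy, add_zero]
  zero_mem' := by
    intro y _
    rfl
  smul_mem' := by
    intro c a ha y hy
    rw [AlternatingMap.smul_apply, ha y hy, smul_zero]

theorem mem_NN {l : ℕ} {S : Submonoid (Module.End F V)} {u : Fin l → V}
    {η : V [⋀^Fin l]→ₗ[F] F} : η ∈ NN S u ↔ ∀ y ∈ S, η (fun i => y (u i)) = 0 := Iff.rfl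

theorem comp_mem_NN {l : ℕ} {S : Submonoid (Module.End F V)} {u : Fin l → V}
    {η : V [⋀^Fin l]→ₗ[F] F} (hη : η ∈ NN S u) {s : Module.End F V} (hs : s ∈ S) :
    η.compLinearMap s ∈ NN S u := by
  intro y hy
  exact hη (s * y) (S.mul_mem hs hy)

omit [Finite F] in
theorem exists_form {l : ℕ} (u : Fin l → V) (hu : LinearIndependent F u) :
    ∃ ω : V [⋀^Fin l]→ₗ[F] F, ω u = 1 := by
  classical
  have hker : LinearMap.ker (Fintype.linearCombination F u) = ⊥ := by
    rw [LinearMap.ker_eq_bot]
    exact hu.fintypeLinearCombination_injective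
  obtain ⟨ψ, hψ⟩ := LinearMap.exists_leftInverse_of_injective _ hker
  refine ⟨Matrix.detRowAlternating.compLinearMap ψ, ?_⟩
  have h2 : ∀ i, ψ (u i) = Pi.single i 1 := by
    intro i
    have := LinearMap.congr_fun hψ (Pi.single i 1)
    simpa [Fintype.linearCombination_apply_single] using this
  rw [AlternatingMap.compLinearMap_apply]
  have h3 : (fun i => ψ (u i)) = (1 : Matrix (Fin l) (Fin l) F) := by
    funext i
    rw [h2]
    funext j
    simp [Matrix.one_apply, Pi.single_apply, eq_comm]
  rw [h3]
  exact Matrix.det_one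

/-- A non regular element yields a tuple all of whose translates are killed by `ω ∘ b`. -/
theorem of_nonregular (S : Submonoid (Module.End F V)) (b : Module.End F V) (hb : b ∈ S)
    (hnon : ∀ Y ∈ S, b * Y * b ≠ b) :
    ∃ (l : ℕ) (u v : Fin l → V), LinearIndependent F u ∧ (∀ i, b (v i) = u i) ∧
      ∀ ω : V [⋀^Fin l]→ₗ[F] F, ω.compLinearMap b ∈ NN S u := by
  classical
  let B := Module.finBasis F (LinearMap.range b)
  have hv : ∀ i, ∃ v, b v = (B i : V) := fun i => (B i).2
  choose v hv using hv
  refine ⟨_, fun i => (B i : V), v, ?_, hv, ?_⟩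
  · exact B.linearIndependent.map' _ (Submodule.ker_subtype _)
  · intro ω y hy
    rw [AlternatingMap.compLinearMap_apply]
    apply AlternatingMap.map_linearDependent
    intro hli
    have hlt : finrank F (LinearMap.range (b * y * b)) < finrank F (LinearMap.range b) := by
      by_contra hcon
      push Not at hcon
      obtain ⟨Y, hY, hY2⟩ := regular_of_rank S b y hb hy hcon
      exact hnon Y hY hY2
    have hli2 : LinearIndependent F (fun i => (⟨b (y (b (v i))), ⟨v i, rfl⟩⟩ :
        LinearMap.range (b * y * b))) := by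
      apply LinearIndependent.of_comp (LinearMap.range (b * y * b)).subtype
      have e : ((LinearMap.range (b * y * b)).subtype ∘ fun i =>
          (⟨b (y (b (v i))), ⟨v i, rfl⟩⟩ : LinearMap.range (b * y * b))) =
          fun i => b (y (B i : V)) := by
        funext i
        show b (y (b (v i))) = _
        rw [hv i]
      rw [e]
      exact hli
    have := hli2.fintype_card_le_finrank
    simp only [Fintype.card_fin] at this
    omega

end Pool.Agent.Lib.MP_55eb77_al
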