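import Pool.Agent.Lib.MP_55eb77_al.Mono

/-!
Sufficiency of the criterion in corank one.
-/

set_option linter.unusedSimpArgs false
set_option linter.unusedSectionVars false

namespace Pool.Agent.Lib.MP_55eb77_al

open Function Finset Module

variable {F : Type*} [Field F] [Finite F] {V : Type*} [AddCommGroup V] [Module F V]
  [FiniteDimensional F V]

/-- Every system of imprimitivity of `Γ` consists of lines permuted 2-homogeneously. -/
def SysOK (Γ : Set (End F V)) : Prop :=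
  ∀ (r : ℕ) (W : Fin r → Submodule F V), 2 ≤ r → (∀ i, W i ≠ ⊥) → iSupIndep W → iSup W = ⊤ →
    (∀ g ∈ Γ, ∀ i, ∃ j, (W i).map g = W j) →
    (∀ i, finrank F (W i) = 1) ∧ ∀ i j i' j', i ≠ j → i' ≠ j' →
      ∃ g ∈ Γ, ((W i).map g = W i' ∧ (W j).map g = W j') ∨
        ((W i).map g = W j' ∧ (W j).map g = W i')

variable {Γ : Set (End F V)} {a : End F V} {p : V} {φ : Dual F V}

theorem PP_map (hΓ : Grp Γ) {g : End F V} (hg : g ∈ Γ) {x : V} (hx : x ∈ PP Γ p) :
    g x ∈ PP Γ p := by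
  obtain ⟨h, hh, rfl⟩ := hx
  exact ⟨g * h, hΓ.mul g hg h hh, rfl⟩

theorem FF_comp (hΓ : Grp Γ) {g : End F V} (hg : g ∈ Γ) {f : Dual F V} (hf : f ∈ FF Γ φ) :
    f.comp g ∈ FF Γ φ := by
  obtain ⟨h, hh, rfl⟩ := hf
  exact ⟨h * g, hΓ.mul h hh g hg, rfl⟩

theorem Conn.map (hΓ : Grp Γ) {g : End F V} (hg : g ∈ Γ) {x y : V} (h : Conn Γ p φ x y) :
    Conn Γ p φ (g x) (g y) := by
  obtain ⟨g', hg', _, e2⟩ := hΓ.inv g hg
  have e2' : ∀ v, g' (g v) = v := fun v => by
    have := LinearMap.congr_fun e2 v; simpa using this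
  induction h with
  | refl => exact Relation.ReflTransGen.refl
  | tail _ hstep ih =>
    obtain ⟨h1, h2, f, hf, h3, h4⟩ := hstep
    refine Relation.ReflTransGen.tail ih ⟨PP_map hΓ hg h1, PP_map hΓ hg h2, f.comp g',
      FF_comp hΓ hg' hf, ?_, ?_⟩
    · show f (g' (g _)) ≠ 0
      rwa [e2']
    · show f (g' (g _)) ≠ 0
      rwa [e2']

theorem PP_ne_zero (h : Corank1 Γ a p φ) {x : V} (hx : x ∈ PP Γ p) : x ≠ 0 := by
  obtain ⟨g, hg, rfl⟩ := hx
  obtain ⟨g', hg', _, e2⟩ := h.grp.inv g hg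
  intro h0
  apply h.p0
  have := LinearMap.congr_fun e2 p
  have h1 : g' (g p) = p := by simpa using this
  rw [← h1, h0, map_zero]

/-- The decomposition into components. -/
theorem Corank1.system (h : Corank1 Γ a p φ) {x0 y0 : V} (hx0 : x0 ∈ PP Γ p)
    (hy0 : y0 ∈ PP Γ p) (hn : ¬ Conn Γ p φ x0 y0) :
    ∃ (r : ℕ) (W : Fin r → Submodule F V) (x : Fin r → V), 2 ≤ r ∧ (∀ i, W i ≠ ⊥) ∧
      iSupIndep W ∧ iSup W = ⊤ ∧ (∀ g ∈ Γ, ∀ i, ∃ j, (W i).map g = W j) ∧
      (∀ i, x i ∈ PP Γ p ∧ x i ∈ W i) ∧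
      (∀ f ∈ FF Γ φ, ∀ i j, i ≠ j → f (x i) ≠ 0 → f (x j) = 0) := by
  classical
  have hfinV : Finite V := Module.finite_of_finite F
  let st : Setoid (PP Γ p) :=
    { r := fun x y => Conn Γ p φ x.1 y.1
      iseqv := ⟨fun _ => Relation.ReflTransGen.refl, fun h => h.symm', fun h1 h2 => h1.trans h2⟩ }
  have hfinQ : Finite (Quotient st) := Quotient.finite st
  let W' : Quotient st → Submodule F V := fun q =>
    Submodule.span F {y | ∃ hy : y ∈ PP Γ p, (Quotient.mk st ⟨y, hy⟩) = q}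
  have hmem : ∀ x : PP Γ p, x.1 ∈ W' (Quotient.mk st x) :=
    fun x => Submodule.subset_span ⟨x.2, rfl⟩
  -- functionals see one class only
  have hF1 : ∀ f ∈ FF Γ φ, ∀ x y : PP Γ p, f x.1 ≠ 0 → f y.1 ≠ 0 →
      Quotient.mk st x = Quotient.mk st y := by
    intro f hf x y hx hy
    apply Quotient.sound
    exact Relation.ReflTransGen.single ⟨x.2, y.2, f, hf, hx, hy⟩
  have hF2 : ∀ f ∈ FF Γ φ, ∀ x : PP Γ p, f x.1 ≠ 0 → ∀ q, q ≠ Quotient.mk st x →
      ∀ v ∈ W' q, f v = 0 := by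
    intro f hf x hx q hq v hv
    have hle : W' q ≤ LinearMap.ker f := by
      apply Submodule.span_le.2
      rintro y ⟨hy, hyq⟩
      by_contra hne
      exact hq (hyq ▸ hF1 f hf ⟨y, hy⟩ x hne hx)
    exact hle hv
  have hne : ∀ q, W' q ≠ ⊥ := by
    intro q hq
    obtain ⟨x, rfl⟩ := Quotient.exists_rep q
    have := hmem x
    rw [hq] at this
    exact PP_ne_zero h x.2 ((Submodule.mem_bot F).1 this)
  have hsup : iSup W' = ⊤ := by
    rw [eq_top_iff, ← span_orbit h.grp h.irr h.p0, Submodule.span_le]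
    intro x hx
    exact (le_iSup W' (Quotient.mk st ⟨x, hx⟩)) (hmem ⟨x, hx⟩)
  have hind : iSupIndep W' := by
    intro q
    rw [Submodule.disjoint_def]
    intro v hv1 hv2
    apply eq_zero_of_dual h.grp h.irr h.φ0
    intro g hg
    have hf : φ.comp g ∈ FF Γ φ := ⟨g, hg, rfl⟩
    by_contra hne0
    have hex : ∃ x : PP Γ p, Quotient.mk st x = q ∧ (φ.comp g) x.1 ≠ 0 := by
      by_contra hcon
      push Not at hcon
      apply hne0
      have hle : W' q ≤ LinearMap.ker (φ.comp g) := by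
        apply Submodule.span_le.2
        rintro y ⟨hy, hyq⟩
        exact hcon ⟨y, hy⟩ hyq
      exact hle hv1
    obtain ⟨x, hxq, hx⟩ := hex
    apply hne0
    have hle : (⨆ j, ⨆ (_ : j ≠ q), W' j) ≤ LinearMap.ker (φ.comp g) := by
      apply iSup_le
      intro j
      apply iSup_le
      intro hj w hw
      exact hF2 _ hf x hx j (hxq ▸ hj) w hw
    exact hle hv2
  have hperm : ∀ g ∈ Γ, ∀ q, ∃ q', (W' q).map g = W' q' := by
    intro g hg q
    obtain ⟨x, rfl⟩ := Quotient.exists_rep q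
    obtain ⟨g', hg', e1, e2⟩ := h.grp.inv g hg
    have e1' : ∀ v, g (g' v) = v := fun v => by
      have := LinearMap.congr_fun e1 v; simpa using this
    refine ⟨Quotient.mk st ⟨g x.1, PP_map h.grp hg x.2⟩, ?_⟩
    rw [Submodule.map_span]
    congr 1
    ext z
    constructor
    · rintro ⟨y, ⟨hy, hyq⟩, rfl⟩
      refine ⟨PP_map h.grp hg hy, ?_⟩
      apply Quotient.sound
      have h1 : Conn Γ p φ y x.1 := Quotient.exact hyq
      exact h1.map h.grp hg
    · rintro ⟨hz, hzq⟩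
      refine ⟨g' z, ⟨PP_map h.grp hg' hz, ?_⟩, e1' z⟩
      apply Quotient.sound
      have h1 : Conn Γ p φ z (g x.1) := Quotient.exact hzq
      have h2 := h1.map h.grp hg'
      have h3 : g' (g x.1) = x.1 := by
        have := LinearMap.congr_fun e2 x.1; simpa using this
      rw [h3] at h2
      exact h2
  let ε := Finite.equivFin (Quotient st)
  refine ⟨Nat.card (Quotient st), fun i => W' (ε.symm i), fun i => (ε.symm i).out.1, ?_,
    fun i => hne _, hind.comp ε.symm.injective, ?_, ?_, ?_, ?_⟩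
  · have h2 : Quotient.mk st ⟨x0, hx0⟩ ≠ Quotient.mk st ⟨y0, hy0⟩ := by
      intro he
      exact hn (Quotient.exact he)
    have : Nontrivial (Quotient st) := ⟨⟨_, _, h2⟩⟩
    exact Finite.one_lt_card
  · rw [← hsup]
    exact Equiv.iSup_comp (g := W') ε.symm
  · intro g hg i
    obtain ⟨q', hq'⟩ := hperm g hg (ε.symm i)
    exact ⟨ε q', by simpa using hq'⟩
  · intro i
    refine ⟨(ε.symm i).out.2, ?_⟩
    have := hmem (ε.symm i).out
    rwa [Quotient.out_eq] at this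
  · intro f hf i j hij hi
    by_contra hj
    have := hF1 f hf _ _ hi hj
    rw [Quotient.out_eq, Quotient.out_eq] at this
    exact hij (ε.symm.injective this)

/-- Sufficiency. -/
theorem Corank1.regular (h : Corank1 Γ a p φ) (hsys : SysOK Γ) (b : End F V)
    (hb : b ∈ Submonoid.closure (Γ ∪ {a})) :
    ∃ Y ∈ Submonoid.closure (Γ ∪ {a}), b * Y * b = b := by
  classical
  have hΓS : Γ ⊆ (Submonoid.closure (Γ ∪ {a}) : Set (End F V)) :=
    fun g hg => Submonoid.subset_closure (Or.inl hg)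
  have haS : a ∈ Submonoid.closure (Γ ∪ {a}) := Submonoid.subset_closure (Or.inr rfl)
  by_cases hconn : ∀ x ∈ PP Γ p, ∀ y ∈ PP Γ p, Conn Γ p φ x y
  · exact h.regular_of_connected hΓS haS hconn b hb
  push Not at hconn
  obtain ⟨x0, hx0, y0, hy0, hn⟩ := hconn
  obtain ⟨r, W, x, hr, hW, hind, hsup, hperm, hx, hfx⟩ := h.system hx0 hy0 hn
  obtain ⟨hdim, hhom⟩ := hsys r W hr hW hind hsup hperm
  have hxne : ∀ i, x i ≠ 0 := fun i => PP_ne_zero h (hx i).1
  have hWspan : ∀ i, ∀ w ∈ W i, ∃ c : F, c • x i = w := by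
    intro i w hw
    have h1 : (⟨x i, (hx i).2⟩ : W i) ≠ 0 := by
      intro h0
      exact hxne i (congrArg Subtype.val h0)
    obtain ⟨c, hc⟩ := (finrank_eq_one_iff_of_nonzero' _ h1).1 (hdim i) ⟨w, hw⟩
    exact ⟨c, congrArg Subtype.val hc⟩
  have hli : LinearIndependent F x := hind.linearIndependent W (fun i => (hx i).2) hxne
  have hspan : ⊤ ≤ Submodule.span F (Set.range x) := by
    rw [← hsup]
    apply iSup_le
    intro i w hw
    obtain ⟨c, rfl⟩ := hWspan i w hw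
    exact Submodule.smul_mem _ _ (Submodule.subset_span ⟨i, rfl⟩)
  let e : Basis (Fin r) F V := Basis.mk hli hspan
  have he : ∀ i, e i = x i := fun i => Basis.mk_apply hli hspan i
  have hcoordne : ∀ (i j : Fin r), e.coord j (x i) ≠ 0 → j = i := by
    intro i j hne
    rw [← he i] at hne
    by_contra hcon
    apply hne
    simp [Finsupp.single_apply, Ne.symm hcon]
  have hmemW : ∀ (i j : Fin r), x i ∈ W j → i = j := by
    intro i j hm
    obtain ⟨c, hc⟩ := hWspan j _ hm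
    by_contra hcon
    have h1 := congrArg (e.coord i) hc
    rw [map_smul, ← he i, ← he j] at h1
    simp [Finsupp.single_apply, Ne.symm hcon] at h1
  -- monomial action
  have hginj : ∀ g ∈ Γ, Injective g := by
    intro g hg
    obtain ⟨g', _, _, e2⟩ := h.grp.inv g hg
    intro v w hvw
    have h1 : ∀ v, g' (g v) = v := fun v => by
      have := LinearMap.congr_fun e2 v; simpa using this
    rw [← h1 v, hvw, h1]
  have hmono : ∀ g ∈ Γ, ∃ σ : Equiv.Perm (Fin r), MonoAct e g σ ∧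
      ∀ i, (W i).map g = W (σ i) := by
    intro g hg
    choose σ hσ using hperm g hg
    have h1 : ∀ i, ∃ c : F, c • x (σ i) = g (x i) := by
      intro i
      apply hWspan
      rw [← hσ]
      exact Submodule.mem_map_of_mem (hx i).2
    choose c hc using h1
    have hcne : ∀ i, c i ≠ 0 := by
      intro i h0
      have h2 := hc i
      rw [h0, zero_smul] at h2
      exact hxne i (hginj g hg (by rw [map_zero]; exact h2.symm))
    have hσinj : Injective σ := by
      intro i j hij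
      have h2 := hc i
      have h3 := hc j
      rw [hij] at h2
      -- `c j • g x_i = c i • g x_j`
      have h4 : g (c j • x i) = g (c i • x j) := by
        rw [map_smul, map_smul, ← h2, ← h3, smul_smul, smul_smul, mul_comm]
      have h5 := hginj g hg h4
      by_contra hcon
      have h6 := congrArg (e.coord i) h5
      rw [map_smul, map_smul, ← he i, ← he j] at h6
      simp [Finsupp.single_apply, Ne.symm hcon] at h6
      exact hcne j h6
    refine ⟨Equiv.ofBijective σ (Finite.injective_iff_bijective.1 hσinj), ⟨c, hcne, ?_⟩, hσ⟩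
    intro i
    rw [he i, ← hc i]
    show _ = c i • e (σ i)
    rw [he]
  have hmono' : ∀ g ∈ Γ, ∃ σ, MonoAct e g σ := by
    intro g hg
    obtain ⟨σ, hσ, _⟩ := hmono g hg
    exact ⟨σ, hσ⟩
  have htrans : ∀ i j, ∃ g ∈ Γ, ∃ σ, MonoAct e g σ ∧ σ i = j := by
    intro i j
    obtain ⟨gi, hgi, hi⟩ := (hx i).1
    obtain ⟨gj, hgj, hj⟩ := (hx j).1
    obtain ⟨gi', hgi', _, e2⟩ := h.grp.inv gi hgi
    have h1 : gi' (x i) = p := by
      rw [hi]
      have := LinearMap.congr_fun e2 p; simpa using this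
    have h2 : (gj * gi') (x i) = x j := by
      show gj (gi' (x i)) = x j
      rw [h1, hj]
    obtain ⟨σ, hσ, hσW⟩ := hmono (gj * gi') (h.grp.mul _ hgj _ hgi')
    refine ⟨_, h.grp.mul _ hgj _ hgi', σ, hσ, ?_⟩
    symm
    apply hmemW
    rw [← hσW, ← h2]
    exact Submodule.mem_map_of_mem (hx i).2
  have hWinj : ∀ i j, W i = W j → i = j := by
    intro i j hij
    apply hmemW
    rw [← hij]
    exact (hx i).2
  have hhom' : ∀ i j i' j', i ≠ j → i' ≠ j' → ∃ g ∈ Γ, ∃ σ, MonoAct e g σ ∧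
      ((σ i = i' ∧ σ j = j') ∨ (σ i = j' ∧ σ j = i')) := by
    intro i j i' j' h1 h2
    obtain ⟨g, hg, h3⟩ := hhom i j i' j' h1 h2
    obtain ⟨σ, hσ, hσW⟩ := hmono g hg
    refine ⟨g, hg, σ, hσ, ?_⟩
    rw [hσW, hσW] at h3
    rcases h3 with ⟨h3, h4⟩ | ⟨h3, h4⟩
    · exact Or.inl ⟨hWinj _ _ h3, hWinj _ _ h4⟩
    · exact Or.inr ⟨hWinj _ _ h3, hWinj _ _ h4⟩
  -- functionals
  have hfex : ∀ i, ∃ g₂ ∈ Γ, φ (g₂ (x i)) ≠ 0 ∧
      φ.comp g₂ = (φ (g₂ (x i))) • e.coord i := by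
    intro i
    have h1 : ∃ g₂ ∈ Γ, φ (g₂ (x i)) ≠ 0 := by
      by_contra hcon
      push Not at hcon
      exact hxne i (eq_zero_of_dual h.grp h.irr h.φ0 hcon)
    obtain ⟨g₂, hg₂, h2⟩ := h1
    refine ⟨g₂, hg₂, h2, ?_⟩
    apply e.ext
    intro j
    rw [he j]
    by_cases hij : i = j
    · subst hij
      have : e.coord i (x i) = 1 := by rw [← he i]; simp
      rw [LinearMap.smul_apply, this]
      simp
    · have h3 := hfx (φ.comp g₂) ⟨g₂, hg₂, rfl⟩ i j hij h2
      have h4 : e.coord i (x j) = 0 := by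
        by_contra hne
        exact hij (hcoordne j i hne)
      rw [h3, LinearMap.smul_apply, h4, smul_zero]
  have hproj : ∀ c, 1 + rk1 (-(e c)) (e.coord c) ∈ Submonoid.closure (Γ ∪ {a}) := by
    intro c
    obtain ⟨g₂, hg₂, h1, h2⟩ := hfex c
    obtain ⟨g₁, hg₁, h3⟩ := (hx c).1
    have h4 := h.proj_mem hΓS haS hg₁ hg₂ (by rw [← h3]; exact h1)
    have h5 : 1 + rk1 (-(e c)) (e.coord c) =
        1 + rk1 (-(φ (g₂ (g₁ p)))⁻¹ • g₁ p) (φ.comp g₂) := by
      congr 1
      ext v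
      rw [rk1_apply, rk1_apply, h2, ← h3, LinearMap.smul_apply, smul_smul, smul_eq_mul, he c,
        smul_neg, mul_neg, neg_smul]
      congr 2
      field_simp
    rw [h5]
    exact h4
  -- the pivot
  have h0 : (0 : ℕ) < r := by omega
  let o : Fin r := ⟨0, h0⟩
  obtain ⟨g₂, hg₂, hφo, hcoo⟩ := hfex o
  obtain ⟨g₁, hg₁, hxo⟩ := (hx o).1
  obtain ⟨h₁, hh₁, h₂, hh₂, ha, hk, hrange⟩ := h.elem hg₁ hg₂
  have hsS : h₂ * a * h₁ ∈ Submonoid.closure (Γ ∪ {a}) :=
    Submonoid.mul_mem _ (Submonoid.mul_mem _ (hΓS hh₂) haS) (hΓS hh₁)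
  generalize hs : h₂ * a * h₁ = s at *
  have hso : s (e o) = 0 := by
    rw [he o, hxo]
    exact (hk _).2 ⟨1, by simp⟩
  have hsc : ∀ v, e.coord o (s v) = 0 := by
    intro v
    have h6 : φ (g₂ (s v)) = 0 := (hrange _).2 ⟨v, rfl⟩
    have h7 := LinearMap.congr_fun hcoo (s v)
    have h8 : (φ.comp g₂) (s v) = 0 := h6
    rw [h8, LinearMap.smul_apply, smul_eq_mul] at h7
    rcases mul_eq_zero.1 h7.symm with h9 | h9
    · exact absurd h9 hφo
    · exact h9
  obtain ⟨t, ht⟩ := pow_eq_proj s (g₁ p) (φ.comp g₂) ((hk _).2 ⟨1, by simp⟩)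
    (fun v => (hrange _).2 ⟨v, rfl⟩) (fun w hw => (hrange w).1 hw) (by
      show φ (g₂ (g₁ p)) ≠ 0
      rw [← hxo]
      exact hφo)
  have hπ : ∀ v, (s ^ (t + 1)) v = v - e.coord o v • e o := by
    intro v
    rw [ht]
    show v + (φ.comp g₂) v • (-((φ.comp g₂) (g₁ p))⁻¹ • g₁ p) = _
    have h10 : (φ.comp g₂) (g₁ p) = φ (g₂ (x o)) := by rw [hxo]; rfl
    rw [h10, hcoo, LinearMap.smul_apply, smul_smul, smul_eq_mul, ← hxo, he o, mul_neg, neg_smul,
      sub_eq_add_neg]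
    congr 3
    field_simp
  have hππ : ∀ v, (s ^ (t + 1)) ((s ^ (t + 1)) v) = v - e.coord o v • e o := by
    intro v
    rw [hπ ((s ^ (t + 1)) v), hπ v]
    have h11 : e.coord o (v - e.coord o v • e o) = 0 := by
      rw [map_sub, map_smul]
      simp
    rw [h11, zero_smul, sub_zero]
  have hpow1 : s * s ^ (2 * t + 1) = s ^ (t + 1) * s ^ (t + 1) := by
    rw [← pow_succ', ← pow_add]
    congr 1
    omega
  have hpow2 : s ^ (2 * t + 1) * s = s ^ (t + 1) * s ^ (t + 1) := by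
    rw [← pow_succ, ← pow_add]
    congr 1
    omega
  exact mono_regular e h.grp (a := a) (s := s) (s' := s ^ (2 * t + 1)) (g₁ := g₁) (g₂ := g₂)
    (o := o) rfl hmono' htrans hhom' hproj hg₁ hg₂ ha hsS (Submonoid.pow_mem _ hsS _) hso
    (by
      rw [pow_succ]
      show (s ^ (2 * t)) (s (e o)) = 0
      rw [hso, map_zero]) hsc
    (by
      intro v
      have := LinearMap.congr_fun hpow1 v
      exact this.trans (hππ v))
    (by
      intro v
      have := LinearMap.congr_fun hpow2 v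
      exact this.trans (hππ v)) b hb

end Pool.Agent.Lib.MP_55eb77_al
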