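import Pool.Agent.Lib.MP_55eb77_al.Meet

/-!
Monomial groups containing all invertible diagonal matrices.
-/

set_option linter.unusedSimpArgs false
set_option linter.unusedSectionVars false

namespace Pool.Agent.Lib.MP_55eb77_al

open Function Finset Module

variable {F : Type*} [Field F] {V : Type*} [AddCommGroup V] [Module F V]
  [FiniteDimensional F V] {ι : Type*} [Fintype ι] [DecidableEq ι]

/-- The span of a set of basis vectors. -/
def CS (b : Basis ι F V) (S : Finset ι) : Submodule F V := Submodule.span F (b '' (S : Set ι))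

omit [FiniteDimensional F V] in
theorem mem_CS {b : Basis ι F V} {S : Finset ι} {v : V} :
    v ∈ CS b S ↔ ∀ i, i ∉ S → b.repr v i = 0 := by
  rw [CS, b.mem_span_image]
  constructor
  · intro h i hi
    by_contra hc
    exact hi (h (Finsupp.mem_support_iff.2 hc))
  · intro h i hi
    by_contra hc
    exact Finsupp.mem_support_iff.1 hi (h i hc)

omit [FiniteDimensional F V] [Fintype ι] in
theorem finrank_CS (b : Basis ι F V) (S : Finset ι) : finrank F (CS b S) = S.card := by
  have h1 : CS b S = Submodule.span F (Set.range (fun i : S => b i)) := by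
    rw [CS]
    congr 1
    ext v
    simp
  rw [h1, finrank_span_eq_card]
  · simp
  · exact b.linearIndependent.comp _ Subtype.val_injective

/-- Every subspace has a complement spanned by basis vectors. -/
theorem exists_compl_set (b : Basis ι F V) (X : Submodule F V) :
    ∃ S : Finset ι, X ⊓ CS b S = ⊥ ∧ S.card + finrank F X = finrank F V := by
  have hfin : (Set.Finite {S : Finset ι | X ⊓ CS b S = ⊥}) := Set.toFinite _
  have hne : ({S : Finset ι | X ⊓ CS b S = ⊥}).Nonempty := by
    refine ⟨∅, ?_⟩
    show X ⊓ CS b ∅ = ⊥
    rw [CS]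
    simp
  obtain ⟨S, hS⟩ := hfin.exists_maximal hne
  have hS1 : X ⊓ CS b S = ⊥ := hS.prop
  refine ⟨S, hS1, ?_⟩
  have htop : X ⊔ CS b S = ⊤ := by
    rw [eq_top_iff, ← b.span_eq, Submodule.span_le]
    rintro _ ⟨i, rfl⟩
    by_cases hi : i ∈ S
    · exact Submodule.mem_sup_right (Submodule.subset_span ⟨i, hi, rfl⟩)
    · have hns : ¬ (X ⊓ CS b (insert i S) = ⊥) := by
        intro hc
        have := hS.le_of_ge (y := insert i S) hc (Finset.subset_insert i S)
        exact hi (this (Finset.mem_insert_self i S))
      obtain ⟨x, ⟨hx1, hx2⟩, hx0⟩ := Submodule.exists_mem_ne_zero_of_ne_bot hns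
      have hxi : b.repr x i ≠ 0 := by
        intro hc
        apply hx0
        have : x ∈ X ⊓ CS b S := by
          refine ⟨hx1, mem_CS.2 fun j hj => ?_⟩
          by_cases hji : j = i
          · rw [hji, hc]
          · exact mem_CS.1 hx2 j (by simp [hji, hj])
        rw [hS1] at this
        exact (Submodule.mem_bot F).1 this
      have h3 : x - b.repr x i • b i ∈ CS b S := by
        refine mem_CS.2 fun j hj => ?_
        rw [map_sub, map_smul, Finsupp.sub_apply, Finsupp.smul_apply, b.repr_self, smul_eq_mul]
        by_cases hji : j = i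
        · subst hji
          simp
        · rw [mem_CS.1 hx2 j (by simp [hji, hj]), Finsupp.single_apply, if_neg (Ne.symm hji)]
          simp
      have h4 : b i = (b.repr x i)⁻¹ • x - (b.repr x i)⁻¹ • (x - b.repr x i • b i) := by
        rw [smul_sub, sub_sub_cancel, smul_smul, inv_mul_cancel₀ hxi, one_smul]
      rw [SetLike.mem_coe, h4]
      exact Submodule.sub_mem _ (Submodule.mem_sup_left (X.smul_mem _ hx1))
        (Submodule.mem_sup_right ((CS b S).smul_mem _ h3))
  have h1 := Submodule.finrank_sup_add_finrank_inf_eq X (CS b S)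
  rw [hS1, htop, finrank_bot, finrank_top, finrank_CS] at h1
  omega

/-- The diagonal map. -/
noncomputable def diag (b : Basis ι F V) (c : ι → F) : End F V := b.constr F (fun i => c i • b i)

omit [FiniteDimensional F V] [DecidableEq ι] in
theorem repr_diag (b : Basis ι F V) (c : ι → F) (v : V) (i : ι) :
    b.repr (diag b c v) i = c i * b.repr v i := by
  classical
  have h1 : diag b c v = ∑ j, b.repr v j • (c j • b j) := by
    exact b.constr_apply_fintype F _ _
  rw [h1, map_sum, Finset.sum_apply']
  rw [Finset.sum_eq_single i]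
  · rw [map_smul, map_smul, Finsupp.smul_apply, Finsupp.smul_apply, b.repr_self,
      Finsupp.single_eq_same, smul_eq_mul, smul_eq_mul, mul_one, mul_comm]
  · intro j _ hj
    rw [map_smul, map_smul, Finsupp.smul_apply, Finsupp.smul_apply, b.repr_self,
      Finsupp.single_apply, if_neg hj, smul_zero, smul_zero]
  · simp

omit [FiniteDimensional F V] [Fintype ι] in
theorem affine_step (U W : Submodule F V) (T : End F V) (x : V) (f : Dual F V)
    (hT : ∀ u ∈ U, T u ∈ W → u = 0) {s t : F} (hst : s ≠ t) :
    (∀ u ∈ U, T u + (s * f u) • x ∈ W → u = 0) ∨ (∀ u ∈ U, T u + (t * f u) • x ∈ W → u = 0) := by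
  by_contra hcon
  push Not at hcon
  obtain ⟨⟨u, hu, huW, hu0⟩, v, hv, hvW, hv0⟩ := hcon
  have hfu : f u ≠ 0 := by
    intro h0
    rw [h0, mul_zero, zero_smul, add_zero] at huW
    exact hu0 (hT u hu huW)
  have hfv : f v ≠ 0 := by
    intro h0
    rw [h0, mul_zero, zero_smul, add_zero] at hvW
    exact hv0 (hT v hv hvW)
  have h1 : (t * f v) • u - (s * f u) • v = 0 := by
    apply hT _ (U.sub_mem (U.smul_mem _ hu) (U.smul_mem _ hv))
    have h2 := W.sub_mem (W.smul_mem (t * f v) huW) (W.smul_mem (s * f u) hvW)
    have e : (t * f v) • (T u + (s * f u) • x) - (s * f u) • (T v + (t * f v) • x) =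
        T ((t * f v) • u - (s * f u) • v) := by
      rw [map_sub, map_smul, map_smul, smul_add, smul_add, smul_smul, smul_smul,
        mul_comm (t * f v) (s * f u)]
      abel
    rwa [e] at h2
  have h3 := congrArg f h1
  rw [map_sub, map_smul, map_smul, map_zero, smul_eq_mul, smul_eq_mul, sub_eq_zero] at h3
  apply hst
  have h4 : (s - t) * (f u * f v) = 0 := by linear_combination -h3
  rcases mul_eq_zero.1 h4 with h5 | h5
  · exact sub_eq_zero.1 h5
  · exact absurd h5 (mul_ne_zero hfu hfv)

variable {Γ : Set (End F V)}

/-- A monomial group containing all diagonal maps which permutes the coordinate lines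
`k`-homogeneously moves all subspaces of dimension `k` off all subspaces of codimension `k`. -/
theorem meet_of_torus (hΓ : Grp Γ) (b : Basis ι F V) {ζ : F} (hζ0 : ζ ≠ 0) (hζ1 : ζ ≠ 1)
    (hmono : ∀ g ∈ Γ, ∀ i, ∃ j, ∃ c : F, g (b i) = c • b j)
    (htorus : ∀ c : ι → F, (∀ i, c i ≠ 0) → diag b c ∈ Γ) {k : ℕ}
    (hhom : ∀ I J : Finset ι, I.card = k → J.card = k →
      ∃ g ∈ Γ, ∀ i ∈ I, ∃ j ∈ J, ∃ c : F, g (b i) = c • b j) : Meet Γ k := by
  intro U W hU hW
  have hcard : Fintype.card ι = finrank F V := (Module.finrank_eq_card_basis b).symm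
  obtain ⟨S, hS1, hS2⟩ := exists_compl_set b U
  obtain ⟨J, hJ1, hJ2⟩ := exists_compl_set b W
  have hSc : Sᶜ.card = k := by
    rw [Finset.card_compl, hcard]
    omega
  obtain ⟨g, hg, hgI⟩ := hhom Sᶜ J hSc (by omega)
  -- the permutation of `g`
  have hmg := hmono g hg
  choose π c hπ using hmg
  have hc0 : ∀ i, c i ≠ 0 := by
    intro i h0
    have h1 := hπ i
    rw [h0, zero_smul] at h1
    exact b.ne_zero i (hΓ.injective hg (by rw [h1, map_zero]))
  have hπinj : Function.Injective π := by
    intro i j hij
    by_contra hne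
    have h1 : g (c j • b i - c i • b j) = 0 := by
      rw [map_sub, map_smul, map_smul, hπ i, hπ j, hij, smul_smul, smul_smul, mul_comm (c j) (c i),
        sub_self]
    have h2 : c j • b i - c i • b j = 0 := hΓ.injective hg (by rw [h1, map_zero])
    have h3 := congrArg (fun v => b.repr v i) h2
    simp only [map_sub, map_smul, Finsupp.sub_apply, Finsupp.smul_apply, b.repr_self,
      Finsupp.single_apply, smul_eq_mul, map_zero, Finsupp.zero_apply, if_true,
      if_neg (Ne.symm hne), mul_one, mul_zero, sub_zero] at h3
    exact hc0 j h3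
  have hgrepr : ∀ v i, b.repr (g v) (π i) = c i * b.repr v i := by
    intro v i
    have h1 : g v = ∑ j, b.repr v j • (c j • b (π j)) := by
      conv_lhs => rw [← b.sum_repr v, map_sum]
      exact Finset.sum_congr rfl (fun j _ => by rw [map_smul, hπ j])
    rw [h1, map_sum, Finset.sum_apply', Finset.sum_eq_single i]
    · rw [map_smul, map_smul, Finsupp.smul_apply, Finsupp.smul_apply, b.repr_self,
        Finsupp.single_eq_same, smul_eq_mul, smul_eq_mul, mul_one, mul_comm]
    · intro j _ hj
      rw [map_smul, map_smul, Finsupp.smul_apply, Finsupp.smul_apply, b.repr_self,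
        Finsupp.single_apply, if_neg (fun h => hj (hπinj h)), smul_zero, smul_zero]
    · simp
  have hπJ : ∀ i, i ∉ S → π i ∈ J := by
    intro i hi
    obtain ⟨j, hj, d, hd⟩ := hgI i (by rw [mem_compl]; exact hi)
    rw [hπ i] at hd
    have h3 := congrArg (fun v => b.repr v (π i)) hd
    simp only [map_smul, Finsupp.smul_apply, b.repr_self, Finsupp.single_eq_same, smul_eq_mul,
      mul_one] at h3
    by_contra hc
    have hne : j ≠ π i := by
      rintro rfl
      exact hc hj
    rw [Finsupp.single_apply, if_neg hne, mul_zero] at h3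
    exact hc0 i h3
  -- the induction
  have key : ∀ K : Finset ι, ∃ d : ι → F, (∀ i, i ∈ J ∪ K → d i ≠ 0) ∧
      ∀ u ∈ U.map g, diag b d u ∈ W → u = 0 := by
    intro K
    induction K using Finset.induction_on with
    | empty =>
      refine ⟨fun i => if i ∈ J then 1 else 0, ?_, ?_⟩
      · intro i hi
        rw [Finset.union_empty] at hi
        simp [hi]
      · rintro _ ⟨u, hu, rfl⟩ hW'
        have h1 : diag b (fun i => if i ∈ J then 1 else 0) (g u) ∈ W ⊓ CS b J := by
          refine ⟨hW', mem_CS.2 fun i hi => ?_⟩
          rw [repr_diag, if_neg hi, zero_mul]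
        rw [hJ1, Submodule.mem_bot] at h1
        have h2 : u ∈ U ⊓ CS b S := by
          refine ⟨hu, mem_CS.2 fun i hi => ?_⟩
          have h3 := congrArg (fun v => b.repr v (π i)) h1
          simp only [repr_diag, if_pos (hπJ i hi), one_mul, map_zero, Finsupp.zero_apply] at h3
          rw [hgrepr] at h3
          exact (mul_eq_zero.1 h3).resolve_left (hc0 i)
        rw [hS1, Submodule.mem_bot] at h2
        rw [h2, map_zero]
    | insert i K hi ih =>
      obtain ⟨d, hd1, hd2⟩ := ih
      by_cases hdi : d i = 0
      · have hexp : ∀ (s : F) (u : V), diag b (Function.update d i s) u =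
            diag b d u + (s * b.coord i u) • b i := by
          intro s u
          apply b.repr.injective
          ext j
          rw [map_add, Finsupp.add_apply, repr_diag, repr_diag, map_smul, Finsupp.smul_apply,
            b.repr_self, smul_eq_mul, Basis.coord_apply]
          by_cases hji : j = i
          · subst hji
            rw [Function.update_self, Finsupp.single_eq_same, hdi]
            ring
          · rw [Function.update_of_ne hji, Finsupp.single_apply, if_neg (Ne.symm hji)]
            ring
        have hstep := affine_step (U.map g) W (diag b d) (b i) (b.coord i) hd2 (Ne.symm hζ1)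
        have hfin : ∀ s : F, s ≠ 0 → (∀ u ∈ U.map g, diag b d u + (s * b.coord i u) • b i ∈ W →
            u = 0) → ∃ d : ι → F, (∀ j, j ∈ J ∪ insert i K → d j ≠ 0) ∧
              ∀ u ∈ U.map g, diag b d u ∈ W → u = 0 := by
          intro s hs h
          refine ⟨Function.update d i s, ?_, ?_⟩
          · intro j hj
            by_cases hji : j = i
            · subst hji
              rw [Function.update_self]
              exact hs
            · rw [Function.update_of_ne hji]
              apply hd1
              simp only [mem_union, mem_insert] at hj ⊢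
              tauto
          · intro u hu huW
            rw [hexp] at huW
            exact h u hu huW
        rcases hstep with h | h
        · exact hfin 1 one_ne_zero h
        · exact hfin ζ hζ0 h
      · refine ⟨d, ?_, hd2⟩
        intro j hj
        by_cases hji : j = i
        · subst hji
          exact hdi
        · apply hd1
          simp only [mem_union, mem_insert] at hj ⊢
          tauto
  obtain ⟨d, hd1, hd2⟩ := key univ
  have ht : diag b d ∈ Γ := htorus d (fun i => hd1 i (by simp))
  refine ⟨diag b d * g, hΓ.mul _ ht _ hg, ?_⟩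
  rw [eq_bot_iff]
  rintro _ ⟨⟨u, hu, rfl⟩, hw⟩
  have h1 : g u = 0 := hd2 (g u) ⟨u, hu, rfl⟩ hw
  show diag b d (g u) ∈ (⊥ : Submodule F V)
  rw [h1, map_zero]
  exact Submodule.zero_mem _

end Pool.Agent.Lib.MP_55eb77_al
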