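import Pool.Agent.Lib.MP_55eb77_al.Meet

/-!
Groups whose orbits on lines are long have (R1).
-/

set_option linter.unusedSimpArgs false
set_option linter.unusedSectionVars false

namespace Pool.Agent.Lib.MP_55eb77_al

open Function Finset Module

variable {F : Type*} [Field F] [Finite F] {V : Type*} [AddCommGroup V] [Module F V]
  [FiniteDimensional F V]

/-- The set of the nonzero vectors on the lines `⟨g u⟩`, `g ∈ Γ`. -/
def Orb (Γ : Set (End F V)) (u : V) : Set V := {v | ∃ g ∈ Γ, ∃ c : F, c ≠ 0 ∧ v = c • g u}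

section count

variable [Fintype (End F V × F)] [Fintype V] [DecidableEq V]

open Classical in
/-- The pairs (element, scalar) moving `u` to `w`. -/
noncomputable def Mv (Γ : Set (End F V)) (u w : V) : Finset (End F V × F) :=
  univ.filter (fun p => p.1 ∈ Γ ∧ p.2 ≠ 0 ∧ p.2 • p.1 u = w)

omit [Finite F] [FiniteDimensional F V] [Fintype V] in
theorem mem_Mv {Γ : Set (End F V)} {u w : V} {p : End F V × F} :
    p ∈ Mv Γ u w ↔ p.1 ∈ Γ ∧ p.2 ≠ 0 ∧ p.2 • p.1 u = w := by
  simp [Mv]

omit [Finite F] [FiniteDimensional F V] [Fintype V] in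
theorem card_Mv_le {Γ : Set (End F V)} (hΓ : Grp Γ) {u w w' : V}
    (hw : w ∈ Orb Γ u) (hw' : w' ∈ Orb Γ u) :
    (Mv Γ u w).card ≤ (Mv Γ u w').card := by
  obtain ⟨h, hh, c, hc, rfl⟩ := hw
  obtain ⟨k, hk, d, hd, rfl⟩ := hw'
  obtain ⟨h', hh', e1, e2⟩ := hΓ.inv h hh
  have hinj := hΓ.injective (hΓ.mul k hk h' hh')
  apply Finset.card_le_card_of_injOn (fun p => (k * h' * p.1, d * c⁻¹ * p.2))
  · intro p hp
    rw [Finset.mem_coe, mem_Mv] at hp
    obtain ⟨h1, h2, h3⟩ := hp
    rw [Finset.mem_coe, mem_Mv]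
    refine ⟨hΓ.mul _ (hΓ.mul k hk h' hh') _ h1, mul_ne_zero (mul_ne_zero hd (inv_ne_zero hc)) h2,
      ?_⟩
    show (d * c⁻¹ * p.2) • k (h' (p.1 u)) = d • k u
    have h4 : h' (h u) = u := by
      have := LinearMap.congr_fun e2 u; simpa using this
    have h5 : p.2 • k (h' (p.1 u)) = c • k u := by
      rw [← map_smul, ← map_smul, h3, map_smul, map_smul, h4]
    rw [mul_smul, h5, smul_smul, mul_assoc, inv_mul_cancel₀ hc, mul_one]
  · intro p _ q _ hpq
    obtain ⟨h1, h2⟩ := Prod.ext_iff.1 hpq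
    have h2' : d * c⁻¹ * p.2 = d * c⁻¹ * q.2 := h2
    have h1' : k * h' * p.1 = k * h' * q.1 := h1
    apply Prod.ext
    · ext v
      apply hinj
      exact LinearMap.congr_fun h1' v
    · exact mul_left_cancel₀ (mul_ne_zero hd (inv_ne_zero hc)) h2'

end count

/-- If all orbits on lines are long, every subspace of dimension `k` can be moved off every
subspace of codimension `k`. -/
theorem meet_of_long {Γ : Set (End F V)} (hΓ : Grp Γ) {k : ℕ} (hk1 : 1 ≤ k)
    (hk2 : k + 1 ≤ finrank F V)
    (hlong : ∀ u : V, u ≠ 0 → (Nat.card F ^ k - 1) * (Nat.card F ^ (finrank F V - k) - 1) <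
      (Nat.card F - 1) * Nat.card (Orb Γ u)) : Meet Γ k := by
  classical
  have : Finite (End F V) := finite_end
  have : Finite V := Module.finite_of_finite F
  have := Fintype.ofFinite (End F V)
  have := Fintype.ofFinite V
  have := Fintype.ofFinite F
  intro U W hU hW
  by_contra hcon
  push Not at hcon
  have hcU : Fintype.card U = Fintype.card F ^ finrank F U := Module.card_eq_pow_finrank
  have hcW : Fintype.card W = Fintype.card F ^ finrank F W := Module.card_eq_pow_finrank
  have hq : 1 < Fintype.card F := Fintype.one_lt_card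
  have hU2 : 2 ≤ Fintype.card U := by
    rw [hcU]
    calc 2 ≤ Fintype.card F ^ 1 := by rw [pow_one]; exact hq
      _ ≤ _ := Nat.pow_le_pow_right (by omega) (by omega)
  have hW2 : 2 ≤ Fintype.card W := by
    rw [hcW]
    calc 2 ≤ Fintype.card F ^ 1 := by rw [pow_one]; exact hq
      _ ≤ _ := Nat.pow_le_pow_right (by omega) (by omega)
  -- the nonzero vectors
  let U0 : Finset V := univ.filter (fun v => v ∈ U ∧ v ≠ 0)
  let W0 : Finset V := univ.filter (fun v => v ∈ W ∧ v ≠ 0)
  have hU0 : U0.card + 1 = Fintype.card U := by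
    have h1 : (univ.filter (fun v => v ∈ U) : Finset V).card = Fintype.card U := by
      rw [Fintype.card_subtype]
    have h2 : U0 = (univ.filter (fun v => v ∈ U) : Finset V).erase 0 := by
      ext v
      simp only [U0, mem_filter, mem_univ, true_and, mem_erase, ne_eq]
      tauto
    rw [h2, Finset.card_erase_add_one, h1]
    simp
  have hW0 : W0.card + 1 = Fintype.card W := by
    have h1 : (univ.filter (fun v => v ∈ W) : Finset V).card = Fintype.card W := by
      rw [Fintype.card_subtype]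
    have h2 : W0 = (univ.filter (fun v => v ∈ W) : Finset V).erase 0 := by
      ext v
      simp only [W0, mem_filter, mem_univ, true_and, mem_erase, ne_eq]
      tauto
    rw [h2, Finset.card_erase_add_one, h1]
    simp
  set K := U0.card * W0.card with hK
  have hKpos : 0 < K := Nat.mul_pos (by omega) (by omega)
  have hKeq : (Nat.card F ^ k - 1) * (Nat.card F ^ (finrank F V - k) - 1) = K := by
    rw [hK, Nat.card_eq_fintype_card, ← hU, ← hcU, show finrank F V - finrank F U = finrank F W by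
      omega, ← hcW]
    congr 1 <;> omega
  have hlong' : ∀ u : V, u ≠ 0 → K < (Fintype.card F - 1) * Nat.card (Orb Γ u) := by
    intro u hu
    have := hlong u hu
    rwa [hKeq, Nat.card_eq_fintype_card] at this
  let T : Finset (End F V × F) := univ.filter (fun p => p.1 ∈ Γ ∧ p.2 ≠ 0)
  have hTpos : 0 < T.card := by
    apply Finset.card_pos.2
    refine ⟨(1, 1), ?_⟩
    simp only [T, mem_filter, mem_univ, true_and]
    exact ⟨hΓ.one, one_ne_zero⟩
  -- every pair of vectors is moved by few elements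
  have hN : ∀ u w : V, (Mv Γ u w).card * Nat.card (Orb Γ u) ≤ T.card := by
    intro u w
    by_cases hw : w ∈ Orb Γ u
    · have h1 : ∑ w' ∈ (Orb Γ u).toFinset, (Mv Γ u w').card ≤ T.card := by
        rw [← Finset.card_biUnion]
        · apply Finset.card_le_card
          intro p hp
          rw [mem_biUnion] at hp
          obtain ⟨w', _, hp⟩ := hp
          rw [mem_Mv] at hp
          simp only [T, mem_filter, mem_univ, true_and]
          exact ⟨hp.1, hp.2.1⟩
        · intro w _ w' _ hne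
          rw [Function.onFun, Finset.disjoint_left]
          intro p hp hp'
          rw [mem_Mv] at hp hp'
          exact hne (hp.2.2.symm.trans hp'.2.2)
      rw [Finset.sum_congr rfl (fun w' hw' => le_antisymm
        (card_Mv_le hΓ (Set.mem_toFinset.1 hw') hw) (card_Mv_le hΓ hw (Set.mem_toFinset.1 hw'))),
        Finset.sum_const, smul_eq_mul, Set.toFinset_card, mul_comm] at h1
      rwa [Nat.card_eq_fintype_card]
    · have h1 : Mv Γ u w = ∅ := by
        rw [Finset.eq_empty_iff_forall_notMem]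
        intro p hp
        rw [mem_Mv] at hp
        exact hw ⟨p.1, hp.1, p.2, hp.2.1, hp.2.2.symm⟩
      rw [h1, Finset.card_empty, zero_mul]
      exact Nat.zero_le _
  -- double counting
  have hdc : ∑ p ∈ T, ((U0 ×ˢ W0).filter (fun x => p.2 • p.1 x.1 = x.2)).card =
      ∑ x ∈ U0 ×ˢ W0, (Mv Γ x.1 x.2).card := by
    have h1 : ∀ x : V × V, (Mv Γ x.1 x.2) = T.filter (fun p => p.2 • p.1 x.1 = x.2) := by
      intro x
      ext p
      simp only [mem_Mv, T, mem_filter, mem_univ, true_and, and_assoc]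
    have h2 : ∑ x ∈ U0 ×ˢ W0, (Mv Γ x.1 x.2).card =
        ∑ x ∈ U0 ×ˢ W0, (T.filter (fun p => p.2 • p.1 x.1 = x.2)).card :=
      Finset.sum_congr rfl (fun x _ => by rw [h1 x])
    rw [h2]
    exact Finset.sum_card_bipartiteAbove_eq_sum_card_bipartiteBelow
      (s := T) (t := U0 ×ˢ W0) (fun p x => p.2 • p.1 x.1 = x.2)
  have hlow : T.card * (Fintype.card F - 1) ≤
      ∑ p ∈ T, ((U0 ×ˢ W0).filter (fun x => p.2 • p.1 x.1 = x.2)).card := by
    rw [← smul_eq_mul, ← Finset.sum_const]
    apply Finset.sum_le_sum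
    intro p hp
    simp only [T, mem_filter, mem_univ, true_and] at hp
    obtain ⟨h1, h2⟩ := hp
    have hne := hcon p.1 h1
    obtain ⟨w, ⟨⟨u, hu, huw⟩, hw⟩, hw0⟩ := Submodule.exists_mem_ne_zero_of_ne_bot hne
    have hu0 : u ≠ 0 := by
      rintro rfl
      rw [map_zero] at huw
      exact hw0 huw.symm
    have hcF : ((univ : Finset F).erase 0).card = Fintype.card F - 1 := by
      rw [Finset.card_erase_of_mem (mem_univ _), Finset.card_univ]
    rw [← hcF]
    apply Finset.card_le_card_of_injOn (fun c => (c • u, (p.2 * c) • w))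
    · intro c hc
      rw [Finset.mem_coe, mem_erase] at hc
      rw [Finset.mem_coe, mem_filter, mem_product]
      simp only [U0, W0, mem_filter, mem_univ, true_and]
      refine ⟨⟨⟨U.smul_mem _ hu, smul_ne_zero hc.1 hu0⟩, W.smul_mem _ hw,
        smul_ne_zero (mul_ne_zero h2 hc.1) hw0⟩, ?_⟩
      rw [map_smul, huw, smul_smul]
    · intro c _ d _ hcd
      have h3 : c • u = d • u := (Prod.ext_iff.1 hcd).1
      have h4 : (c - d) • u = 0 := by rw [sub_smul, h3, sub_self]
      rcases smul_eq_zero.1 h4 with h5 | h5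
      · exact sub_eq_zero.1 h5
      · exact absurd h5 hu0
  have hup : (∑ x ∈ U0 ×ˢ W0, (Mv Γ x.1 x.2).card) * K < K * (T.card * (Fintype.card F - 1)) := by
    rw [Finset.sum_mul]
    have h1 : ∑ x ∈ U0 ×ˢ W0, (Mv Γ x.1 x.2).card * K <
        ∑ x ∈ U0 ×ˢ W0, (T.card * (Fintype.card F - 1)) := by
      apply Finset.sum_lt_sum_of_nonempty
      · rw [← Finset.card_pos, Finset.card_product]
        exact hKpos
      · intro x hx
        rw [mem_product] at hx
        have hx0 : x.1 ≠ 0 := (mem_filter.1 hx.1).2.2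
        rcases Nat.eq_zero_or_pos (Mv Γ x.1 x.2).card with h0 | h0
        · rw [h0, zero_mul]
          exact Nat.mul_pos hTpos (by omega)
        · calc (Mv Γ x.1 x.2).card * K
              < (Mv Γ x.1 x.2).card * ((Fintype.card F - 1) * Nat.card (Orb Γ x.1)) :=
                Nat.mul_lt_mul_of_pos_left (hlong' _ hx0) h0
            _ = (Mv Γ x.1 x.2).card * Nat.card (Orb Γ x.1) * (Fintype.card F - 1) := by ring
            _ ≤ T.card * (Fintype.card F - 1) := Nat.mul_le_mul_right _ (hN _ _)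
    rwa [Finset.sum_const, smul_eq_mul, Finset.card_product] at h1
  rw [← hdc] at hup
  have h5 := Nat.mul_le_mul_left K hlow
  rw [mul_comm _ K] at hup
  omega

/-- Transitivity on the subspaces of dimension one. -/
def TransLines (Γ : Set (End F V)) : Prop :=
  ∀ u v : V, u ≠ 0 → v ≠ 0 → ∃ g ∈ Γ, ∃ c : F, g u = c • v

theorem long_of_trans {Γ : Set (End F V)} (hΓ : Grp Γ) (ht : TransLines Γ) {k : ℕ} (hk1 : 1 ≤ k)
    (hk2 : k + 1 ≤ finrank F V) (u : V) (hu : u ≠ 0) :
    (Nat.card F ^ k - 1) * (Nat.card F ^ (finrank F V - k) - 1) <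
      (Nat.card F - 1) * Nat.card (Orb Γ u) := by
  classical
  have : Finite V := Module.finite_of_finite F
  have := Fintype.ofFinite V
  have := Fintype.ofFinite F
  have hcV : Fintype.card V = Fintype.card F ^ finrank F V := Module.card_eq_pow_finrank
  have hq : 1 < Fintype.card F := Fintype.one_lt_card
  have hO : Orb Γ u = {0}ᶜ := by
    ext v
    rw [Set.mem_compl_iff, Set.mem_singleton_iff]
    constructor
    · rintro ⟨g, hg, c, hc, rfl⟩ h0
      rcases smul_eq_zero.1 h0 with h | h
      · exact hc h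
      · exact hu (hΓ.injective hg (by rw [h, map_zero]))
    · intro hv
      obtain ⟨g, hg, c, hc⟩ := ht u v hu hv
      have hc0 : c ≠ 0 := by
        rintro rfl
        rw [zero_smul] at hc
        exact hu (hΓ.injective hg (by rw [hc, map_zero]))
      exact ⟨g, hg, c⁻¹, inv_ne_zero hc0, by rw [hc, smul_smul, inv_mul_cancel₀ hc0, one_smul]⟩
  have hcO : Nat.card (Orb Γ u) = Fintype.card V - 1 := by
    rw [hO, Nat.card_eq_fintype_card, Fintype.card_compl_set]
    simp
  rw [hcO, Nat.card_eq_fintype_card, hcV]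
  obtain ⟨m, hm⟩ : ∃ m, finrank F V = k + m := ⟨finrank F V - k, by omega⟩
  have hm1 : 1 ≤ m := by omega
  rw [hm, show k + m - k = m by omega, pow_add]
  set q := Fintype.card F
  have h1 : 2 ≤ q ^ k := by
    calc 2 ≤ q ^ 1 := by rw [pow_one]; exact hq
      _ ≤ _ := Nat.pow_le_pow_right (by omega) (by omega)
  have h2 : 2 ≤ q ^ m := by
    calc 2 ≤ q ^ 1 := by rw [pow_one]; exact hq
      _ ≤ _ := Nat.pow_le_pow_right (by omega) (by omega)
  obtain ⟨x, hx⟩ : ∃ x, q ^ k = x + 2 := ⟨q ^ k - 2, by omega⟩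
  obtain ⟨y, hy⟩ : ∃ y, q ^ m = y + 2 := ⟨q ^ m - 2, by omega⟩
  obtain ⟨z, hz⟩ : ∃ z, q = z + 2 := ⟨q - 2, by omega⟩
  rw [hx, hy, hz]
  rw [show (x + 2 - 1) = x + 1 by omega, show (y + 2 - 1) = y + 1 by omega,
    show (z + 2 - 1) = z + 1 by omega]
  have h3 : (x + 2) * (y + 2) - 1 = (x + 1) * (y + 1) + (x + y + 2) := by
    have : (x + 2) * (y + 2) = (x + 1) * (y + 1) + (x + y + 2) + 1 := by ring
    rw [this]
    omega
  rw [h3]
  nlinarith

/-- A group transitive on lines has (R1) and (R2) for all ranks. -/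
theorem regular_of_trans {Γ : Set (End F V)} (hΓ : Grp Γ) (ht : TransLines Γ) {k : ℕ}
    (hk2 : k + 1 ≤ finrank F V) : R1k Γ k ∧ R2k Γ k := by
  have h : R2k Γ k := R2k_of_meet hΓ k (fun l hl1 hl2 =>
    meet_of_long hΓ hl1 (by omega) (long_of_trans hΓ ht hl1 (by omega)))
  exact ⟨R1k_of_R2k h, h⟩

end Pool.Agent.Lib.MP_55eb77_al
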